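import Pool.Agent.Helper56.AP.Stmts

/-!
# Project A' (MP_8958e8): the mean square of `b_2` at shift zero (block K0b)
-/

open MeasureTheory Set Filter Topology
open Pool.Agent.Helper57.Zeta Pool.Agent.Helper57.PC Pool.Agent.Helper57.LH Pool.Agent.Helper78.SG
open Pool.Agent.Helper4.SH (om)
open Pool.Agent.Helper69.FF Pool.Agent.Helper57.KP
open scoped ContDiff

set_option autoImplicit false

namespace Pool.Agent.AP

namespace K0bAux

/-- the number of primes of `I` dividing `n` -/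
noncomputable def kI (I : Finset ℕ) (n : ℤ) : ℝ := ∑ p ∈ I, if (p : ℤ) ∣ n then (1 : ℝ) else 0

lemma kI_nonneg (I : Finset ℕ) (n : ℤ) : 0 ≤ kI I n :=
  Finset.sum_nonneg fun p _ => by split_ifs <;> norm_num

lemma mem_IP {e v T : ℝ} {p : ℕ} (hp : p ∈ IP e v T) : p.Prime ∧ T ^ e < (p : ℝ) ∧ (p : ℝ) ≤ T ^ (e + v) := by
  unfold IP at hp
  rw [Finset.mem_filter, Finset.mem_Icc] at hp
  refine ⟨hp.2.1, hp.2.2, ?_⟩
  by_cases h0 : 0 ≤ T ^ (e + v)
  · exact (Nat.le_floor_iff h0).1 hp.1.2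
  · exfalso
    have : ⌊T ^ (e + v)⌋₊ = 0 := Nat.floor_of_nonpos (by linarith)
    omega

lemma cI_nonneg {I : Finset ℕ} (h : ∀ p ∈ I, p.Prime) : 0 ≤ cI I := by
  refine Finset.sum_nonneg fun p hp => ?_
  have : (1 : ℝ) < p := by exact_mod_cast (h p hp).one_lt
  have : 0 < (p : ℝ) - 1 := by linarith
  positivity

lemma omI_nonneg {I : Finset ℕ} (h : ∀ p ∈ I, p.Prime) (n : ℤ) : 0 ≤ omI I n := by
  refine Finset.sum_nonneg fun p hp => ?_
  have : (1 : ℝ) < p := by exact_mod_cast (h p hp).one_lt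
  have : 0 < (p : ℝ) - 1 := by linarith
  split_ifs
  · positivity
  · exact le_rfl

lemma omI_le {I : Finset ℕ} (h : ∀ p ∈ I, p.Prime) (n : ℤ) : omI I n ≤ 2 * kI I n := by
  unfold omI kI
  rw [Finset.mul_sum]
  refine Finset.sum_le_sum fun p hp => ?_
  have h2 : (2 : ℝ) ≤ p := by exact_mod_cast (h p hp).two_le
  split_ifs
  · rw [mul_one, div_le_iff₀ (by linarith)]
    linarith
  · simp

/-- at most `log n / log T^e` primes of the interval divide `n` -/
lemma kI_le {e v T : ℝ} (hT : 1 < T) (he : 0 < e) {n : ℕ} (hn : 1 ≤ n) {Q : ℝ} (hQ : Real.log n ≤ Q * (e * Real.log T)) :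
    kI (IP e v T) n ≤ Q := by
  have hlT : 0 < Real.log T := Real.log_pos hT
  set J := (IP e v T).filter fun p => p ∣ n with hJ
  have h1 : kI (IP e v T) n = J.card := by
    unfold kI
    rw [hJ, Finset.card_filter]
    push_cast
    refine Finset.sum_congr rfl fun p _ => ?_
    by_cases h : p ∣ n
    · rw [if_pos h, if_pos (by exact_mod_cast h)]
    · rw [if_neg h, if_neg (by exact_mod_cast h)]
  have h2 : ∏ p ∈ J, p ∣ n := by
    refine Finset.prod_primes_dvd n (fun p hp => ?_) (fun p hp => ?_)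
    · exact (mem_IP (Finset.mem_filter.1 hp).1).1.prime
    · exact (Finset.mem_filter.1 hp).2
  have h3 : (∏ p ∈ J, (p : ℝ)) ≤ n := by
    have h3' : ((∏ p ∈ J, p : ℕ) : ℝ) ≤ n := by
      have := Nat.le_of_dvd (by omega) h2
      exact_mod_cast this
    rwa [Nat.cast_prod] at h3'
  have h4 : (T ^ e) ^ J.card ≤ ∏ p ∈ J, (p : ℝ) := by
    rw [← Finset.prod_const]
    refine Finset.prod_le_prod (fun p _ => by positivity) (fun p hp => ?_)
    exact (mem_IP (Finset.mem_filter.1 hp).1).2.1.le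
  have h5 := h4.trans h3
  have h6 := Real.log_le_log (by positivity) h5
  rw [Real.log_pow, Real.log_rpow (by linarith)] at h6
  have h7 : (J.card : ℝ) * (e * Real.log T) ≤ Q * (e * Real.log T) := h6.trans hQ
  rw [h1]
  exact le_of_mul_le_mul_right h7 (by positivity)

/-- primes larger than `r` do not change `c_r` -/
lemma cr_mul_prime {r p : ℕ} (hr : 1 ≤ r) (hp : p.Prime) (h : r < p) (n : ℤ) : cr r (p * n) = cr r n := by
  unfold cr
  refine Finset.sum_congr rfl fun d hd => ?_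
  have hd' := Nat.dvd_of_mem_divisors hd
  have h1 : IsCoprime (d : ℤ) (p : ℤ) := by
    rw [Nat.isCoprime_iff_coprime]
    refine ((Nat.Prime.coprime_iff_not_dvd hp).2 fun hpd => ?_).symm
    have := Nat.le_of_dvd (by omega) (hpd.trans hd')
    omega
  have h2 : (d : ℤ) ∣ (p : ℤ) * n ↔ (d : ℤ) ∣ n := ⟨fun h => h1.dvd_of_dvd_mul_left h, fun h => h.mul_left _⟩
  by_cases h3 : (d : ℤ) ∣ n
  · rw [if_pos h3, if_pos (h2.2 h3)]
  · rw [if_neg h3, if_neg (fun h4 => h3 (h2.1 h4))]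

lemma lamR_mul_prime {B p : ℕ} (hp : p.Prime) (h : B < p) (n : ℤ) : lamR B (p * n) = lamR B n := by
  unfold lamR
  refine Finset.sum_congr rfl fun r hr => ?_
  rw [Finset.mem_Icc] at hr
  rw [cr_mul_prime hr.1 hp (by omega)]

lemma kI_mul_prime {I : Finset ℕ} (hI : ∀ q ∈ I, q.Prime) {p : ℕ} (hp : p.Prime) (hpI : p ∉ I) (n : ℤ) :
    kI I (p * n) = kI I n := by
  unfold kI
  refine Finset.sum_congr rfl fun q hq => ?_
  have h1 : IsCoprime (q : ℤ) (p : ℤ) := by
    rw [Nat.isCoprime_iff_coprime, Nat.coprime_primes (hI q hq) hp]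
    rintro rfl
    exact hpI hq
  have h2 : (q : ℤ) ∣ (p : ℤ) * n ↔ (q : ℤ) ∣ n := ⟨fun h => h1.dvd_of_dvd_mul_left h, fun h => h.mul_left _⟩
  by_cases h3 : (q : ℤ) ∣ n
  · rw [if_pos h3, if_pos (h2.2 h3)]
  · rw [if_neg h3, if_neg (fun h4 => h3 (h2.1 h4))]

/-- the majorant of `b_2²` -/
noncomputable def FL (B : ℕ) (a b : ℝ → ℝ) (v T : ℝ) (es : List ℝ) (n : ℕ) : ℝ :=
  lamR B n ^ 2 * (es.map fun x => a x + b x * kI (IP x v T) n).prod

lemma Sm_mono {W : ℝ → ℝ} {R c : ℝ} {f g : ℕ → ℝ}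
    (h : ∀ n : ℕ, 1 ≤ n → (n : ℝ) ≤ Real.exp (c + R) → f n ≤ g n) : Sm W R c f ≤ Sm W R c g := by
  unfold Sm
  refine Finset.sum_le_sum fun n hn => ?_
  rw [Finset.mem_Icc] at hn
  refine mul_le_mul_of_nonneg_right (h n hn.1 ?_) (by positivity)
  exact (Nat.le_floor_iff (Real.exp_pos _).le).1 hn.2

lemma Sm_add {W : ℝ → ℝ} {R c : ℝ} (f g : ℕ → ℝ) : Sm W R c (fun n => f n + g n) = Sm W R c f + Sm W R c g := by
  unfold Sm
  rw [← Finset.sum_add_distrib]
  refine Finset.sum_congr rfl fun n _ => ?_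
  ring

lemma Sm_mul {W : ℝ → ℝ} {R c : ℝ} (a : ℝ) (f : ℕ → ℝ) : Sm W R c (fun n => a * f n) = a * Sm W R c f := by
  unfold Sm
  rw [Finset.mul_sum]
  refine Finset.sum_congr rfl fun n _ => ?_
  ring

lemma Sm_sum {W : ℝ → ℝ} {R c : ℝ} {ι : Type} (s : Finset ι) (f : ι → ℕ → ℝ) :
    Sm W R c (fun n => ∑ i ∈ s, f i n) = ∑ i ∈ s, Sm W R c (f i) := by
  unfold Sm
  rw [Finset.sum_comm]
  refine Finset.sum_congr rfl fun n _ => ?_
  rw [Finset.sum_mul]

/-- one more interval -/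
lemma FL_cons (hSD : Stmt_Sm_dvd) {W : ℝ → ℝ} {R : ℝ} (hW : PF W R) {B : ℕ} {a b : ℝ → ℝ} {v T : ℝ} (hT : 1 ≤ T) (x : ℝ) (es : List ℝ)
    (hx : ∀ y ∈ es, x + v < y) (hB : (B : ℝ) < T ^ x) (c : ℝ) :
    Sm W R c (FL B a b v T (x :: es)) = a x * Sm W R c (FL B a b v T es) +
      b x * ∑ p ∈ IP x v T, (1 / (p : ℝ)) * Sm W R (c - Real.log p) (FL B a b v T es) := by
  have h1 : ∀ n : ℕ, FL B a b v T (x :: es) n = a x * FL B a b v T es n +
      b x * ∑ p ∈ IP x v T, (if p ∣ n then FL B a b v T es (n / p) else 0) := by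
    intro n
    have h2 : ∀ p ∈ IP x v T, (if p ∣ n then FL B a b v T es (n / p) else 0) =
        (if (p : ℤ) ∣ (n : ℤ) then (1 : ℝ) else 0) * FL B a b v T es n := by
      intro p hp
      obtain ⟨hp1, hp2, hp3⟩ := mem_IP hp
      by_cases h3 : p ∣ n
      · rw [if_pos h3, if_pos (by exact_mod_cast h3), one_mul]
        obtain ⟨m, rfl⟩ := h3
        rw [Nat.mul_div_cancel_left _ hp1.pos]
        unfold FL
        push_cast
        rw [lamR_mul_prime hp1 (by exact_mod_cast hB.trans hp2)]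
        congr 2
        refine List.map_congr_left fun y hy => ?_
        rw [kI_mul_prime (fun q hq => (mem_IP hq).1) hp1 ?_]
        intro hpy
        have h4 := (mem_IP hpy).2.1
        have h5 : T ^ (x + v) ≤ T ^ y := Real.rpow_le_rpow_of_exponent_le hT (hx y hy).le
        linarith
      · rw [if_neg h3, if_neg (by exact_mod_cast h3), zero_mul]
    rw [Finset.sum_congr rfl h2, ← Finset.sum_mul]
    unfold FL kI
    rw [List.map_cons, List.prod_cons]
    ring
  have h6 : Sm W R c (FL B a b v T (x :: es)) = Sm W R c (fun n => a x * FL B a b v T es n +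
      b x * ∑ p ∈ IP x v T, (if p ∣ n then FL B a b v T es (n / p) else 0)) := by
    congr 1
    funext n
    exact h1 n
  rw [h6, Sm_add, Sm_mul, Sm_mul, Sm_sum]
  congr 2
  refine Finset.sum_congr rfl fun p hp => ?_
  exact hSD hW c _ (mem_IP hp).1.one_lt.le

/-- induction on the list of the intervals -/
lemma FL_le (hSD : Stmt_Sm_dvd) {W : ℝ → ℝ} {R : ℝ} (hW : PF W R) {B : ℕ} {a b : ℝ → ℝ} {v T c0 M : ℝ} (hT : 1 ≤ T) (hv : 0 ≤ v) (hM : 0 ≤ M)
    (hbase : ∀ c : ℝ, c0 ≤ c → Sm W R c (fun n => lamR B n ^ 2) ≤ M) :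
    ∀ es : List ℝ, (∀ x ∈ es, 0 ≤ x ∧ 0 ≤ a x ∧ 0 ≤ b x ∧ (B : ℝ) < T ^ x) → es.Pairwise (fun x y => x + v < y) →
      ∀ c : ℝ, c0 + (es.sum + es.length * v) * Real.log T ≤ c →
        Sm W R c (FL B a b v T es) ≤ M * (es.map fun x => a x + b x * cI (IP x v T)).prod := by
  intro es
  induction es with
  | nil =>
    intro _ _ c hc
    simp only [List.map_nil, List.prod_nil, mul_one]
    have h1 : Sm W R c (FL B a b v T []) = Sm W R c (fun n => lamR B n ^ 2) := by
      congr 1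
      funext n
      unfold FL
      simp
    rw [h1]
    refine hbase c ?_
    simpa using hc
  | cons x es ih =>
    intro h hp c hc
    rw [List.pairwise_cons] at hp
    have hx := h x List.mem_cons_self
    have hes : ∀ y ∈ es, 0 ≤ y ∧ 0 ≤ a y ∧ 0 ≤ b y ∧ (B : ℝ) < T ^ y := fun y hy => h y (List.mem_cons_of_mem x hy)
    have hlT : 0 ≤ Real.log T := Real.log_nonneg hT
    rw [List.sum_cons, List.length_cons] at hc
    push_cast at hc
    set P := (es.map fun x => a x + b x * cI (IP x v T)).prod with hP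
    have hP0 : 0 ≤ P := by
      rw [hP]
      refine List.prod_nonneg fun z hz => ?_
      rw [List.mem_map] at hz
      obtain ⟨y, hy, rfl⟩ := hz
      have h1 := hes y hy
      have h2 := cI_nonneg (I := IP y v T) (fun q hq => (mem_IP hq).1)
      have h3 := mul_nonneg h1.2.2.1 h2
      linarith [h1.2.1]
    have e1 : (x + es.sum + (es.length + 1) * v) * Real.log T =
        (x + v) * Real.log T + (es.sum + es.length * v) * Real.log T := by ring
    rw [e1] at hc
    have hxv : 0 ≤ (x + v) * Real.log T := mul_nonneg (by linarith [hx.1]) hlT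
    rw [FL_cons hSD hW hT x es hp.1 hx.2.2.2, List.map_cons, List.prod_cons, ← hP]
    have h1 : Sm W R c (FL B a b v T es) ≤ M * P := ih hes hp.2 c (by linarith)
    have h2 : ∑ p ∈ IP x v T, (1 / (p : ℝ)) * Sm W R (c - Real.log p) (FL B a b v T es) ≤
        cI (IP x v T) * (M * P) := by
      unfold cI
      rw [Finset.sum_mul]
      refine Finset.sum_le_sum fun p hpI => ?_
      obtain ⟨hp1, hp2, hp3⟩ := mem_IP hpI
      have hp0 : (1 : ℝ) < p := by exact_mod_cast hp1.one_lt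
      have h3 : Real.log p ≤ (x + v) * Real.log T := by
        have h4 : Real.log (T ^ (x + v)) = (x + v) * Real.log T := Real.log_rpow (by linarith) _
        rw [← h4]
        exact Real.log_le_log (by linarith) hp3
      have h5 := ih hes hp.2 (c - Real.log p) (by linarith)
      have h6 : (1 : ℝ) / p ≤ 1 / (p - 1) := one_div_le_one_div_of_le (by linarith) (by linarith)
      calc (1 / (p : ℝ)) * Sm W R (c - Real.log p) (FL B a b v T es) ≤ (1 / (p : ℝ)) * (M * P) :=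
            mul_le_mul_of_nonneg_left h5 (by positivity)
        _ ≤ 1 / ((p : ℝ) - 1) * (M * P) := mul_le_mul_of_nonneg_right h6 (by positivity)
    calc a x * Sm W R c (FL B a b v T es) +
          b x * ∑ p ∈ IP x v T, (1 / (p : ℝ)) * Sm W R (c - Real.log p) (FL B a b v T es)
        ≤ a x * (M * P) + b x * (cI (IP x v T) * (M * P)) :=
          add_le_add (mul_le_mul_of_nonneg_left h1 hx.2.1) (mul_le_mul_of_nonneg_left h2 hx.2.2.1)
      _ = M * ((a x + b x * cI (IP x v T)) * P) := by ring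

/-- `c_r(0) = φ(r)` -/
lemma cr_zero {r : ℕ} (hr : 1 ≤ r) : cr r 0 = (Nat.totient r : ℝ) := by
  have h1 := (ArithmeticFunction.sum_eq_iff_sum_mul_moebius_eq (R := ℝ) (f := fun n => (Nat.totient n : ℝ))
    (g := fun n => (n : ℝ))).1 (fun n _ => by
      have := Nat.sum_totient n
      exact_mod_cast this) r (by omega)
  rw [← h1]
  unfold cr
  rw [Nat.sum_divisorsAntidiagonal' (f := fun x y => ((ArithmeticFunction.moebius x : ℤ) : ℝ) * (y : ℝ))]
  refine Finset.sum_congr rfl fun d _ => ?_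
  rw [if_pos (dvd_zero _)]
  ring

lemma lamR_eq_sqf (B : ℕ) (n : ℤ) :
    lamR B n = ∑ r ∈ (Finset.Icc 1 B).filter Squarefree, mf r * cr r n := by
  unfold lamR
  rw [Finset.sum_filter]
  refine Finset.sum_congr rfl fun r _ => ?_
  split_ifs with h
  · rfl
  · unfold mf
    rw [ArithmeticFunction.moebius_eq_zero_of_not_squarefree h]
    simp

lemma mf_sq {r : ℕ} (h : Squarefree r) : mf r ^ 2 = 1 / (Nat.totient r : ℝ) ^ 2 := by
  unfold mf
  have h1 := ArithmeticFunction.moebius_sq_eq_one_of_squarefree h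
  have h2 : ((ArithmeticFunction.moebius r : ℤ) : ℝ) ^ 2 = 1 := by exact_mod_cast h1
  rw [div_pow, h2]

lemma abs_mf {r : ℕ} (h : Squarefree r) : |mf r| = 1 / (Nat.totient r : ℝ) := by
  have h1 := mf_sq h
  have h3 : |mf r| ^ 2 = (1 / (Nat.totient r : ℝ)) ^ 2 := by
    rw [sq_abs, h1]
    ring
  have h2 : (0 : ℝ) ≤ 1 / (Nat.totient r : ℝ) := by positivity
  rw [← abs_of_nonneg h2]
  exact (sq_eq_sq_iff_abs_eq_abs _ _).1 (by rw [h1]; ring)

/-- mean square of `Λ_B` -/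
lemma lam_sum (hco : Stmt_corr) (B N : ℕ) : |∑ n ∈ Finset.Icc 1 N, lamR B (n : ℤ) ^ 2 - GG 1 B * N| ≤
    2 * (∑ r ∈ (Finset.Icc 1 B).filter Squarefree,
      ((ArithmeticFunction.sigma 1 r : ℕ) : ℝ) / Nat.totient r) ^ 2 := by
  set S := (Finset.Icc 1 B).filter Squarefree with hS
  have hSm : ∀ r ∈ S, 1 ≤ r ∧ Squarefree r := by
    intro r hr
    rw [hS, Finset.mem_filter, Finset.mem_Icc] at hr
    exact ⟨hr.1.1, hr.2⟩
  have hI : Finset.Icc 1 N = Finset.Ioc 0 N := by ext; simp [Nat.succ_le_iff]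
  have h1 : ∑ n ∈ Finset.Icc 1 N, lamR B (n : ℤ) ^ 2 =
      ∑ r ∈ S, ∑ r' ∈ S, mf r * mf r' * ∑ n ∈ Finset.Ioc 0 N, cr r n * cr r' ((n : ℤ) + 0) := by
    rw [hI]
    have : ∀ n : ℕ, lamR B (n : ℤ) ^ 2 = ∑ r ∈ S, ∑ r' ∈ S, mf r * mf r' * (cr r n * cr r' ((n : ℤ) + 0)) := by
      intro n
      rw [lamR_eq_sqf, ← hS, pow_two, Finset.sum_mul_sum]
      refine Finset.sum_congr rfl fun r _ => Finset.sum_congr rfl fun r' _ => ?_
      rw [add_zero]
      ring
    simp_rw [this]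
    rw [Finset.sum_comm]
    refine Finset.sum_congr rfl fun r _ => ?_
    rw [Finset.sum_comm]
    refine Finset.sum_congr rfl fun r' _ => ?_
    rw [Finset.mul_sum]
  have h2 : GG 1 B * N = ∑ r ∈ S, ∑ r' ∈ S, mf r * mf r' * ((if r = r' then cr r 0 else 0) * ((N : ℝ) - (0 : ℕ))) := by
    have e1 : ∀ r ∈ S, ∑ r' ∈ S, mf r * mf r' * ((if r = r' then cr r 0 else 0) * ((N : ℝ) - (0 : ℕ))) =
        1 / (Nat.totient r : ℝ) * N := by
      intro r hr
      rw [Finset.sum_eq_single_of_mem r hr]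
      · rw [if_pos rfl, cr_zero (hSm r hr).1, Nat.cast_zero, sub_zero]
        have h3 := mf_sq (hSm r hr).2
        have h4 : (0 : ℝ) < Nat.totient r := by
          exact_mod_cast Nat.totient_pos.2 (hSm r hr).1
        rw [show mf r * mf r * ((Nat.totient r : ℝ) * N) = mf r ^ 2 * (Nat.totient r : ℝ) * N by ring, h3]
        field_simp
      · intro r' _ hne
        rw [if_neg (Ne.symm hne)]
        ring
    rw [Finset.sum_congr rfl e1, ← Finset.sum_mul]
    congr 1
    unfold GG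
    refine Finset.sum_congr ?_ fun _ _ => rfl
    ext r
    simp [hS]
  rw [h1, h2, ← Finset.sum_sub_distrib]
  refine (Finset.abs_sum_le_sum_abs _ _).trans ?_
  have h3 : ∀ r ∈ S, |∑ r' ∈ S, mf r * mf r' * ∑ n ∈ Finset.Ioc 0 N, cr r n * cr r' ((n : ℤ) + 0) -
      ∑ r' ∈ S, mf r * mf r' * ((if r = r' then cr r 0 else 0) * ((N : ℝ) - (0 : ℕ)))| ≤
      ∑ r' ∈ S, 2 * ((((ArithmeticFunction.sigma 1 r : ℕ) : ℝ) / Nat.totient r) *
        (((ArithmeticFunction.sigma 1 r' : ℕ) : ℝ) / Nat.totient r')) := by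
    intro r hr
    rw [← Finset.sum_sub_distrib]
    refine (Finset.abs_sum_le_sum_abs _ _).trans (Finset.sum_le_sum fun r' hr' => ?_)
    rw [← mul_sub, abs_mul, abs_mul, abs_mf (hSm r hr).2, abs_mf (hSm r' hr').2]
    have h4 := hco (hSm r hr).2 (hSm r' hr').2 0 (Nat.zero_le N)
    calc _ ≤ 1 / (Nat.totient r : ℝ) * (1 / (Nat.totient r' : ℝ)) *
          (2 * ((ArithmeticFunction.sigma 1 r : ℕ) : ℝ) * ((ArithmeticFunction.sigma 1 r' : ℕ) : ℝ)) :=
          mul_le_mul_of_nonneg_left h4 (by positivity)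
      _ = _ := by ring
  refine (Finset.sum_le_sum h3).trans (le_of_eq ?_)
  rw [pow_two, Finset.sum_mul_sum, Finset.mul_sum]
  refine Finset.sum_congr rfl fun r _ => ?_
  rw [Finset.mul_sum]

lemma GG_nonneg (q R : ℕ) : 0 ≤ GG q R := Finset.sum_nonneg fun r _ => by positivity

lemma GG_le_card (q R : ℕ) : GG q R ≤ R := by
  unfold GG
  calc _ ≤ ∑ r ∈ (Finset.Icc 1 R).filter (fun r => Squarefree r ∧ Nat.Coprime r q), (1 : ℝ) := by
        refine Finset.sum_le_sum fun r hr => ?_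
        rw [Finset.mem_filter, Finset.mem_Icc] at hr
        have : 1 ≤ Nat.totient r := Nat.totient_pos.2 hr.1.1
        have : (1 : ℝ) ≤ Nat.totient r := by exact_mod_cast this
        rw [div_le_one (by linarith)]
        exact this
    _ = (((Finset.Icc 1 R).filter (fun r => Squarefree r ∧ Nat.Coprime r q)).card : ℝ) := by simp
    _ ≤ ((Finset.Icc 1 R).card : ℝ) := by exact_mod_cast Finset.card_filter_le _ _
    _ = R := by simp

lemma cI_le {e v T : ℝ} (hT : 1 ≤ T) (h : 0 ≤ e + v) : cI (IP e v T) ≤ 2 * (1 + (e + v) * Real.log T) := by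
  have hTe : 1 ≤ T ^ (e + v) := Real.one_le_rpow hT h
  have h1 : cI (IP e v T) ≤ 2 * ∑ m ∈ Finset.Icc 1 ⌊T ^ (e + v)⌋₊, (1 : ℝ) / m := by
    unfold cI
    rw [Finset.mul_sum]
    calc ∑ p ∈ IP e v T, 1 / ((p : ℝ) - 1) ≤ ∑ p ∈ IP e v T, 2 * (1 / (p : ℝ)) := by
          refine Finset.sum_le_sum fun p hp => ?_
          have h2 : (2 : ℝ) ≤ p := by exact_mod_cast (mem_IP hp).1.two_le
          rw [mul_one_div, div_le_div_iff₀ (by linarith) (by linarith)]
          linarith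
      _ ≤ _ := by
          refine Finset.sum_le_sum_of_subset_of_nonneg ?_ (fun m _ _ => by positivity)
          unfold IP
          exact Finset.filter_subset _ _
  have h2 : ∑ m ∈ Finset.Icc 1 ⌊T ^ (e + v)⌋₊, (1 : ℝ) / m ≤ 1 + Real.log ⌊T ^ (e + v)⌋₊ := by
    have := harmonic_le_one_add_log ⌊T ^ (e + v)⌋₊
    refine le_trans (le_of_eq ?_) this
    rw [harmonic_eq_sum_Icc]
    push_cast
    refine Finset.sum_congr rfl fun m _ => ?_
    rw [one_div]
  have h3 : Real.log ⌊T ^ (e + v)⌋₊ ≤ (e + v) * Real.log T := by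
    rw [← Real.log_rpow (by linarith)]
    refine Real.log_le_log ?_ (Nat.floor_le (by linarith))
    have : 1 ≤ ⌊T ^ (e + v)⌋₊ := Nat.le_floor (by simpa using hTe)
    exact_mod_cast this
  linarith

lemma prod_sq_le {f g : ℝ → ℝ} : ∀ es : List ℝ, (∀ x ∈ es, f x ^ 2 ≤ g x) →
    (es.map f).prod ^ 2 ≤ (es.map g).prod := by
  intro es
  induction es with
  | nil => intro _; simp
  | cons x es ih =>
    intro h
    rw [List.map_cons, List.map_cons, List.prod_cons, List.prod_cons, mul_pow]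
    have h1 := h x List.mem_cons_self
    have h2 := ih fun y hy => h y (List.mem_cons_of_mem x hy)
    exact mul_le_mul h1 h2 (sq_nonneg _) ((sq_nonneg _).trans h1)

lemma prod_le_pow {g : ℝ → ℝ} {Q : ℝ} : ∀ es : List ℝ, (∀ x ∈ es, 0 ≤ g x ∧ g x ≤ Q) →
    (es.map g).prod ≤ Q ^ es.length := by
  intro es
  induction es with
  | nil => intro _; simp
  | cons x es ih =>
    intro h
    rw [List.map_cons, List.prod_cons, List.length_cons, pow_succ, mul_comm (Q ^ es.length)]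
    have h1 := h x List.mem_cons_self
    have h2 := ih fun y hy => h y (List.mem_cons_of_mem x hy)
    refine mul_le_mul h1.2 h2 ?_ (h1.1.trans h1.2)
    refine List.prod_nonneg fun z hz => ?_
    rw [List.mem_map] at hz
    obtain ⟨y, hy, rfl⟩ := hz
    exact (h y (List.mem_cons_of_mem x hy)).1

lemma small_power {K ε : ℝ} (hε : 0 < ε) (m : ℕ) :
    ∀ᶠ T : ℝ in atTop, K * ((1 + Real.log T) ^ m * T ^ (-(1 / 10) : ℝ)) ≤ ε := by
  set θ : ℝ := 1 / (20 * (m + 1)) with hθ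
  have hm : (0 : ℝ) < m + 1 := by positivity
  have hθ0 : 0 < θ := by positivity
  have h1 : ∀ᶠ T : ℝ in atTop, |K| * (1 + 1 / θ) ^ m * T ^ (-(1 / 20) : ℝ) ≤ ε := by
    have h2 : Tendsto (fun T : ℝ => |K| * (1 + 1 / θ) ^ m * T ^ (-(1 / 20) : ℝ)) atTop
        (𝓝 (|K| * (1 + 1 / θ) ^ m * 0)) := (tendsto_rpow_neg_atTop (by norm_num)).const_mul _
    rw [mul_zero] at h2
    exact (h2.eventually (gt_mem_nhds hε)).mono fun T h => h.le
  filter_upwards [h1, eventually_ge_atTop (1 : ℝ)] with T hT hT1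
  have hT0 : (0 : ℝ) ≤ T := by linarith
  have hl : 0 ≤ Real.log T := Real.log_nonneg hT1
  have h3 : 1 + Real.log T ≤ (1 + 1 / θ) * T ^ θ := by
    have h4 := Real.log_le_rpow_div hT0 hθ0
    have h5 : 1 ≤ T ^ θ := Real.one_le_rpow hT1 hθ0.le
    calc 1 + Real.log T ≤ T ^ θ + T ^ θ / θ := add_le_add h5 h4
      _ = _ := by ring
  have h6 : (1 + Real.log T) ^ m ≤ (1 + 1 / θ) ^ m * T ^ (1 / 20 : ℝ) := by
    calc (1 + Real.log T) ^ m ≤ ((1 + 1 / θ) * T ^ θ) ^ m := pow_le_pow_left₀ (by linarith) h3 m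
      _ = (1 + 1 / θ) ^ m * (T ^ θ) ^ m := mul_pow _ _ _
      _ ≤ (1 + 1 / θ) ^ m * T ^ (1 / 20 : ℝ) := by
          refine mul_le_mul_of_nonneg_left ?_ (by positivity)
          rw [← Real.rpow_natCast (T ^ θ) m, ← Real.rpow_mul hT0]
          refine Real.rpow_le_rpow_of_exponent_le hT1 ?_
          rw [hθ, div_mul_eq_mul_div, one_mul, div_le_div_iff₀ (by positivity) (by norm_num)]
          linarith
  calc K * ((1 + Real.log T) ^ m * T ^ (-(1 / 10) : ℝ)) ≤ |K| * ((1 + Real.log T) ^ m * T ^ (-(1 / 10) : ℝ)) :=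
        mul_le_mul_of_nonneg_right (le_abs_self K) (by positivity)
    _ ≤ |K| * (((1 + 1 / θ) ^ m * T ^ (1 / 20 : ℝ)) * T ^ (-(1 / 10) : ℝ)) := by
        refine mul_le_mul_of_nonneg_left (mul_le_mul_of_nonneg_right h6 (by positivity)) (abs_nonneg _)
    _ = |K| * (1 + 1 / θ) ^ m * (T ^ (1 / 20 : ℝ) * T ^ (-(1 / 10) : ℝ)) := by ring
    _ = |K| * (1 + 1 / θ) ^ m * T ^ (-(1 / 20) : ℝ) := by
        rw [← Real.rpow_add (by linarith)]
        norm_num
    _ ≤ ε := hT

end K0bAux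

open K0bAux in
theorem K0b (hSS : Stmt_Sm_of_sum) (hSD : Stmt_Sm_dvd) (hco : Stmt_corr) (hsp : Stmt_sig_phi) : Stmt_K0b := by
  intro es v c3 D s ε hE hε W R hW hR
  obtain ⟨C1, hC1, h1⟩ := hSS hW hR
  obtain ⟨C2, hC2, h2⟩ := hsp
  -- the exponents
  have hxs : ∀ x ∈ es, x ≤ es.sum := fun x hx => List.single_le_sum (fun y hy => hE.D0.le.trans (hE.ge y hy)) x hx
  obtain ⟨x0, hx0⟩ : ∃ x, x ∈ es := List.exists_mem_of_ne_nil es hE.ne
  have hlen : 0 ≤ (es.length : ℝ) * v := mul_nonneg (by positivity) hE.v0.le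
  have hD : D ≤ 4 / 7 := by
    have a1 := hE.ge x0 hx0
    have a2 := hxs x0 hx0
    have a3 := hE.sum
    have a4 := hE.small
    have a5 := hE.c0
    linarith
  have hc3 : c3 ≤ 1 / 14 := by linarith [hE.small, hE.s0]
  have hc3D : c3 < D := by linarith [hE.small, hE.s0, hE.D0]
  have hv1 : v ≤ 1 / 14 := by
    have a1 : (1 : ℝ) ≤ es.length := by
      have : 1 ≤ es.length := List.length_pos_iff.2 hE.ne
      exact_mod_cast this
    have a2 : v ≤ es.length * v := by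
      have := mul_le_mul_of_nonneg_right a1 hE.v0.le
      linarith
    linarith [hE.small, hE.s0, hE.c0]
  have hsum1 : es.sum ≤ 1 := by linarith [hE.sum, hE.small, hE.c0]
  set m : ℕ := 8 + 2 * es.length with hm
  set K1 : ℝ := (4 * (4 + 8 / D)) ^ es.length with hK1
  have hI0 : 0 ≤ ∫ y, W y ^ 2 := integral_nonneg fun y => by positivity
  filter_upwards [small_power (K := C1 * (2 * C2 ^ 2 + 1) * K1) hε m, eventually_ge_atTop (Real.exp 1),
    eventually_ge_atTop (Real.exp (4 * R))] with T hT1 hT2 hT3 c hc1 hc2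
  have hT0 : 0 < T := (Real.exp_pos 1).trans_le hT2
  have hlT : 1 ≤ Real.log T := by rwa [Real.le_log_iff_exp_le hT0]
  have hlT4 : 4 * R ≤ Real.log T := by rwa [Real.le_log_iff_exp_le hT0]
  have hT1' : 1 ≤ T := by
    have := Real.add_one_le_exp (1 : ℝ)
    linarith
  have hT1'' : 1 < T := by
    have := Real.add_one_le_exp (1 : ℝ)
    linarith
  set L := Real.log T with hL
  set B := ⌊T ^ c3⌋₊ with hB
  have hBT : (B : ℝ) ≤ T ^ c3 := Nat.floor_le (by positivity)
  have hB1 : 1 ≤ B := Nat.le_floor (by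
    rw [Nat.cast_one]
    exact Real.one_le_rpow hT1' hE.c0.le)
  have hB1' : (1 : ℝ) ≤ B := by exact_mod_cast hB1
  have hlB : Real.log B ≤ L := by
    calc Real.log B ≤ Real.log (T ^ c3) := Real.log_le_log (by linarith) hBT
      _ = c3 * L := Real.log_rpow hT0 _
      _ ≤ 1 * L := mul_le_mul_of_nonneg_right (by linarith) (by linarith)
      _ = L := one_mul L
  -- the base
  set E : ℝ := 2 * (∑ r ∈ (Finset.Icc 1 B).filter Squarefree,
      ((ArithmeticFunction.sigma 1 r : ℕ) : ℝ) / Nat.totient r) ^ 2 with hEE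
  have hE0 : 0 ≤ E := by positivity
  have hEle : E ≤ 2 * C2 ^ 2 * (T ^ (2 * c3) * (1 + L) ^ 8) := by
    have a1 := h2 B hB1
    have a2 : 0 ≤ ∑ r ∈ (Finset.Icc 1 B).filter Squarefree,
      ((ArithmeticFunction.sigma 1 r : ℕ) : ℝ) / Nat.totient r := Finset.sum_nonneg fun r _ => by positivity
    have hlB0 : 0 ≤ Real.log B := Real.log_nonneg hB1'
    have a3 : C2 * B * (1 + Real.log B) ^ 4 ≤ C2 * T ^ c3 * (1 + L) ^ 4 := by
      gcongr
    have a4 := pow_le_pow_left₀ a2 (a1.trans a3) 2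
    have a5 : T ^ (2 * c3) = (T ^ c3) ^ 2 := by
      rw [← Real.rpow_natCast (T ^ c3) 2, ← Real.rpow_mul hT0.le]
      congr 1
      push_cast
      ring
    rw [hEE, a5]
    calc 2 * _ ^ 2 ≤ 2 * (C2 * T ^ c3 * (1 + L) ^ 4) ^ 2 := by linarith
      _ = _ := by ring
  set δ : ℝ := C1 * (E + GG 1 B) * T ^ (-(1 / 4) : ℝ) with hδ
  have hGG0 := GG_nonneg 1 B
  have hδ0 : 0 ≤ δ := by positivity
  have hbase : ∀ c' : ℝ, 1 / 4 * L ≤ c' → Sm W R c' (fun n => lamR B n ^ 2) ≤ (∫ y, W y ^ 2) * GG 1 B + δ := by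
    intro c' hc'
    have a1 := h1 c' (fun n => lamR B n ^ 2) (GG 1 B) E hE0 (by linarith) (fun N => lam_sum hco B N)
    rw [abs_of_nonneg hGG0] at a1
    have a2 : Real.exp (-c') ≤ T ^ (-(1 / 4) : ℝ) := by
      rw [Real.rpow_def_of_pos hT0]
      refine Real.exp_le_exp.2 ?_
      rw [← hL]
      linarith
    have a3 : C1 * (E + GG 1 B) * Real.exp (-c') ≤ δ := by
      rw [hδ]
      exact mul_le_mul_of_nonneg_left a2 (by positivity)
    have a4 := (abs_le.1 a1).2
    linarith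
  set M : ℝ := (∫ y, W y ^ 2) * GG 1 B + δ with hM
  have hM0 : 0 ≤ M := by positivity
  -- the induction
  have hind := FL_le hSD hW (a := fun x => cI (IP x v T) ^ 2) (b := fun x => 8 / x) hT1' hE.v0.le hM0 hbase es
    (fun x hx => by
      have hx1 := hE.ge x hx
      have hx2 : 0 < x := hE.D0.trans_le hx1
      refine ⟨hx2.le, by positivity, by positivity, ?_⟩
      exact hBT.trans_lt (Real.rpow_lt_rpow_of_exponent_lt hT1'' (by linarith))) hE.chain c (by
      have a1 : 1 / 4 + (es.sum + es.length * v) ≤ 1 := by linarith [hE.sum, hE.small, hE.c0]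
      have a2 := mul_le_mul_of_nonneg_right a1 (by linarith : 0 ≤ L)
      linarith)
  -- the majorant
  have hmaj : Sm W R c (fun n => b2 c3 es v T n ^ 2) ≤ Sm W R c (FL B (fun x => cI (IP x v T) ^ 2) (fun x => 8 / x) v T es) := by
    refine Sm_mono fun n hn1 hn2 => ?_
    unfold b2 bb FL IL
    rw [← hB, mul_pow, List.map_map]
    refine mul_le_mul_of_nonneg_left ?_ (sq_nonneg _)
    refine prod_sq_le es fun x hx => ?_
    have hx1 := hE.ge x hx
    have hx2 : 0 < x := hE.D0.trans_le hx1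
    have hIp : ∀ q ∈ IP x v T, q.Prime := fun q hq => (mem_IP hq).1
    have a0 : Real.log n ≤ 2 / x * (x * Real.log T) := by
      have e1 : 2 / x * (x * Real.log T) = 2 * L := by
        rw [← hL]
        field_simp
      rw [e1]
      have e2 : Real.log n ≤ c + R := by
        rw [Real.log_le_iff_le_exp (by exact_mod_cast hn1)]
        exact hn2
      linarith
    have a1 := kI_le (v := v) hT1'' hx2 hn1 a0
    have a2 := kI_nonneg (IP x v T) n
    have a3 := omI_le hIp n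
    have a4 := omI_nonneg hIp n
    have a5 := cI_nonneg hIp
    have a6 : omI (IP x v T) n ^ 2 ≤ 8 / x * kI (IP x v T) n := by
      calc omI (IP x v T) n ^ 2 ≤ (2 * kI (IP x v T) n) ^ 2 := pow_le_pow_left₀ a4 a3 2
        _ = 4 * (kI (IP x v T) n * kI (IP x v T) n) := by ring
        _ ≤ 4 * (2 / x * kI (IP x v T) n) := by
            have := mul_le_mul_of_nonneg_right a1 a2
            linarith
        _ = _ := by ring
    show (cI (IP x v T) - omI (IP x v T) n) ^ 2 ≤ cI (IP x v T) ^ 2 + 8 / x * kI (IP x v T) n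
    have a7 := mul_nonneg a5 a4
    have a8 : (cI (IP x v T) - omI (IP x v T) n) ^ 2 =
      cI (IP x v T) ^ 2 - 2 * (cI (IP x v T) * omI (IP x v T) n) + omI (IP x v T) n ^ 2 := by ring
    linarith
  have hprod : (es.map fun x => cI (IP x v T) ^ 2 + 8 / x * cI (IP x v T)) =
      es.map fun x => cI (IP x v T) * (cI (IP x v T) + 8 / x) := by
    refine List.map_congr_left fun x _ => ?_
    ring
  rw [hprod] at hind
  set P := (es.map fun x => cI (IP x v T) * (cI (IP x v T) + 8 / x)).prod with hP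
  have hPle : P ≤ (4 * (4 + 8 / D) * (1 + L) ^ 2) ^ es.length := by
    refine prod_le_pow es fun x hx => ?_
    have hx1 := hE.ge x hx
    have hx2 : 0 < x := hE.D0.trans_le hx1
    have hIp : ∀ q ∈ IP x v T, q.Prime := fun q hq => (mem_IP hq).1
    have a5 := cI_nonneg hIp
    have a6 := cI_le (e := x) (v := v) hT1' (by linarith [hE.v0])
    have a7 : x + v ≤ 2 := by linarith [hxs x hx]
    have a8 : (x + v) * Real.log T ≤ 2 * L := mul_le_mul_of_nonneg_right a7 (by linarith)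
    have a9 : cI (IP x v T) ≤ 4 * (1 + L) := by linarith
    have a10 : 8 / x ≤ 8 / D := by
      exact div_le_div_of_nonneg_left (by norm_num) hE.D0 hx1
    have a11 : 0 ≤ 8 / x := by positivity
    refine ⟨by positivity, ?_⟩
    calc cI (IP x v T) * (cI (IP x v T) + 8 / x) ≤ (4 * (1 + L)) * (4 * (1 + L) + 8 / D) := by
          refine mul_le_mul a9 (by linarith) (by positivity) (by linarith)
      _ ≤ (4 * (1 + L)) * (4 * (1 + L) + 8 / D * (1 + L)) := by
          have b1 : 0 ≤ 8 / D := by have := hE.D0; positivity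
          have b2 : 8 / D * 1 ≤ 8 / D * (1 + L) := mul_le_mul_of_nonneg_left (by linarith) b1
          refine mul_le_mul_of_nonneg_left (by linarith) (by linarith)
      _ = _ := by ring
  have hP0 : 0 ≤ P := by
    rw [hP]
    refine List.prod_nonneg fun z hz => ?_
    rw [List.mem_map] at hz
    obtain ⟨y, hy, rfl⟩ := hz
    have hy2 : 0 < y := hE.D0.trans_le (hE.ge y hy)
    have a5 := cI_nonneg (I := IP y v T) (fun q hq => (mem_IP hq).1)
    positivity
  have hδle : δ * P ≤ ε * L := by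
    have a1 : δ ≤ C1 * (2 * C2 ^ 2 + 1) * ((1 + L) ^ 8 * T ^ (-(1 / 10) : ℝ)) := by
      have b1 : GG 1 B ≤ T ^ (2 * c3) * (1 + L) ^ 8 := by
        have b2 : (1 : ℝ) ≤ (1 + L) ^ 8 := one_le_pow₀ (by linarith)
        have b3 : T ^ c3 ≤ T ^ (2 * c3) := Real.rpow_le_rpow_of_exponent_le hT1' (by linarith [hE.c0])
        calc GG 1 B ≤ B := GG_le_card 1 B
          _ ≤ T ^ (2 * c3) := hBT.trans b3
          _ = T ^ (2 * c3) * 1 := (mul_one _).symm
          _ ≤ _ := mul_le_mul_of_nonneg_left b2 (by positivity)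
      have b4 : T ^ (2 * c3) * T ^ (-(1 / 4) : ℝ) ≤ T ^ (-(1 / 10) : ℝ) := by
        rw [← Real.rpow_add hT0]
        exact Real.rpow_le_rpow_of_exponent_le hT1' (by linarith)
      calc δ = C1 * (E + GG 1 B) * T ^ (-(1 / 4) : ℝ) := hδ
        _ ≤ C1 * (2 * C2 ^ 2 * (T ^ (2 * c3) * (1 + L) ^ 8) + T ^ (2 * c3) * (1 + L) ^ 8) * T ^ (-(1 / 4) : ℝ) := by
            gcongr
        _ = C1 * (2 * C2 ^ 2 + 1) * ((1 + L) ^ 8 * (T ^ (2 * c3) * T ^ (-(1 / 4) : ℝ))) := by ring
        _ ≤ _ := by gcongr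
    calc δ * P ≤ (C1 * (2 * C2 ^ 2 + 1) * ((1 + L) ^ 8 * T ^ (-(1 / 10) : ℝ))) *
          (4 * (4 + 8 / D) * (1 + L) ^ 2) ^ es.length :=
          mul_le_mul a1 hPle hP0 (hδ0.trans a1)
      _ = C1 * (2 * C2 ^ 2 + 1) * K1 * ((1 + L) ^ m * T ^ (-(1 / 10) : ℝ)) := by
          rw [mul_pow (4 * (4 + 8 / D)), ← pow_mul, hm, pow_add, ← hK1]
          ring
      _ ≤ ε := hT1
      _ = ε * 1 := (mul_one _).symm
      _ ≤ ε * L := mul_le_mul_of_nonneg_left hlT hε.le
  calc Sm W R c (fun n => b2 c3 es v T n ^ 2) ≤ M * P := hmaj.trans hind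
    _ = (∫ y, W y ^ 2) * (GG 1 B * P) + δ * P := by rw [hM]; ring
    _ ≤ _ := by linarith

end Pool.Agent.AP
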