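import Pool.Agent.Helper57.BG.Basic

/-!
# The phases `e(c n̄ / V)`
-/

set_option autoImplicit false

namespace Pool.Agent.Helper8.AP

open Pool.Agent.Helper57.BG (ph kl)

/-- `e(a / V)` -/
noncomputable def ez (V : ℕ) (a : ℤ) : ℂ :=
  Complex.exp (2 * Real.pi * Complex.I * (a : ℂ) / (V : ℂ))

lemma ez_eq_ee (V : ℕ) (a : ℤ) : ez V a = Pool.Agent.Helper57.BG.ee ((a : ℝ) / (V : ℝ)) := by
  unfold ez Pool.Agent.Helper57.BG.ee
  congr 1
  push_cast
  ring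

lemma ph_eq_ez (V : ℕ) (c n : ℤ) : ph V c n = ez V (c * (((n : ZMod V)⁻¹).val : ℤ)) := rfl

lemma ez_eq_std (V : ℕ) [NeZero V] (a : ℤ) : ez V a = ZMod.stdAddChar (a : ZMod V) := by
  rw [ZMod.stdAddChar_coe]
  rfl

lemma ph_eq_std (V : ℕ) [NeZero V] (c n : ℤ) :
    ph V c n = ZMod.stdAddChar ((c : ZMod V) * (n : ZMod V)⁻¹) := by
  rw [ph_eq_ez, ez_eq_std]
  congr 1
  push_cast
  rw [ZMod.natCast_zmod_val]

lemma norm_std {V : ℕ} [NeZero V] (z : ZMod V) : ‖(ZMod.stdAddChar z : ℂ)‖ = 1 := by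
  rw [ZMod.stdAddChar_apply]
  exact Circle.norm_coe _

lemma ez_zero_left (a : ℤ) : ez 0 a = 1 := by
  unfold ez
  simp

lemma norm_ez (V : ℕ) (a : ℤ) : ‖ez V a‖ = 1 := by
  rcases Nat.eq_zero_or_pos V with h | h
  · subst h
    rw [ez_zero_left]
    simp
  · have : NeZero V := ⟨h.ne'⟩
    rw [ez_eq_std]
    exact norm_std _

lemma norm_ph (V : ℕ) (c n : ℤ) : ‖ph V c n‖ = 1 := norm_ez _ _

lemma ez_add (V : ℕ) (a b : ℤ) : ez V (a + b) = ez V a * ez V b := by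
  unfold ez
  rw [← Complex.exp_add]
  congr 1
  push_cast
  ring

lemma ez_zero (V : ℕ) : ez V 0 = 1 := by
  unfold ez
  simp

lemma ez_neg (V : ℕ) (a : ℤ) : ez V (-a) = (starRingEnd ℂ) (ez V a) := by
  unfold ez
  rw [← Complex.exp_conj]
  congr 1
  simp only [map_div₀, map_mul, Complex.conj_I, Complex.conj_ofReal, map_intCast, map_natCast,
    map_ofNat]
  push_cast
  ring

lemma ez_congr {V : ℕ} {a b : ℤ} (h : a ≡ b [ZMOD V]) : ez V a = ez V b := by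
  rcases Nat.eq_zero_or_pos V with h0 | h0
  · subst h0
    rw [ez_zero_left, ez_zero_left]
  · have : NeZero V := ⟨h0.ne'⟩
    rw [ez_eq_std, ez_eq_std, (ZMod.intCast_eq_intCast_iff a b V).2 h]

lemma ph_congr {V : ℕ} {c c' n n' : ℤ} (hc : c ≡ c' [ZMOD V]) (hn : n ≡ n' [ZMOD V]) :
    ph V c n = ph V c' n' := by
  rcases Nat.eq_zero_or_pos V with h0 | h0
  · subst h0
    rw [ph_eq_ez, ph_eq_ez, ez_zero_left, ez_zero_left]
  · have : NeZero V := ⟨h0.ne'⟩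
    rw [ph_eq_std, ph_eq_std, (ZMod.intCast_eq_intCast_iff c c' V).2 hc,
      (ZMod.intCast_eq_intCast_iff n n' V).2 hn]

lemma ph_add (V : ℕ) (c c' n : ℤ) : ph V (c + c') n = ph V c n * ph V c' n := by
  rw [ph_eq_ez, ph_eq_ez, ph_eq_ez, ← ez_add]
  congr 1
  ring

lemma ph_zero (V : ℕ) (n : ℤ) : ph V 0 n = 1 := by
  rw [ph_eq_ez, zero_mul, ez_zero]

lemma ph_neg (V : ℕ) (c n : ℤ) : ph V (-c) n = (starRingEnd ℂ) (ph V c n) := by
  rw [ph_eq_ez, ph_eq_ez, ← ez_neg]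
  congr 1
  ring

/-- the inverse can be computed with any representative -/
lemma ph_inv {V : ℕ} {c n x : ℤ} (h : n * x ≡ 1 [ZMOD V]) : ph V c n = ez V (c * x) := by
  rcases Nat.eq_zero_or_pos V with h0 | h0
  · subst h0
    rw [ph_eq_ez, ez_zero_left, ez_zero_left]
  · have : NeZero V := ⟨h0.ne'⟩
    rw [ph_eq_std, ez_eq_std]
    have h1 : (n : ZMod V) * (x : ZMod V) = 1 := by
      have := (ZMod.intCast_eq_intCast_iff (n * x) 1 V).2 h
      push_cast at this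
      exact this
    rw [ZMod.inv_eq_of_mul_eq_one V _ _ h1]
    push_cast
    rfl

lemma exists_inv {V : ℕ} {n : ℤ} (h : IsCoprime n V) : ∃ x : ℤ, n * x ≡ 1 [ZMOD V] := by
  obtain ⟨u, v, huv⟩ := h
  refine ⟨u, ?_⟩
  rw [Int.modEq_iff_dvd]
  exact ⟨v, by linear_combination -huv⟩

/-- change of modulus -/
lemma ez_mul_left (V w : ℕ) (hw : w ≠ 0) (a : ℤ) : ez (V * w) (a * w) = ez V a := by
  unfold ez
  congr 1
  push_cast
  rcases Nat.eq_zero_or_pos V with h0 | h0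
  · subst h0
    simp
  · have h1 : (V : ℂ) ≠ 0 := by exact_mod_cast h0.ne'
    have h2 : (w : ℂ) ≠ 0 := by exact_mod_cast hw
    field_simp

/-- a phase to a multiple of the modulus -/
lemma ph_mul_left {V w : ℕ} (hw : w ≠ 0) {c n : ℤ} (h : IsCoprime n (V * w : ℕ)) :
    ph V c n = ph (V * w) (c * w) n := by
  obtain ⟨x, hx⟩ := exists_inv h
  rw [ph_inv hx, ph_inv (hx.of_dvd (by push_cast; exact dvd_mul_right _ _)),
    ← ez_mul_left V w hw]
  congr 1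
  ring

/-- multiplication of the argument by a unit -/
lemma ph_mul_arg {V : ℕ} {c a n x : ℤ} (hx : a * x ≡ 1 [ZMOD V]) (hn : IsCoprime n V) :
    ph V c (a * n) = ph V (c * x) n := by
  obtain ⟨y, hy⟩ := exists_inv hn
  have h1 : (a * n) * (x * y) ≡ 1 [ZMOD V] := by
    have := hx.mul hy
    rw [one_mul] at this
    rwa [show a * n * (x * y) = a * x * (n * y) by ring]
  rw [ph_inv h1, ph_inv hy]
  congr 1
  ring

/-- the product of two phases in the second Cauchy inequality -/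
lemma ph_cross {V w₁ w₂ : ℕ} (h₁ : w₁ ≠ 0) (h₂ : w₂ ≠ 0) {c n : ℤ}
    (h : IsCoprime n (V * w₁ * w₂ : ℕ)) :
    ph (V * w₁) c n * (starRingEnd ℂ) (ph (V * w₂) c n) =
      ph (V * w₁ * w₂) (c * (w₂ - w₁)) n := by
  have h' : IsCoprime n (V * w₂ * w₁ : ℕ) := by
    rwa [show V * w₂ * w₁ = V * w₁ * w₂ by ring]
  rw [ph_mul_left h₂ h, ph_mul_left h₁ h', show V * w₂ * w₁ = V * w₁ * w₂ by ring, ← ph_neg,
    ← ph_add]
  congr 1
  ring

end Pool.Agent.Helper8.AP
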