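import Pool.Agent.Helper8.AP.Ph

/-!
# Kloosterman sums to squarefree moduli
-/

set_option autoImplicit false

namespace Pool.Agent.Helper8.AP

open Finset
open Pool.Agent.Helper57.BG (ph kl)

lemma std_orth {V : ℕ} [NeZero V] (b : ZMod V) :
    ∑ x : ZMod V, (ZMod.stdAddChar (x * b) : ℂ) = if b = 0 then (V : ℂ) else 0 := by
  have h := AddChar.sum_mulShift (R := ZMod V) (R' := ℂ) (ψ := ZMod.stdAddChar) b
    (ZMod.isPrimitive_stdAddChar V)
  rw [h]
  split_ifs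
  · rw [ZMod.card]
  · simp

lemma conj_std {V : ℕ} [NeZero V] (z : ZMod V) :
    (starRingEnd ℂ) (ZMod.stdAddChar z : ℂ) = ZMod.stdAddChar (-z) := by
  have h1 : (ZMod.stdAddChar z : ℂ) * ZMod.stdAddChar (-z) = 1 := by
    rw [← AddChar.map_add_eq_mul]
    simp
  have h2 : (ZMod.stdAddChar z : ℂ) * (starRingEnd ℂ) (ZMod.stdAddChar z : ℂ) = 1 := by
    rw [Complex.mul_conj, Complex.normSq_eq_norm_sq, norm_std]
    simp
  have h3 : (ZMod.stdAddChar z : ℂ) ≠ 0 := by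
    intro h
    rw [h, zero_mul] at h1
    exact zero_ne_one h1
  exact mul_left_cancel₀ h3 (h2.trans h1.symm)

/-- Parseval in two variables -/
lemma pars2 {V : ℕ} [NeZero V] {ι : Type} [Fintype ι] [DecidableEq ι] (f g : ι → ZMod V) :
    ∑ a : ZMod V, ∑ b : ZMod V, ‖∑ i, (ZMod.stdAddChar (a * f i + b * g i) : ℂ)‖ ^ 2 =
      (V : ℝ) ^ 2 * ((univ.filter fun x : ι × ι => f x.1 = f x.2 ∧ g x.1 = g x.2).card : ℝ) := by
  have h1 : ((∑ a : ZMod V, ∑ b : ZMod V,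
      ‖∑ i, (ZMod.stdAddChar (a * f i + b * g i) : ℂ)‖ ^ 2 : ℝ) : ℂ) =
      ∑ x : ι × ι, (∑ a : ZMod V, (ZMod.stdAddChar (a * (f x.1 - f x.2)) : ℂ)) *
        (∑ b : ZMod V, (ZMod.stdAddChar (b * (g x.1 - g x.2)) : ℂ)) := by
    push_cast
    have h2 : ∀ a b : ZMod V, ((‖∑ i, (ZMod.stdAddChar (a * f i + b * g i) : ℂ)‖ : ℝ) : ℂ) ^ 2 =
        ∑ x : ι × ι, (ZMod.stdAddChar (a * (f x.1 - f x.2)) : ℂ) *
          (ZMod.stdAddChar (b * (g x.1 - g x.2)) : ℂ) := by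
      intro a b
      rw [← Complex.mul_conj', map_sum, Finset.sum_mul_sum, ← Finset.sum_product', 
        Finset.univ_product_univ]
      refine Finset.sum_congr rfl (fun x _ => ?_)
      rw [conj_std, ← AddChar.map_add_eq_mul, ← AddChar.map_add_eq_mul]
      congr 1
      ring
    simp_rw [h2]
    simp_rw [Finset.sum_mul_sum]
    rw [Finset.sum_congr rfl (fun a _ => Finset.sum_comm), Finset.sum_comm]
  have h3 : (((V : ℝ) ^ 2 * ((univ.filter fun x : ι × ι =>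
      f x.1 = f x.2 ∧ g x.1 = g x.2).card : ℝ) : ℝ) : ℂ) =
      ∑ x : ι × ι, (∑ a : ZMod V, (ZMod.stdAddChar (a * (f x.1 - f x.2)) : ℂ)) *
        (∑ b : ZMod V, (ZMod.stdAddChar (b * (g x.1 - g x.2)) : ℂ)) := by
    simp_rw [std_orth, sub_eq_zero]
    rw [Finset.card_filter]
    push_cast
    rw [Finset.mul_sum]
    refine Finset.sum_congr rfl (fun x _ => ?_)
    by_cases h4 : f x.1 = f x.2 <;> by_cases h5 : g x.1 = g x.2 <;> simp [h4, h5, sq]
  exact_mod_cast h1.trans h3.symm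

section Prime

variable {p : ℕ} [Fact p.Prime]

lemma card_sol : ((univ.filter fun x : ((ZMod p)ˣ × (ZMod p)ˣ) × ((ZMod p)ˣ × (ZMod p)ˣ) =>
    ((x.1.1 : ZMod p) + (x.1.2 : ZMod p) = (x.2.1 : ZMod p) + (x.2.2 : ZMod p)) ∧
    (((x.1.1⁻¹ : (ZMod p)ˣ) : ZMod p) + ((x.1.2⁻¹ : (ZMod p)ˣ) : ZMod p) =
      ((x.2.1⁻¹ : (ZMod p)ˣ) : ZMod p) + ((x.2.2⁻¹ : (ZMod p)ˣ) : ZMod p))).card) ≤
    3 * (p - 1) ^ 2 := by
  classical
  have hU : (univ : Finset ((ZMod p)ˣ × (ZMod p)ˣ)).card = (p - 1) ^ 2 := by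
    rw [← Finset.univ_product_univ, Finset.card_product, Finset.card_univ,
      ZMod.card_units_eq_totient, Nat.totient_prime Fact.out, sq]
  have hsub : (univ.filter fun x : ((ZMod p)ˣ × (ZMod p)ˣ) × ((ZMod p)ˣ × (ZMod p)ˣ) =>
      ((x.1.1 : ZMod p) + (x.1.2 : ZMod p) = (x.2.1 : ZMod p) + (x.2.2 : ZMod p)) ∧
      (((x.1.1⁻¹ : (ZMod p)ˣ) : ZMod p) + ((x.1.2⁻¹ : (ZMod p)ˣ) : ZMod p) =
        ((x.2.1⁻¹ : (ZMod p)ˣ) : ZMod p) + ((x.2.2⁻¹ : (ZMod p)ˣ) : ZMod p))) ⊆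
      ((univ : Finset ((ZMod p)ˣ × (ZMod p)ˣ)).image fun y => (y, y)) ∪
      (((univ : Finset ((ZMod p)ˣ × (ZMod p)ˣ)).image fun y => (y, (y.2, y.1))) ∪
      ((univ : Finset ((ZMod p)ˣ × (ZMod p)ˣ)).image fun y => ((y.1, -y.1), (y.2, -y.2)))) := by
    rintro ⟨⟨x, y⟩, ⟨z, w⟩⟩ h
    simp only [Finset.mem_filter, Finset.mem_univ, true_and] at h
    obtain ⟨h1, h2⟩ := h
    simp only [Finset.mem_union, Finset.mem_image, Finset.mem_univ, true_and, Prod.exists,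
      Prod.mk.injEq]
    have hx : (x : ZMod p) * ((x⁻¹ : (ZMod p)ˣ) : ZMod p) = 1 := Units.mul_inv x
    have hy : (y : ZMod p) * ((y⁻¹ : (ZMod p)ˣ) : ZMod p) = 1 := Units.mul_inv y
    have hz : (z : ZMod p) * ((z⁻¹ : (ZMod p)ˣ) : ZMod p) = 1 := Units.mul_inv z
    have hw : (w : ZMod p) * ((w⁻¹ : (ZMod p)ˣ) : ZMod p) = 1 := Units.mul_inv w
    -- (x + y) z w = (z + w) x y
    have h3 : ((x : ZMod p) + y) * ((z : ZMod p) * w) = ((z : ZMod p) + w) * ((x : ZMod p) * y) := by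
      set X := ((x⁻¹ : (ZMod p)ˣ) : ZMod p)
      set Y := ((y⁻¹ : (ZMod p)ˣ) : ZMod p)
      set Z := ((z⁻¹ : (ZMod p)ˣ) : ZMod p)
      set W := ((w⁻¹ : (ZMod p)ˣ) : ZMod p)
      linear_combination ((x : ZMod p) * y * z * w) * h2 - (y * z * w : ZMod p) * hx -
        (x * z * w : ZMod p) * hy + (x * y * w : ZMod p) * hz + (x * y * z : ZMod p) * hw
    rw [h1] at h3
    have h4 : ((z : ZMod p) + w) * ((z : ZMod p) * w - x * y) = 0 := by linear_combination h3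
    rcases mul_eq_zero.1 h4 with h5 | h5
    · right; right
      refine ⟨x, z, ⟨rfl, ?_⟩, rfl, ?_⟩
      · ext
        push_cast
        linear_combination -h1 - h5
      · ext
        push_cast
        linear_combination -h5
    · -- (z - x)(z - y) = 0
      have h6 : ((z : ZMod p) - x) * ((z : ZMod p) - y) = 0 := by
        linear_combination -z * h1 - h5
      rcases mul_eq_zero.1 h6 with h7 | h7
      · left
        refine ⟨x, y, ⟨rfl, rfl⟩, ?_, ?_⟩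
        · ext; linear_combination -h7
        · ext; linear_combination h1 + h7
      · right; left
        refine ⟨x, y, ⟨rfl, rfl⟩, ?_, ?_⟩
        · ext; linear_combination -h7
        · ext; linear_combination h1 + h7
  refine (Finset.card_le_card hsub).trans ((Finset.card_union_le _ _).trans ?_)
  have e1 := Finset.card_image_le (s := (univ : Finset ((ZMod p)ˣ × (ZMod p)ˣ)))
    (f := fun y => (y, y))
  have e2 := Finset.card_image_le (s := (univ : Finset ((ZMod p)ˣ × (ZMod p)ˣ)))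
    (f := fun y => (y, (y.2, y.1)))
  have e3 := Finset.card_image_le (s := (univ : Finset ((ZMod p)ˣ × (ZMod p)ˣ)))
    (f := fun y => ((y.1, -y.1), (y.2, -y.2)))
  have e4 := Finset.card_union_le
    ((univ : Finset ((ZMod p)ˣ × (ZMod p)ˣ)).image fun y => (y, (y.2, y.1)))
    ((univ : Finset ((ZMod p)ˣ × (ZMod p)ˣ)).image fun y => ((y.1, -y.1), (y.2, -y.2)))
  rw [hU] at e1 e2 e3
  omega

/-- fourth moment -/
lemma fourth : ∑ a : ZMod p, ∑ b : ZMod p, ‖kl p a b‖ ^ 4 ≤ 3 * (p : ℝ) ^ 2 * ((p - 1 : ℕ) : ℝ) ^ 2 := by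
  classical
  have h1 : ∀ a b : ZMod p, ‖kl p a b‖ ^ 4 = ‖∑ x : (ZMod p)ˣ × (ZMod p)ˣ,
      (ZMod.stdAddChar (a * ((x.1 : ZMod p) + (x.2 : ZMod p)) +
        b * (((x.1⁻¹ : (ZMod p)ˣ) : ZMod p) + ((x.2⁻¹ : (ZMod p)ˣ) : ZMod p))) : ℂ)‖ ^ 2 := by
    intro a b
    have h2 : (kl p a b) ^ 2 = ∑ x : (ZMod p)ˣ × (ZMod p)ˣ,
        (ZMod.stdAddChar (a * ((x.1 : ZMod p) + (x.2 : ZMod p)) +
        b * (((x.1⁻¹ : (ZMod p)ˣ) : ZMod p) + ((x.2⁻¹ : (ZMod p)ˣ) : ZMod p))) : ℂ) := by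
      unfold kl
      rw [sq, Finset.sum_mul_sum, ← Finset.sum_product', Finset.univ_product_univ]
      refine Finset.sum_congr rfl (fun x _ => ?_)
      rw [← AddChar.map_add_eq_mul]
      congr 1
      ring
    rw [← h2, norm_pow]
    ring
  simp_rw [h1]
  rw [pars2]
  have h3 := card_sol (p := p)
  have h4 : ((univ.filter fun x : ((ZMod p)ˣ × (ZMod p)ˣ) × ((ZMod p)ˣ × (ZMod p)ˣ) =>
    ((x.1.1 : ZMod p) + (x.1.2 : ZMod p) = (x.2.1 : ZMod p) + (x.2.2 : ZMod p)) ∧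
    (((x.1.1⁻¹ : (ZMod p)ˣ) : ZMod p) + ((x.1.2⁻¹ : (ZMod p)ˣ) : ZMod p) =
      ((x.2.1⁻¹ : (ZMod p)ˣ) : ZMod p) + ((x.2.2⁻¹ : (ZMod p)ˣ) : ZMod p))).card : ℝ) ≤
    3 * ((p - 1 : ℕ) : ℝ) ^ 2 := by exact_mod_cast h3
  calc _ ≤ (p : ℝ) ^ 2 * (3 * ((p - 1 : ℕ) : ℝ) ^ 2) := by gcongr
    _ = _ := by ring

lemma kl_unit (a b : ZMod p) (t : (ZMod p)ˣ) :
    kl p (a * t) (b * ((t⁻¹ : (ZMod p)ˣ) : ZMod p)) = kl p a b := by
  unfold kl
  rw [← Equiv.sum_comp (Equiv.mulLeft t)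
    (fun x : (ZMod p)ˣ => (ZMod.stdAddChar (a * (x : ZMod p) + b * ((x⁻¹ : (ZMod p)ˣ) : ZMod p)) : ℂ))]
  refine Finset.sum_congr rfl (fun x _ => ?_)
  congr 1
  simp only [Equiv.coe_mulLeft, mul_inv_rev, Units.val_mul]
  ring

/-- the bound `3 ^ (1/4) p ^ (3/4)` -/
lemma K1_four {a b : ZMod p} (h : ¬ (a = 0 ∧ b = 0)) : ‖kl p a b‖ ^ 4 ≤ 3 * (p : ℝ) ^ 3 := by
  classical
  have hinj : Function.Injective (fun t : (ZMod p)ˣ =>
      ((a * t, b * ((t⁻¹ : (ZMod p)ˣ) : ZMod p)) : ZMod p × ZMod p)) := by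
    intro s t hst
    simp only [Prod.mk.injEq] at hst
    by_cases ha : a = 0
    · have hb : b ≠ 0 := fun hb => h ⟨ha, hb⟩
      have := mul_left_cancel₀ hb hst.2
      have h2 : s⁻¹ = t⁻¹ := Units.ext this
      exact inv_injective h2
    · exact Units.ext (mul_left_cancel₀ ha hst.1)
  have h1 : ∑ t : (ZMod p)ˣ, ‖kl p (a * t) (b * ((t⁻¹ : (ZMod p)ˣ) : ZMod p))‖ ^ 4 ≤
      ∑ z : ZMod p × ZMod p, ‖kl p z.1 z.2‖ ^ 4 := by
    rw [← Finset.sum_image (f := fun z : ZMod p × ZMod p => ‖kl p z.1 z.2‖ ^ 4)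
      (s := (univ : Finset (ZMod p)ˣ))
      (g := fun t : (ZMod p)ˣ => (a * t, b * ((t⁻¹ : (ZMod p)ˣ) : ZMod p)))
      (fun s _ t _ hst => hinj hst)]
    exact Finset.sum_le_sum_of_subset_of_nonneg (Finset.subset_univ _) (fun _ _ _ => by positivity)
  rw [Fintype.sum_prod_type] at h1
  have h2 := h1.trans (fourth (p := p))
  simp_rw [kl_unit] at h2
  rw [Finset.sum_const, Finset.card_univ, ZMod.card_units_eq_totient,
    Nat.totient_prime Fact.out, nsmul_eq_mul] at h2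
  have hp := (Fact.out : p.Prime).two_le
  have hp1 : (0 : ℝ) < ((p - 1 : ℕ) : ℝ) := by
    have : 0 < p - 1 := by omega
    exact_mod_cast this
  have hp2 : ((p - 1 : ℕ) : ℝ) ≤ p := by exact_mod_cast Nat.sub_le p 1
  have h3 : ‖kl p a b‖ ^ 4 ≤ 3 * (p : ℝ) ^ 2 * ((p - 1 : ℕ) : ℝ) := by
    have : ((p - 1 : ℕ) : ℝ) * ‖kl p a b‖ ^ 4 ≤
        ((p - 1 : ℕ) : ℝ) * (3 * (p : ℝ) ^ 2 * ((p - 1 : ℕ) : ℝ)) := by
      refine h2.trans (le_of_eq ?_)
      ring
    exact le_of_mul_le_mul_left this hp1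
  calc ‖kl p a b‖ ^ 4 ≤ 3 * (p : ℝ) ^ 2 * ((p - 1 : ℕ) : ℝ) := h3
    _ ≤ 3 * (p : ℝ) ^ 2 * p := by gcongr
    _ = 3 * (p : ℝ) ^ 3 := by ring

end Prime

section Mul

lemma ez_split {m n : ℕ} (hm : m ≠ 0) (hn : n ≠ 0) {s t : ℤ} (h : s * m + t * n = 1) (j : ℤ) :
    ez (m * n) j = ez m (t * j) * ez n (s * j) := by
  have h1 : j = (t * j) * n + (s * j) * m := by linear_combination (-j) * h
  conv_lhs => rw [h1, ez_add, ez_mul_left m n hn, mul_comm m n, ez_mul_left n m hm]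

lemma kl_int {V : ℕ} [NeZero V] (a b : ℤ) (x : (ZMod V)ˣ) (j j' : ℤ) (hj : (j : ZMod V) = x)
    (hj' : (j' : ZMod V) = ((x⁻¹ : (ZMod V)ˣ) : ZMod V)) :
    (ZMod.stdAddChar ((a : ZMod V) * (x : ZMod V) + (b : ZMod V) * ((x⁻¹ : (ZMod V)ˣ) : ZMod V)) : ℂ) =
      ez V (a * j + b * j') := by
  rw [ez_eq_std, ← hj, ← hj']
  push_cast
  rfl

lemma kl_mul {m n : ℕ} [NeZero m] [NeZero n] (h : m.Coprime n) :
    ∃ u v : ℤ, IsCoprime u m ∧ IsCoprime v n ∧ ∀ a b : ℤ,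
      kl (m * n) (a : ZMod (m * n)) (b : ZMod (m * n)) =
        kl m ((u * a : ℤ) : ZMod m) ((u * b : ℤ) : ZMod m) *
          kl n ((v * a : ℤ) : ZMod n) ((v * b : ℤ) : ZMod n) := by
  obtain ⟨s, t, hst⟩ := Nat.isCoprime_iff_coprime.2 h
  refine ⟨t, s, ⟨n, s, by linear_combination hst⟩, ⟨m, t, by linear_combination hst⟩,
    fun a b => ?_⟩
  let e : (ZMod (m * n))ˣ ≃* (ZMod m)ˣ × (ZMod n)ˣ :=
    (Units.mapEquiv (ZMod.chineseRemainder h).toMulEquiv).trans MulEquiv.prodUnits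
  have he1 : ∀ (x : (ZMod (m * n))ˣ) (j : ℤ), (j : ZMod (m * n)) = x →
      (j : ZMod m) = ((e x).1 : ZMod m) := by
    intro x j hj
    have h1 : ((e x).1 : ZMod m) = (ZMod.chineseRemainder h (x : ZMod (m * n))).1 := rfl
    rw [h1, ← hj, map_intCast, Prod.fst_intCast]
  have he2 : ∀ (x : (ZMod (m * n))ˣ) (j : ℤ), (j : ZMod (m * n)) = x →
      (j : ZMod n) = ((e x).2 : ZMod n) := by
    intro x j hj
    have h1 : ((e x).2 : ZMod n) = (ZMod.chineseRemainder h (x : ZMod (m * n))).2 := rfl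
    rw [h1, ← hj, map_intCast, Prod.snd_intCast]
  unfold kl
  rw [Finset.sum_mul_sum, ← Finset.sum_product', Finset.univ_product_univ]
  rw [← Equiv.sum_comp e.toEquiv]
  refine Finset.sum_congr rfl (fun x _ => ?_)
  obtain ⟨j, hj⟩ : ∃ j : ℤ, (j : ZMod (m * n)) = x := ZMod.intCast_surjective _
  obtain ⟨j', hj'⟩ : ∃ j : ℤ, (j : ZMod (m * n)) = ((x⁻¹ : (ZMod (m * n))ˣ) : ZMod (m * n)) :=
    ZMod.intCast_surjective _
  have h3 : (j' : ZMod m) = (((e x).1⁻¹ : (ZMod m)ˣ) : ZMod m) := by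
    have := he1 x⁻¹ j' hj'
    rw [map_inv] at this
    exact this
  have h4 : (j' : ZMod n) = (((e x).2⁻¹ : (ZMod n)ˣ) : ZMod n) := by
    have := he2 x⁻¹ j' hj'
    rw [map_inv] at this
    exact this
  have e1 := kl_int a b x j j' hj hj'
  have e2 := kl_int (t * a) (t * b) (e x).1 j j' (he1 x j hj) h3
  have e3 := kl_int (s * a) (s * b) (e x).2 j j' (he2 x j hj) h4
  refine e1.trans ?_
  have e4 := ez_split (NeZero.ne m) (NeZero.ne n) hst (a * j + b * j')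
  rw [e4]
  have e5 : (t * (a * j + b * j') : ℤ) = t * a * j + t * b * j' := by ring
  have e6 : (s * (a * j + b * j') : ℤ) = s * a * j + s * b * j' := by ring
  rw [e5, e6, ← e2, ← e3]
  rfl

lemma kl_one (a b : ZMod 1) : ‖kl 1 a b‖ ≤ 1 := by
  unfold kl
  refine (norm_sum_le _ _).trans ?_
  simp only [norm_std, Finset.sum_const, nsmul_eq_mul, mul_one]
  simp

/-- bounds at primes give bounds at squarefree moduli -/
theorem kl_le_prod (G : ℕ → ℤ → ℤ → ℝ)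
    (hG : ∀ (p : ℕ) [Fact p.Prime] (a b : ℤ), ‖kl p (a : ZMod p) (b : ZMod p)‖ ≤ G p a b)
    (hu : ∀ (p : ℕ), p.Prime → ∀ u a b : ℤ, IsCoprime u p → G p (u * a) (u * b) = G p a b)
    (V : ℕ) : ∀ [NeZero V], Squarefree V → ∀ a b : ℤ,
      ‖kl V (a : ZMod V) (b : ZMod V)‖ ≤ ∏ p ∈ V.primeFactors, G p a b := by
  induction V using Nat.recOnPosPrimePosCoprime with
  | prime_pow p k hp hk =>
    intro _ hV a b
    have hk1 : k = 1 := by
      by_contra hne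
      have h2 : 2 ≤ k := by omega
      have : p * p ∣ p ^ k := by rw [← sq]; exact pow_dvd_pow p h2
      have := hV p this
      rw [Nat.isUnit_iff] at this
      exact hp.one_lt.ne' this
    subst hk1
    have hpp : Fact p.Prime := ⟨hp⟩
    have e1 : ∀ (W : ℕ) [NeZero W], W = p → ‖kl W (a : ZMod W) (b : ZMod W)‖ ≤ G p a b := by
      intro W _ hW
      subst hW
      exact hG W a b
    have e2 : (p ^ 1).primeFactors = {p} := by rw [pow_one]; exact hp.primeFactors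
    rw [e2, Finset.prod_singleton]
    exact e1 (p ^ 1) (pow_one p)
  | zero => intro h0 _ _ _; exact absurd rfl h0.ne
  | one =>
    intro _ _ a b
    simp only [Nat.primeFactors_one, Finset.prod_empty]
    exact kl_one _ _
  | coprime m n hm hn hmn ihm ihn =>
    intro _ hV a b
    have i1 : NeZero m := ⟨by omega⟩
    have i2 : NeZero n := ⟨by omega⟩
    obtain ⟨u, v, hu1, hv1, huv⟩ := kl_mul hmn
    have h1 := ihm (hV.squarefree_of_dvd (dvd_mul_right m n)) (u * a) (u * b)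
    have h2 := ihn (hV.squarefree_of_dvd (dvd_mul_left n m)) (v * a) (v * b)
    have h3 : kl (m * n) (a : ZMod (m * n)) (b : ZMod (m * n)) =
        kl m ((u * a : ℤ) : ZMod m) ((u * b : ℤ) : ZMod m) *
          kl n ((v * a : ℤ) : ZMod n) ((v * b : ℤ) : ZMod n) := huv a b
    rw [h3, norm_mul, Nat.primeFactors_mul (NeZero.ne m) (NeZero.ne n),
      Finset.prod_union hmn.disjoint_primeFactors]
    refine mul_le_mul ?_ ?_ (norm_nonneg _) ?_
    · refine h1.trans (le_of_eq (Finset.prod_congr rfl (fun p hp => ?_)))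
      have hp' := Nat.mem_primeFactors.1 hp
      exact hu p hp'.1 u a b (hu1.of_isCoprime_of_dvd_right (by exact_mod_cast hp'.2.1))
    · refine h2.trans (le_of_eq (Finset.prod_congr rfl (fun p hp => ?_)))
      have hp' := Nat.mem_primeFactors.1 hp
      exact hu p hp'.1 v a b (hv1.of_isCoprime_of_dvd_right (by exact_mod_cast hp'.2.1))
    · refine Finset.prod_nonneg (fun p hp => ?_)
      have hp' := Nat.mem_primeFactors.1 hp
      have : Fact p.Prime := ⟨hp'.1⟩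
      exact (norm_nonneg _).trans (hG p a b)

end Mul

section Bounds

lemma kl_triv {V : ℕ} [NeZero V] (a b : ZMod V) : ‖kl V a b‖ ≤ V := by
  unfold kl
  refine (norm_sum_le _ _).trans ?_
  simp only [norm_std, Finset.sum_const, nsmul_eq_mul, mul_one]
  rw [Finset.card_univ, ZMod.card_units_eq_totient]
  exact_mod_cast Nat.totient_le V

lemma intCast_zero_iff {p : ℕ} (a : ℤ) : (a : ZMod p) = 0 ↔ (p : ℤ) ∣ a :=
  ZMod.intCast_zmod_eq_zero_iff_dvd a p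

lemma dvd_unit_iff {p : ℕ} {u a : ℤ} (h : IsCoprime u p) : (p : ℤ) ∣ u * a ↔ (p : ℤ) ∣ a :=
  ⟨fun h1 => h.symm.dvd_of_dvd_mul_left h1, fun h1 => h1.mul_left u⟩

lemma gcd_primeFactors {V : ℕ} (hV : V ≠ 0) (D : ℤ) :
    (Int.gcd D V).primeFactors = V.primeFactors.filter fun p : ℕ => (p : ℤ) ∣ D := by
  ext p
  simp only [Nat.mem_primeFactors, Finset.mem_filter]
  constructor
  · rintro ⟨h1, h2, h3⟩
    have h4 : (p : ℤ) ∣ (Int.gcd D V : ℤ) := by exact_mod_cast h2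
    refine ⟨⟨h1, ?_, hV⟩, h4.trans (Int.gcd_dvd_left _ _)⟩
    have := h4.trans (Int.gcd_dvd_right D (V : ℤ))
    exact_mod_cast this
  · rintro ⟨⟨h1, h2, -⟩, h4⟩
    refine ⟨h1, ?_, ?_⟩
    · have h5 : (p : ℤ) ∣ (V : ℤ) := by exact_mod_cast h2
      have := Int.dvd_coe_gcd h4 h5
      exact_mod_cast this
    · intro h0
      have := (Int.gcd_eq_zero_iff.1 h0).2
      exact hV (by exact_mod_cast this)

lemma gcd_prod {V : ℕ} (hV : Squarefree V) (D : ℤ) :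
    (Int.gcd D V : ℝ) = ∏ p ∈ V.primeFactors, (if (p : ℤ) ∣ D then (p : ℝ) else 1) := by
  have h0 : V ≠ 0 := hV.ne_zero
  have h1 : Squarefree (Int.gcd D V) := hV.squarefree_of_dvd (by
    have := Int.gcd_dvd_right D (V : ℤ)
    exact_mod_cast this)
  have h2 := Nat.prod_primeFactors_of_squarefree h1
  rw [gcd_primeFactors h0, Finset.prod_filter] at h2
  conv_lhs => rw [← h2]
  push_cast
  refine Finset.prod_congr rfl (fun p _ => ?_)
  split_ifs <;> simp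

/-- the bound at a prime -/
theorem K1 (p : ℕ) [Fact p.Prime] (a b : ZMod p) (h : ¬ (a = 0 ∧ b = 0)) :
    ‖kl p a b‖ ≤ 2 * (p : ℝ) ^ (3 / 4 : ℝ) := by
  have h3 := K1_four h
  have hp0 : (0 : ℝ) ≤ p := by positivity
  refine le_of_pow_le_pow_left₀ (n := 4) (by norm_num) (by positivity) ?_
  rw [mul_pow, ← Real.rpow_natCast ((p : ℝ) ^ (3/4 : ℝ)) 4, ← Real.rpow_mul hp0]
  have e1 : (3/4 : ℝ) * ((4 : ℕ) : ℝ) = ((3 : ℕ) : ℝ) := by norm_num
  rw [e1, Real.rpow_natCast]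
  have : (0 : ℝ) ≤ (p : ℝ) ^ 3 := by positivity
  linarith

theorem K2 (V : ℕ) [NeZero V] (hV : Squarefree V) (a b : ℤ) :
    ‖kl V (a : ZMod V) (b : ZMod V)‖ ≤ 2 ^ V.primeFactors.card * (V : ℝ) ^ (3 / 4 : ℝ) *
      ((Nat.gcd (Int.gcd a b) V : ℕ) : ℝ) ^ (1 / 4 : ℝ) := by
  rw [show Nat.gcd (Int.gcd a b) V = Int.gcd (Int.gcd a b) V from
    (Int.gcd_natCast_natCast _ _).symm]
  have h1 := kl_le_prod (fun p a b => if (p : ℤ) ∣ (Int.gcd a b : ℤ) then (p : ℝ) else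
    2 * (p : ℝ) ^ (3/4 : ℝ)) ?_ ?_ V hV a b
  · refine h1.trans ?_
    have hV2 : (V : ℝ) ^ (3/4 : ℝ) = ∏ p ∈ V.primeFactors, (p : ℝ) ^ (3/4 : ℝ) := by
      rw [Real.finsetProd_rpow _ _ (fun p _ => by positivity)]
      congr 1
      have := Nat.prod_primeFactors_of_squarefree hV
      conv_lhs => rw [← this]
      push_cast
      rfl
    have hG : (Int.gcd (Int.gcd a b) V : ℝ) ^ (1/4 : ℝ) =
        ∏ p ∈ V.primeFactors, (if (p : ℤ) ∣ (Int.gcd a b : ℤ) then (p : ℝ) else 1) ^ (1/4 : ℝ) := by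
      rw [Real.finsetProd_rpow _ _ (fun p _ => by split_ifs <;> positivity)]
      rw [gcd_prod hV]
    have h2 : (2 : ℝ) ^ V.primeFactors.card = ∏ _p ∈ V.primeFactors, (2 : ℝ) := by
      rw [Finset.prod_const]
    rw [hV2, hG, h2, ← Finset.prod_mul_distrib, ← Finset.prod_mul_distrib]
    refine Finset.prod_le_prod (fun p _ => by split_ifs <;> positivity) (fun p hp => ?_)
    have hp1 : (1 : ℝ) ≤ p := by
      exact_mod_cast (Nat.prime_of_mem_primeFactors hp).one_lt.le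
    split_ifs with h
    · have e1 : (p : ℝ) ^ (3/4 : ℝ) * (p : ℝ) ^ (1/4 : ℝ) = p := by
        rw [← Real.rpow_add (by linarith)]
        norm_num
      rw [mul_assoc, e1]
      linarith
    · rw [Real.one_rpow, mul_one]
  · intro p hp a b
    split_ifs with h
    · exact kl_triv _ _
    · refine K1 p _ _ ?_
      rintro ⟨h3, h4⟩
      exact h (Int.dvd_coe_gcd ((intCast_zero_iff a).1 h3) ((intCast_zero_iff b).1 h4))
  · intro p hp u a b hu
    have e : ((p : ℤ) ∣ (Int.gcd (u * a) (u * b) : ℤ)) ↔ ((p : ℤ) ∣ (Int.gcd a b : ℤ)) := by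
      rw [Int.dvd_coe_gcd_iff, Int.dvd_coe_gcd_iff, dvd_unit_iff hu, dvd_unit_iff hu]
    simp only [e]

/-- Ramanujan sum -/
theorem ram (V : ℕ) [NeZero V] (hV : Squarefree V) (c : ℤ) :
    ‖kl V 0 (c : ZMod V)‖ ≤ ((Int.gcd c V : ℕ) : ℝ) := by
  have h1 := kl_le_prod (fun p a b => if (p : ℤ) ∣ a then (if (p : ℤ) ∣ b then (p : ℝ) else 1)
    else (p : ℝ)) ?_ ?_ V hV 0 c
  · rw [gcd_prod hV]
    simpa using h1
  · intro p hp a b
    split_ifs with h h'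
    · exact kl_triv _ _
    · have h3 : (a : ZMod p) = 0 := (intCast_zero_iff a).2 h
      have h4 : (b : ZMod p) ≠ 0 := fun h5 => h' ((intCast_zero_iff b).1 h5)
      rw [h3]
      have h5 : kl p 0 (b : ZMod p) = -1 := by
        unfold kl
        simp only [zero_mul, zero_add]
        have h7 : ∑ x : (ZMod p)ˣ, (ZMod.stdAddChar ((b : ZMod p) *
            ((x⁻¹ : (ZMod p)ˣ) : ZMod p)) : ℂ) =
            ∑ z ∈ (univ : Finset (ZMod p)).erase 0, (ZMod.stdAddChar (z * (b : ZMod p)) : ℂ) := by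
          refine Finset.sum_bij (fun x _ => ((x⁻¹ : (ZMod p)ˣ) : ZMod p)) ?_ ?_ ?_ ?_
          · intro x _
            rw [Finset.mem_erase]
            exact ⟨Units.ne_zero _, Finset.mem_univ _⟩
          · intro x _ y _ hxy
            exact inv_injective (Units.ext hxy)
          · intro z hz
            rw [Finset.mem_erase] at hz
            exact ⟨(Units.mk0 z hz.1)⁻¹, Finset.mem_univ _, by rw [inv_inv]; rfl⟩
          · intro x _
            rw [mul_comm]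
        rw [h7]
        have h6 := std_orth (b : ZMod p)
        rw [if_neg h4, ← Finset.add_sum_erase _ _ (Finset.mem_univ (0 : ZMod p)), zero_mul,
          AddChar.map_zero_eq_one] at h6
        linear_combination h6
      rw [h5]
      simp
    · exact kl_triv _ _
  · intro p hp u a b hu
    simp only [dvd_unit_iff hu]

end Bounds

end Pool.Agent.Helper8.AP
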