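import Pool.Agent.Helper8.AP.K0c3

/-!
# Project A' (MP_8958e8): `⟨b₁, b₂⟩` at shift zero (K0c)
-/

open MeasureTheory Set Filter Topology
open Pool.Agent.Helper57.Zeta Pool.Agent.Helper57.PC Pool.Agent.Helper57.LH Pool.Agent.Helper78.SG
open Pool.Agent.Helper4.SH (om)
open Pool.Agent.Helper69.FF Pool.Agent.Helper57.KP
open scoped ContDiff

set_option autoImplicit false

namespace Pool.Agent.AP
namespace K0cAux

open K0bAux

/-- the base of the recursion -/
lemma base (hSS : Stmt_Sm_of_sum) (hco : Stmt_corr) (hsp : Stmt_sig_phi) {W : ℝ → ℝ} {R : ℝ} (hW : PF W R) (hR : 0 < R) :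
    ∃ C : ℝ, 0 < C ∧ ∀ (B q Z : ℕ) (v T c X L : ℝ), 1 ≤ B → (∀ r, 1 ≤ r → r ≤ B → Nat.Coprime r q) → R ≤ c →
      (Z : ℝ) * B * Real.exp (-c) ≤ X → Real.log Z ≤ L → Real.log B ≤ L → 0 ≤ L →
      |Ph W R B v T [] q Z c - Mod (∫ y, W y ^ 2) B v T [] Z| ≤ C * ((1 + L) ^ 8 * X) := by
  obtain ⟨C1, hC1, h1⟩ := hSS hW hR
  obtain ⟨C2, hC2, h2⟩ := hsp
  refine ⟨C1 * (2 * C2 ^ 2 + 1), by positivity, ?_⟩
  intro B q Z v T c X L hB hcop hc hX hZL hBL hL
  set SZ := ∑ r ∈ (Finset.Icc 1 Z).filter Squarefree, ((ArithmeticFunction.sigma 1 r : ℕ) : ℝ) / Nat.totient r with hSZ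
  set SB := ∑ r ∈ (Finset.Icc 1 B).filter Squarefree, ((ArithmeticFunction.sigma 1 r : ℕ) : ℝ) / Nat.totient r with hSB
  have hSZ0 : 0 ≤ SZ := Finset.sum_nonneg fun r _ => by positivity
  have hSB0 : 0 ≤ SB := Finset.sum_nonneg fun r _ => by positivity
  have hB1 : (1 : ℝ) ≤ B := by exact_mod_cast hB
  have hlB : 0 ≤ Real.log B := Real.log_nonneg hB1
  have hlZ : 0 ≤ Real.log Z := Real.log_natCast_nonneg Z
  have hPh : Ph W R B v T [] q Z c = Sm W R c (fun n : ℕ => lamQ q Z n * lamR B n) := by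
    unfold Ph bb IL
    congr 1
    funext n
    simp
  have hMod : Mod (∫ y, W y ^ 2) B v T [] Z = GG 1 (min B Z) * ∫ y, W y ^ 2 := by
    simp only [Mod]
    ring
  rw [hPh, hMod]
  have h3 := h1 c (fun n : ℕ => lamQ q Z n * lamR B n) (GG 1 (min B Z)) (2 * (SZ * SB)) (by positivity) hc
    (fun N => lamQ_sum hco B q Z N hcop)
  refine h3.trans ?_
  have hG0 := GG_nonneg 1 (min B Z)
  rw [abs_of_nonneg hG0]
  have hSZ1 : SZ ≤ C2 * Z * (1 + L) ^ 4 := by
    rcases Nat.eq_zero_or_pos Z with h | h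
    · rw [hSZ, h]
      simp
    · refine (h2 Z h).trans ?_
      gcongr
  have hSB1 : SB ≤ C2 * B * (1 + L) ^ 4 := by
    refine (h2 B hB).trans ?_
    gcongr
  have hG1 : GG 1 (min B Z) ≤ Z * B := by
    refine (GG_le_card 1 (min B Z)).trans ?_
    have h4 : ((min B Z : ℕ) : ℝ) ≤ Z := by exact_mod_cast min_le_right B Z
    have h5 : (Z : ℝ) * 1 ≤ Z * B := mul_le_mul_of_nonneg_left hB1 (by positivity)
    linarith
  have hP : 1 ≤ (1 + L) ^ 8 := one_le_pow₀ (by linarith)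
  have hZB : 0 ≤ (Z : ℝ) * B := by positivity
  have h6 : 2 * (SZ * SB) + GG 1 (min B Z) ≤ (2 * C2 ^ 2 + 1) * (1 + L) ^ 8 * (Z * B) := by
    have h7 : SZ * SB ≤ (C2 * Z * (1 + L) ^ 4) * (C2 * B * (1 + L) ^ 4) := mul_le_mul hSZ1 hSB1 hSB0 (by positivity)
    have h8 : (Z : ℝ) * B * 1 ≤ Z * B * (1 + L) ^ 8 := mul_le_mul_of_nonneg_left hP hZB
    calc 2 * (SZ * SB) + GG 1 (min B Z) ≤ 2 * ((C2 * Z * (1 + L) ^ 4) * (C2 * B * (1 + L) ^ 4)) + Z * B * (1 + L) ^ 8 := by
          linarith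
      _ = _ := by ring
  calc C1 * (2 * (SZ * SB) + GG 1 (min B Z)) * Real.exp (-c) ≤
        C1 * ((2 * C2 ^ 2 + 1) * (1 + L) ^ 8 * (Z * B)) * Real.exp (-c) := by gcongr
    _ = C1 * (2 * C2 ^ 2 + 1) * ((1 + L) ^ 8 * (Z * B * Real.exp (-c))) := by ring
    _ ≤ _ := by gcongr

/-- `P3` is bounded -/
lemma P3_bd (hci : Stmt_cI_lim) {es : List ℝ} {v D : ℝ} (hD : 0 < D) (hv : 0 < v) (h : ∀ x ∈ es, D ≤ x) :
    ∃ Q : ℝ, 0 < Q ∧ ∀ᶠ T : ℝ in atTop, P3 v T es ≤ Q := by
  set Q := 3 * (Real.log (1 + v / D) + 1) with hQ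
  have hl : 0 ≤ Real.log (1 + v / D) := Real.log_nonneg (by
    have : 0 ≤ v / D := by positivity
    linarith)
  refine ⟨Q ^ es.length, by positivity, ?_⟩
  have h1 : ∀ᶠ T : ℝ in atTop, ∀ x ∈ {x | x ∈ es}, cI (IP x v T) ≤ Real.log (1 + v / D) + 1 := by
    rw [eventually_all_finite es.finite_toSet]
    intro x hx
    have hx1 := h x hx
    have hx0 : 0 < x := hD.trans_le hx1
    have h2 := hci hx0 hv
    have h3 : Real.log (1 + v / x) < Real.log (1 + v / D) + 1 := by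
      have : Real.log (1 + v / x) ≤ Real.log (1 + v / D) := by
        refine Real.log_le_log (by positivity) ?_
        have : v / x ≤ v / D := div_le_div_of_nonneg_left hv.le hD hx1
        linarith
      linarith
    exact (h2.eventually (gt_mem_nhds h3)).mono fun T hT => le_of_lt hT
  filter_upwards [h1] with T hT
  unfold P3
  refine prod_le_pow es fun x hx => ?_
  have := cI_nonneg (I := IP x v T) (fun q hq => (mem_IP hq).1)
  have h4 := hT x hx
  constructor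
  · positivity
  · linarith

end K0cAux

open K0bAux K0cAux

theorem K0c (hSS : Stmt_Sm_of_sum) (hSD : Stmt_Sm_dvd) (hSL : Stmt_Sm_Lam) (hPP : Stmt_Sm_pp) (hco : Stmt_corr)
    (hsp : Stmt_sig_phi) (hGB : Stmt_GG_bd) (hlb : Stmt_lamR_bd) (hci : Stmt_cI_lim) : Stmt_K0c := by
  intro es v c3 D s κ2 e ε hE h2 h2' hk he hes h hε W R hW hR
  have hxs : ∀ x ∈ es, x ≤ es.sum := fun x hx => List.single_le_sum (fun y hy => hE.D0.le.trans (hE.ge y hy)) x hx
  obtain ⟨x0, hx0⟩ : ∃ x, x ∈ es := List.exists_mem_of_ne_nil es hE.ne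
  have hlen : 0 ≤ (es.length : ℝ) * v := mul_nonneg (by positivity) hE.v0.le
  have hD : D ≤ 4 / 7 := by
    have a1 := hE.ge x0 hx0
    have a2 := hxs x0 hx0
    have a3 := hE.sum
    have a4 := hE.small
    have a5 := hE.c0
    linarith
  have hsm := hE.small
  have hs0 := hE.s0
  have hc0 := hE.c0
  have hv0 := hE.v0
  have hD0 := hE.D0
  have hsum := hE.sum
  obtain ⟨C, hC, hb⟩ := base hSS hco hsp hW hR
  obtain ⟨Q, hQ, hQT⟩ := P3_bd hci hD0 hv0 hE.ge
  set ξ : ℝ := min (7 * D / 8) (1 / 8) with hξ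
  have hξ0 : 0 < ξ := lt_min (by positivity) (by norm_num)
  have hξ1 : ξ ≤ 7 * D / 8 := min_le_left _ _
  have hξ2 : ξ ≤ 1 / 8 := min_le_right _ _
  set ε1 := ε / (2 * Q) with hε1
  have hε10 : 0 < ε1 := by positivity
  have hlog : ∀ A : ℝ, ∀ᶠ T : ℝ in atTop, A ≤ Real.log T := fun A => Real.tendsto_log_atTop.eventually_ge_atTop A
  filter_upwards [eventually_gt_atTop (1 : ℝ), hlog 1, hlog (4 * R), hQT, small_power2 (K := C) hξ0 hε10 8,
    full (e := e) (c3 := c3) (D := D) (s := s) hSD hSL hPP hGB hlb he hes hs0 (by linarith) hc0 (by linarith) hD0 hε10 hW hR]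
    with T hT1 hL1 hLR hP3 hsp hfl c hcl hcu
  have hT0 : 0 < T := by linarith
  set L := Real.log T with hL
  have hL0 : 0 ≤ L := by linarith
  set B := ⌊T ^ c3⌋₊ with hB
  set R1 := ⌊T ^ (1 / 2 - e)⌋₊ with hR1
  set R0 := ⌊T ^ κ2⌋₊ with hR0
  set V := ∫ y, W y ^ 2 with hV
  set X := T ^ (-ξ) with hX
  have hpow : ∀ {x y : ℝ}, x ≤ y → T ^ x ≤ T ^ y := fun h => Real.rpow_le_rpow_of_exponent_le hT1.le h
  have hpowlt : ∀ {x y : ℝ}, x < y → T ^ x < T ^ y := fun h => Real.rpow_lt_rpow_of_exponent_lt hT1 h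
  have hpos : ∀ x : ℝ, 0 ≤ T ^ x := fun x => Real.rpow_nonneg hT0.le x
  have hBT : (B : ℝ) ≤ T ^ c3 := Nat.floor_le (hpos _)
  have hR1T : (R1 : ℝ) ≤ T ^ (1 / 2 - e) := Nat.floor_le (hpos _)
  have hR0T : (R0 : ℝ) ≤ T ^ κ2 := Nat.floor_le (hpos _)
  have hB1 : 1 ≤ B := by
    rw [hB, Nat.one_le_floor_iff]
    exact Real.one_le_rpow hT1.le hc0.le
  have hBD : (B : ℝ) < T ^ D := hBT.trans_lt (hpowlt (by linarith))
  have hlB : Real.log B ≤ L := by
    calc Real.log B ≤ Real.log (T ^ c3) := Real.log_le_log (by exact_mod_cast hB1) hBT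
      _ = c3 * L := Real.log_rpow hT0 _
      _ ≤ 1 * L := mul_le_mul_of_nonneg_right (by linarith) hL0
      _ = L := one_mul L
  have hlZ : ∀ Z : ℕ, (Z : ℝ) ≤ T → Real.log Z ≤ L := by
    intro Z hZ
    rcases Nat.eq_zero_or_pos Z with h0 | h0
    · subst h0
      simpa using hL0
    · exact Real.log_le_log (by exact_mod_cast h0) hZ
  have hT1' : T ^ (1 : ℝ) = T := Real.rpow_one T
  have hR1T' : (R1 : ℝ) ≤ T := by
    calc (R1 : ℝ) ≤ T ^ (1 / 2 - e) := hR1T
      _ ≤ T ^ (1 : ℝ) := hpow (by linarith)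
      _ = T := hT1'
  have hR0T' : (R0 : ℝ) ≤ T := by
    calc (R0 : ℝ) ≤ T ^ κ2 := hR0T
      _ ≤ T ^ (1 : ℝ) := hpow (by linarith)
      _ = T := hT1'
  have hexp : ∀ {c' x : ℝ}, -c' ≤ x * L → Real.exp (-c') ≤ T ^ x := by
    intro c' x hx
    rw [Real.rpow_def_of_pos hT0, ← hL, mul_comm]
    exact Real.exp_le_exp.2 hx
  have hbase : ∀ (q Z : ℕ) (c' : ℝ), (Z : ℝ) ≤ T → (∀ r, 1 ≤ r → r ≤ B → Nat.Coprime r q) → 1 / 4 * L ≤ c' →
      (Z : ℝ) * B * Real.exp (-c') ≤ X → |Ph W R B v T [] q Z c' - Mod V B v T [] Z| ≤ ε1 := by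
    intro q Z c' hZ hcop hc' hX'
    exact (hb B q Z v T c' X L hB1 hcop (by linarith) hX' (hlZ Z hZ) hlB hL0).trans hsp
  have hεL : ε1 ≤ ε1 * L := le_mul_of_one_le_right hε10.le hL1
  -- the moduli up to `T^(1/2-e)`
  have hfl1 : |Ph W R B v T es 1 R1 c - Mod V B v T es R1| ≤ P3 v T es * (ε1 * L) := by
    refine flagged hSD hW (D := D) (c0 := 1 / 4 * L) (cl := (1 - (es.sum + es.length * v)) * L) (cu := (1 / 2 - 3 * s / 4) * L)
      (E := ε1) (X := X) hT1 hv0.le hεL hBD ?_ ?_ ?_ ?_ es (fun x hx => ⟨hD0.le.trans (hE.ge x hx), hE.ge x hx⟩) hE.chain 1 c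
      squarefree_one ?_ ?_ ?_ ?_ ?_
    · exact mul_le_mul_of_nonneg_right (by linarith) hL0
    · have a1 : Real.exp (-((1 - (es.sum + es.length * v)) * L)) ≤ T ^ (es.sum + es.length * v - 1) := hexp (by
        have : -((1 - (es.sum + es.length * v)) * L) = (es.sum + es.length * v - 1) * L := by ring
        linarith)
      calc (R1 : ℝ) * B * Real.exp (-((1 - (es.sum + es.length * v)) * L)) * T ^ (-D) ≤
            T ^ (1 / 2 - e) * T ^ c3 * T ^ (es.sum + es.length * v - 1) * T ^ (-D) := by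
            gcongr
        _ = T ^ (1 / 2 - e + c3 + (es.sum + es.length * v - 1) + -D) := by
            rw [← Real.rpow_add hT0, ← Real.rpow_add hT0, ← Real.rpow_add hT0]
        _ ≤ X := by
            rw [hX]
            exact hpow (by linarith)
    · intro q Z c' hZ
      refine hbase q Z c' (le_trans ?_ hR1T')
      exact_mod_cast hZ
    · intro q c' hq1 hq2 hq3 hc1 hc2
      have a1 := hfl q c' hq1 hq2 hq3 (by
        refine le_trans ?_ hc1
        exact mul_le_mul_of_nonneg_right (by linarith) hL0) hc2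
      have a2 : min B R1 = B := by
        refine min_eq_left ?_
        rw [hB, hR1]
        exact Nat.floor_le_floor (hpow (by linarith))
      have a3 : Ph W R B v T [] q R1 c' = Sm W R c' (fun n : ℕ => lamQ q R1 n * lamR B n) := by
        unfold K0cAux.Ph bb IL
        congr 1
        funext n
        simp
      rw [a3]
      simp only [K0cAux.Mod]
      rw [a2]
      exact a1
    · intro p hp hd
      exact absurd (Nat.dvd_one.1 hd) hp.one_lt.ne'
    · rw [Nat.cast_one, one_mul]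
      have : T ^ (2 : ℕ) = T ^ (2 : ℝ) := by norm_cast
      rw [this]
      exact hpow (by linarith)
    · intro x _ p _
      exact Nat.coprime_one_right p
    · have : (1 - (es.sum + es.length * v)) * L + (es.sum + es.length * v) * Real.log T = L := by
        rw [← hL]
        ring
      rw [this]
      exact hcl
    · have : (1 / 2 - 3 * s / 4) * L + es.sum * Real.log T = (1 + s / 4) * L := by
        rw [← hL, hsum]
        ring
      rw [this]
      exact hcu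
  -- the moduli up to `T^κ2`
  have hco1 : |Ph W R B v T es 1 R0 c - Mod V B v T es R0| ≤ P3 v T es * ε1 := by
    refine complete hSD hW (Z1 := R0) (c0 := 1 / 4 * L) (X := X) hT1 hv0.le ?_ es (fun x hx => ⟨hD0.le.trans (hE.ge x hx), ?_⟩)
      hE.chain 1 R0 c le_rfl ?_ ?_ ?_ ?_
    · intro q Z c' hZ
      refine hbase q Z c' (le_trans ?_ hR0T')
      exact_mod_cast hZ
    · exact hBD.trans_le (hpow (hE.ge x hx))
    · intro r _ _
      exact Nat.coprime_one_right r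
    · intro x _ p _
      exact Nat.coprime_one_right p
    · have a1 : (1 / 4 + (es.sum + es.length * v)) * L ≤ 1 * L := mul_le_mul_of_nonneg_right (by linarith) hL0
      rw [← hL]
      linarith
    · have a1 : Real.exp (-c) ≤ T ^ (-1 : ℝ) := hexp (by linarith)
      calc (R0 : ℝ) * B * Real.exp (-c) * T ^ (es.sum + es.length * v) ≤
            T ^ κ2 * T ^ c3 * T ^ (-1 : ℝ) * T ^ (es.sum + es.length * v) := by
            gcongr
        _ = T ^ (κ2 + c3 + (-1) + (es.sum + es.length * v)) := by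
            rw [← Real.rpow_add hT0, ← Real.rpow_add hT0, ← Real.rpow_add hT0]
        _ ≤ X := by
            rw [hX]
            exact hpow (by linarith)
  have hM1 : Mod V B v T es R1 = 0 := Mod_zero V B v hT1.le es R1 (hR1T.trans_lt (hpowlt (by linarith)))
  have hM0 : Mod V B v T es R0 = 0 := Mod_zero V B v hT1.le es R0 (hR0T.trans_lt (hpowlt (by linarith)))
  rw [hM1, sub_zero] at hfl1
  rw [hM0, sub_zero] at hco1
  have hsplit : Sm W R c (fun n => b1 κ2 e T n * b2 c3 es v T n) = Ph W R B v T es 1 R1 c - Ph W R B v T es 1 R0 c := by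
    have a1 : (fun n : ℕ => b1 κ2 e T n * b2 c3 es v T n) = (fun n : ℕ => lamQ 1 R1 n * bb B (IL es v T) n +
        (-1) * (lamQ 1 R0 n * bb B (IL es v T) n)) := by
      funext n
      rw [lamQ_one, lamQ_one]
      unfold b1 b2
      ring
    rw [a1, Sm_add, Sm_mul]
    unfold K0cAux.Ph
    ring
  rw [hsplit]
  have hP30 := P3_nonneg v T es
  have b1 : P3 v T es * (ε1 * L) ≤ Q * (ε1 * L) := mul_le_mul_of_nonneg_right hP3 (by positivity)
  have b2 : P3 v T es * ε1 ≤ Q * (ε1 * L) := mul_le_mul hP3 hεL hε10.le hQ.le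
  have b3 : Q * (ε1 * L) + Q * (ε1 * L) = ε * L := by
    rw [hε1]
    field_simp
    ring
  calc |Ph W R B v T es 1 R1 c - Ph W R B v T es 1 R0 c| ≤ |Ph W R B v T es 1 R1 c| + |Ph W R B v T es 1 R0 c| := abs_sub _ _
    _ ≤ Q * (ε1 * L) + Q * (ε1 * L) := by linarith
    _ = ε * L := b3

end Pool.Agent.AP
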