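import Pool.Agent.Helper8.AP.K0b
import Pool.Agent.Helper82.AP.ALG

/-!
# Project A' (MP_8958e8): `⟨b₁, b₂⟩` at shift zero: recursion over the intervals, complete sums
-/

open MeasureTheory Set Filter Topology
open Pool.Agent.Helper57.Zeta Pool.Agent.Helper57.PC Pool.Agent.Helper57.LH Pool.Agent.Helper78.SG
open Pool.Agent.Helper4.SH (om)
open Pool.Agent.Helper69.FF Pool.Agent.Helper57.KP
open scoped ContDiff

set_option autoImplicit false

namespace Pool.Agent.AP
namespace K0cAux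

open K0bAux

lemma mf_not_sqf {r : ℕ} (h : ¬ Squarefree r) : mf r = 0 := by
  unfold mf
  rw [ArithmeticFunction.moebius_eq_zero_of_not_squarefree h]
  simp

lemma mf_prime_mul {p r : ℕ} (hp : p.Prime) (h : Nat.Coprime p r) :
    mf (p * r) = -(1 / ((p : ℝ) - 1)) * mf r := by
  unfold mf
  rw [ArithmeticFunction.isMultiplicative_moebius.map_mul_of_coprime h, ArithmeticFunction.moebius_apply_prime hp,
    Nat.totient_mul h, Nat.totient_prime hp]
  have h1 : (1 : ℝ) < p := by exact_mod_cast hp.one_lt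
  have h2 : ((p - 1 : ℕ) : ℝ) = (p : ℝ) - 1 := by
    rw [Nat.cast_sub hp.one_lt.le]
    simp
  push_cast
  rw [h2, mul_comm ((p : ℝ) - 1) _, ← div_div]
  have h3 : (p : ℝ) - 1 ≠ 0 := by linarith
  ring

/-- `c_r(pn) = c_r(n)` for `p ∤ r` -/
lemma cr_mul_cop {r p : ℕ} (h : Nat.Coprime r p) (n : ℤ) : cr r (p * n) = cr r n :=
  cr_mul_coprime (Nat.isCoprime_iff_coprime.2 h) n

/-- one prime out of the argument -/
lemma lamQ_prime {q p Z : ℕ} (hp : p.Prime) (hpq : Nat.Coprime p q) (n : ℤ) :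
    lamQ q Z (p * n) = lamQ (q * p) Z n - lamQ (q * p) (Z / p) n := by
  have h1 : lamQ q Z (p * n) =
      ∑ r ∈ ((Finset.Icc 1 Z).filter (fun r => Nat.Coprime r q)).filter (fun r => p ∣ r), mf r * cr r (p * n) +
      ∑ r ∈ ((Finset.Icc 1 Z).filter (fun r => Nat.Coprime r q)).filter (fun r => ¬ p ∣ r), mf r * cr r (p * n) := by
    unfold lamQ
    rw [Finset.sum_filter_add_sum_filter_not]
  have h2 : ∑ r ∈ ((Finset.Icc 1 Z).filter (fun r => Nat.Coprime r q)).filter (fun r => ¬ p ∣ r), mf r * cr r (p * n) =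
      lamQ (q * p) Z n := by
    unfold lamQ
    refine Finset.sum_congr ?_ ?_
    · ext r
      simp only [Finset.mem_filter]
      constructor
      · rintro ⟨⟨h3, h4⟩, h5⟩
        exact ⟨h3, h4.mul_right ((hp.coprime_iff_not_dvd.2 h5).symm)⟩
      · rintro ⟨h3, h4⟩
        exact ⟨⟨h3, h4.coprime_mul_right_right⟩,
          hp.coprime_iff_not_dvd.1 (h4.coprime_mul_left_right).symm⟩
    · intro r hr
      simp only [Finset.mem_filter] at hr
      rw [cr_mul_cop (hr.2.coprime_mul_left_right)]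
  have h3 : ∑ r ∈ ((Finset.Icc 1 Z).filter (fun r => Nat.Coprime r q)).filter (fun r => p ∣ r), mf r * cr r (p * n) =
      -lamQ (q * p) (Z / p) n := by
    unfold lamQ
    rw [← Finset.sum_neg_distrib]
    symm
    refine Finset.sum_bij_ne_zero (fun r _ _ => p * r) ?_ ?_ ?_ ?_
    · intro r hr _
      simp only [Finset.mem_filter, Finset.mem_Icc] at hr ⊢
      refine ⟨⟨⟨Nat.mul_pos hp.pos hr.1.1, ?_⟩, ?_⟩, dvd_mul_right _ _⟩
      · rw [mul_comm]
        exact (Nat.le_div_iff_mul_le hp.pos).1 hr.1.2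
      · exact Nat.Coprime.mul_left hpq hr.2.coprime_mul_right_right
    · intro r _ _ r' _ _ h
      exact Nat.eq_of_mul_eq_mul_left hp.pos h
    · intro r hr hne
      simp only [Finset.mem_filter, Finset.mem_Icc] at hr
      obtain ⟨⟨⟨h4, h5⟩, h6⟩, ⟨r', rfl⟩⟩ := hr
      have hsq : Squarefree (p * r') := by
        by_contra h7
        rw [mf_not_sqf h7, zero_mul] at hne
        exact hne rfl
      have hcop : Nat.Coprime p r' := Nat.coprime_of_squarefree_mul hsq
      have hr'0 : 1 ≤ r' := by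
        rcases Nat.eq_zero_or_pos r' with h | h
        · subst h; omega
        · exact h
      refine ⟨r', ?_, ?_, rfl⟩
      · simp only [Finset.mem_filter, Finset.mem_Icc]
        refine ⟨⟨hr'0, (Nat.le_div_iff_mul_le hp.pos).2 (by rw [mul_comm]; exact h5)⟩, ?_⟩
        exact (Nat.Coprime.coprime_mul_left h6).mul_right hcop.symm
      · intro h8
        apply hne
        have h9 : mf (p * r') * cr (p * r') (p * n) = -(mf r' * cr r' n) := by
          rw [mf_prime_mul hp hcop, cr_coprime_mul hcop, cr_prime hp, if_pos (dvd_mul_right _ _),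
            cr_mul_cop hcop.symm]
          have h1 : (1 : ℝ) < p := by exact_mod_cast hp.one_lt
          have h3 : (p : ℝ) - 1 ≠ 0 := by linarith
          field_simp
        rw [h9, h8]
    · intro r hr _
      simp only [Finset.mem_filter, Finset.mem_Icc] at hr
      have hcop : Nat.Coprime p r := (hr.2.coprime_mul_left_right).symm
      rw [mf_prime_mul hp hcop, cr_coprime_mul hcop, cr_prime hp, if_pos (dvd_mul_right _ _),
        cr_mul_cop hcop.symm]
      have h1 : (1 : ℝ) < p := by exact_mod_cast hp.one_lt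
      have h3 : (p : ℝ) - 1 ≠ 0 := by linarith
      field_simp
  rw [h1, h2, h3]
  ring

lemma lamQ_one (Z : ℕ) (n : ℤ) : lamQ 1 Z n = lamR Z n := by
  unfold lamQ lamR
  refine Finset.sum_congr ?_ fun _ _ => rfl
  ext r
  simp

lemma omI_mul_prime {I : Finset ℕ} (hI : ∀ q ∈ I, q.Prime) {p : ℕ} (hp : p.Prime) (hpI : p ∉ I) (n : ℤ) :
    omI I (p * n) = omI I n := by
  unfold omI
  refine Finset.sum_congr rfl fun q hq => ?_
  have h1 : IsCoprime (q : ℤ) (p : ℤ) := by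
    rw [Nat.isCoprime_iff_coprime, Nat.coprime_primes (hI q hq) hp]
    rintro rfl
    exact hpI hq
  have h2 : (q : ℤ) ∣ (p : ℤ) * n ↔ (q : ℤ) ∣ n := ⟨fun h => h1.dvd_of_dvd_mul_left h, fun h => h.mul_left _⟩
  by_cases h3 : (q : ℤ) ∣ n
  · rw [if_pos h3, if_pos (h2.2 h3)]
  · rw [if_neg h3, if_neg (fun h4 => h3 (h2.1 h4))]

/-- the sums of the recursion -/
noncomputable def Ph (W : ℝ → ℝ) (R : ℝ) (B : ℕ) (v T : ℝ) (es : List ℝ) (q Z : ℕ) (c : ℝ) : ℝ :=
  Sm W R c (fun n : ℕ => lamQ q Z n * bb B (IL es v T) n)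

/-- their models -/
noncomputable def Mod (V : ℝ) (B : ℕ) (v T : ℝ) : List ℝ → ℕ → ℝ
  | [], Z => V * GG 1 (min B Z)
  | x :: es, Z => ∑ p ∈ IP x v T, 1 / ((p : ℝ) - 1) * Mod V B v T es (Z / p)

lemma Mod_zero (V : ℝ) (B : ℕ) (v : ℝ) {T : ℝ} (hT : 1 ≤ T) : ∀ (es : List ℝ) (Z : ℕ), (Z : ℝ) < T ^ es.sum →
    Mod V B v T es Z = 0 := by
  intro es
  induction es with
  | nil =>
    intro Z hZ
    rw [List.sum_nil, Real.rpow_zero] at hZ
    have : Z = 0 := by
      have : Z < 1 := by exact_mod_cast hZ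
      omega
    subst this
    simp [Mod, GG]
  | cons x es ih =>
    intro Z hZ
    rw [List.sum_cons, Real.rpow_add (by linarith)] at hZ
    simp only [Mod]
    refine Finset.sum_eq_zero fun p hp => ?_
    obtain ⟨hp1, hp2, hp3⟩ := mem_IP hp
    rw [ih (Z / p), mul_zero]
    have hp0 : (0 : ℝ) < p := by exact_mod_cast hp1.pos
    have h1 : ((Z / p : ℕ) : ℝ) ≤ Z / p := Nat.cast_div_le
    refine h1.trans_lt ?_
    rw [div_lt_iff₀ hp0]
    have h2 : 0 < T ^ es.sum := Real.rpow_pos_of_pos (by linarith) _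
    calc (Z : ℝ) < T ^ x * T ^ es.sum := hZ
      _ ≤ p * T ^ es.sum := by gcongr
      _ = T ^ es.sum * p := mul_comm _ _

/-- recursion -/
lemma Ph_cons (hSD : Stmt_Sm_dvd) {W : ℝ → ℝ} {R : ℝ} (hW : PF W R) {B : ℕ} {v T : ℝ} (hT : 1 ≤ T) (x : ℝ) (es : List ℝ)
    (hx : ∀ y ∈ es, x + v < y) (hB : (B : ℝ) < T ^ x) (q Z : ℕ) (hq : ∀ p ∈ IP x v T, Nat.Coprime p q) (c : ℝ) :
    Ph W R B v T (x :: es) q Z c = ∑ p ∈ IP x v T, 1 / ((p : ℝ) - 1) * (Ph W R B v T es q Z c -
      (Ph W R B v T es (q * p) Z (c - Real.log p) - Ph W R B v T es (q * p) (Z / p) (c - Real.log p))) := by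
  have hIp : ∀ p ∈ IP x v T, p.Prime := fun p hp => (mem_IP hp).1
  have h1 : ∀ n : ℕ, lamQ q Z n * bb B (IL (x :: es) v T) n = cI (IP x v T) * (lamQ q Z n * bb B (IL es v T) n) +
      ∑ p ∈ IP x v T, (-((p : ℝ) / ((p : ℝ) - 1))) * (if p ∣ n then
        (fun m : ℕ => lamQ (q * p) Z m * bb B (IL es v T) m + (-1) * (lamQ (q * p) (Z / p) m * bb B (IL es v T) m)) (n / p)
        else 0) := by
    intro n
    have h2 : ∀ p ∈ IP x v T, (-((p : ℝ) / ((p : ℝ) - 1))) * (if p ∣ n then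
        (fun m : ℕ => lamQ (q * p) Z m * bb B (IL es v T) m + (-1) * (lamQ (q * p) (Z / p) m * bb B (IL es v T) m)) (n / p)
        else 0) = (-(if (p : ℤ) ∣ (n : ℤ) then (p : ℝ) / ((p : ℝ) - 1) else 0)) * (lamQ q Z n * bb B (IL es v T) n) := by
      intro p hp
      obtain ⟨hp1, hp2, hp3⟩ := mem_IP hp
      by_cases h3 : p ∣ n
      · rw [if_pos h3, if_pos (by exact_mod_cast h3)]
        obtain ⟨m, rfl⟩ := h3
        rw [Nat.mul_div_cancel_left _ hp1.pos]
        have h4 : bb B (IL es v T) ((p * m : ℕ) : ℤ) = bb B (IL es v T) (m : ℤ) := by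
          unfold bb IL
          push_cast
          rw [lamR_mul_prime hp1 (by exact_mod_cast hB.trans hp2), List.map_map, List.map_map]
          congr 2
          refine List.map_congr_left fun y hy => ?_
          show cI (IP y v T) - omI (IP y v T) (p * m) = cI (IP y v T) - omI (IP y v T) m
          rw [omI_mul_prime (fun q hq => (mem_IP hq).1) hp1 ?_]
          intro hpy
          have h4 := (mem_IP hpy).2.1
          have h5 : T ^ (x + v) ≤ T ^ y := Real.rpow_le_rpow_of_exponent_le hT (hx y hy).le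
          linarith
        have h5 : lamQ q Z ((p * m : ℕ) : ℤ) = lamQ (q * p) Z m - lamQ (q * p) (Z / p) m := by
          push_cast
          exact lamQ_prime hp1 (hq p hp) m
        rw [h4, h5]
        beta_reduce
        ring
      · rw [if_neg h3, if_neg (by exact_mod_cast h3)]
        ring
    rw [Finset.sum_congr rfl h2, ← Finset.sum_mul, Finset.sum_neg_distrib]
    unfold bb IL omI
    rw [List.map_cons, List.map_cons, List.prod_cons]
    ring
  have h6 : Ph W R B v T (x :: es) q Z c = Sm W R c (fun n => cI (IP x v T) * (lamQ q Z n * bb B (IL es v T) n) +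
      ∑ p ∈ IP x v T, (-((p : ℝ) / ((p : ℝ) - 1))) * (if p ∣ n then
        (fun m : ℕ => lamQ (q * p) Z m * bb B (IL es v T) m + (-1) * (lamQ (q * p) (Z / p) m * bb B (IL es v T) m)) (n / p)
        else 0)) := by
    unfold Ph
    congr 1
    funext n
    exact h1 n
  rw [h6, Sm_add, Sm_mul, Sm_sum]
  have h7 : ∀ p ∈ IP x v T, Sm W R c (fun n => (-((p : ℝ) / ((p : ℝ) - 1))) * (if p ∣ n then
        (fun m : ℕ => lamQ (q * p) Z m * bb B (IL es v T) m + (-1) * (lamQ (q * p) (Z / p) m * bb B (IL es v T) m)) (n / p)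
        else 0)) = 1 / ((p : ℝ) - 1) * (-(Ph W R B v T es (q * p) Z (c - Real.log p) -
          Ph W R B v T es (q * p) (Z / p) (c - Real.log p))) := by
    intro p hp
    have hp1 : (1 : ℝ) < p := by exact_mod_cast (hIp p hp).one_lt
    rw [Sm_mul, hSD hW c (fun m : ℕ => lamQ (q * p) Z m * bb B (IL es v T) m +
      (-1) * (lamQ (q * p) (Z / p) m * bb B (IL es v T) m)) (hIp p hp).one_lt.le, Sm_add, Sm_mul]
    unfold Ph
    have h3 : (p : ℝ) - 1 ≠ 0 := by linarith
    have h4 : (p : ℝ) ≠ 0 := by linarith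
    field_simp
    ring
  rw [Finset.sum_congr rfl h7]
  have h8 : cI (IP x v T) * Sm W R c (fun n => lamQ q Z n * bb B (IL es v T) n) =
      ∑ p ∈ IP x v T, 1 / ((p : ℝ) - 1) * Ph W R B v T es q Z c := by
    unfold cI Ph
    rw [Finset.sum_mul]
  rw [h8, ← Finset.sum_add_distrib]
  refine Finset.sum_congr rfl fun p _ => ?_
  ring

/-- the base: complete sums -/
lemma lamQ_sum (hco : Stmt_corr) (B q Z N : ℕ) (hq : ∀ r, 1 ≤ r → r ≤ B → Nat.Coprime r q) :
    |∑ n ∈ Finset.Icc 1 N, lamQ q Z (n : ℤ) * lamR B (n : ℤ) - GG 1 (min B Z) * N| ≤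
    2 * ((∑ r ∈ (Finset.Icc 1 Z).filter Squarefree, ((ArithmeticFunction.sigma 1 r : ℕ) : ℝ) / Nat.totient r) *
      ∑ r ∈ (Finset.Icc 1 B).filter Squarefree, ((ArithmeticFunction.sigma 1 r : ℕ) : ℝ) / Nat.totient r) := by
  set S := ((Finset.Icc 1 Z).filter Squarefree).filter (fun r => Nat.Coprime r q) with hS
  set S' := (Finset.Icc 1 B).filter Squarefree with hS'
  have hSm : ∀ r ∈ S, 1 ≤ r ∧ Squarefree r := by
    intro r hr
    rw [hS, Finset.mem_filter, Finset.mem_filter, Finset.mem_Icc] at hr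
    exact ⟨hr.1.1.1, hr.1.2⟩
  have hSm' : ∀ r ∈ S', 1 ≤ r ∧ Squarefree r := by
    intro r hr
    rw [hS', Finset.mem_filter, Finset.mem_Icc] at hr
    exact ⟨hr.1.1, hr.2⟩
  have hlQ : ∀ n : ℤ, lamQ q Z n = ∑ r ∈ S, mf r * cr r n := by
    intro n
    unfold lamQ
    rw [hS, Finset.filter_filter]
    symm
    refine Finset.sum_subset ?_ ?_
    · intro r hr
      rw [Finset.mem_filter] at hr ⊢
      exact ⟨hr.1, hr.2.2⟩
    · intro r hr hr'
      rw [Finset.mem_filter] at hr hr'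
      have : ¬ Squarefree r := fun h => hr' ⟨hr.1, h, hr.2⟩
      rw [mf_not_sqf this, zero_mul]
  have hI : Finset.Icc 1 N = Finset.Ioc 0 N := by ext; simp [Nat.succ_le_iff]
  have h1 : ∑ n ∈ Finset.Icc 1 N, lamQ q Z (n : ℤ) * lamR B (n : ℤ) =
      ∑ r ∈ S, ∑ r' ∈ S', mf r * mf r' * ∑ n ∈ Finset.Ioc 0 N, cr r n * cr r' ((n : ℤ) + 0) := by
    rw [hI]
    have : ∀ n : ℕ, lamQ q Z (n : ℤ) * lamR B (n : ℤ) =
        ∑ r ∈ S, ∑ r' ∈ S', mf r * mf r' * (cr r n * cr r' ((n : ℤ) + 0)) := by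
      intro n
      rw [lamR_eq_sqf, ← hS', hlQ, Finset.sum_mul_sum]
      refine Finset.sum_congr rfl fun r _ => Finset.sum_congr rfl fun r' _ => ?_
      rw [add_zero]
      ring
    simp_rw [this]
    rw [Finset.sum_comm]
    refine Finset.sum_congr rfl fun r _ => ?_
    rw [Finset.sum_comm]
    refine Finset.sum_congr rfl fun r' _ => ?_
    rw [Finset.mul_sum]
  have h2 : GG 1 (min B Z) * N = ∑ r ∈ S, ∑ r' ∈ S', mf r * mf r' * ((if r = r' then cr r 0 else 0) * ((N : ℝ) - (0 : ℕ))) := by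
    have e1 : ∀ r ∈ S, ∑ r' ∈ S', mf r * mf r' * ((if r = r' then cr r 0 else 0) * ((N : ℝ) - (0 : ℕ))) =
        if r ≤ B then 1 / (Nat.totient r : ℝ) * N else 0 := by
      intro r hr
      by_cases hrB : r ≤ B
      · rw [if_pos hrB]
        have hr' : r ∈ S' := by
          rw [hS', Finset.mem_filter, Finset.mem_Icc]
          exact ⟨⟨(hSm r hr).1, hrB⟩, (hSm r hr).2⟩
        rw [Finset.sum_eq_single_of_mem r hr']
        · rw [if_pos rfl, cr_zero (hSm r hr).1, Nat.cast_zero, sub_zero]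
          have h3 := mf_sq (hSm r hr).2
          have h4 : (0 : ℝ) < Nat.totient r := by
            exact_mod_cast Nat.totient_pos.2 (hSm r hr).1
          rw [show mf r * mf r * ((Nat.totient r : ℝ) * N) = mf r ^ 2 * (Nat.totient r : ℝ) * N by ring, h3]
          field_simp
        · intro r' _ hne
          rw [if_neg (Ne.symm hne)]
          ring
      · rw [if_neg hrB]
        refine Finset.sum_eq_zero fun r' hr' => ?_
        rw [hS', Finset.mem_filter, Finset.mem_Icc] at hr'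
        rw [if_neg (by omega)]
        ring
    rw [Finset.sum_congr rfl e1, ← Finset.sum_filter, ← Finset.sum_mul]
    congr 1
    unfold GG
    refine Finset.sum_congr ?_ fun _ _ => rfl
    ext r
    simp only [hS, Finset.mem_filter, Finset.mem_Icc, le_min_iff, Nat.coprime_one_right_eq_true, and_true]
    constructor
    · rintro ⟨⟨h3, h4, h5⟩, h6⟩
      exact ⟨⟨⟨⟨h3, h5⟩, h6⟩, hq r h3 h4⟩, h4⟩
    · rintro ⟨⟨⟨⟨h3, h5⟩, h6⟩, _⟩, h4⟩
      exact ⟨⟨h3, h4, h5⟩, h6⟩
  rw [h1, h2, ← Finset.sum_sub_distrib]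
  refine (Finset.abs_sum_le_sum_abs _ _).trans ?_
  have h3 : ∀ r ∈ S, |∑ r' ∈ S', mf r * mf r' * ∑ n ∈ Finset.Ioc 0 N, cr r n * cr r' ((n : ℤ) + 0) -
      ∑ r' ∈ S', mf r * mf r' * ((if r = r' then cr r 0 else 0) * ((N : ℝ) - (0 : ℕ)))| ≤
      ∑ r' ∈ S', 2 * ((((ArithmeticFunction.sigma 1 r : ℕ) : ℝ) / Nat.totient r) *
        (((ArithmeticFunction.sigma 1 r' : ℕ) : ℝ) / Nat.totient r')) := by
    intro r hr
    rw [← Finset.sum_sub_distrib]
    refine (Finset.abs_sum_le_sum_abs _ _).trans (Finset.sum_le_sum fun r' hr' => ?_)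
    rw [← mul_sub, abs_mul, abs_mul, abs_mf (hSm r hr).2, abs_mf (hSm' r' hr').2]
    have h4 := hco (hSm r hr).2 (hSm' r' hr').2 0 (Nat.zero_le N)
    calc _ ≤ 1 / (Nat.totient r : ℝ) * (1 / (Nat.totient r' : ℝ)) *
          (2 * ((ArithmeticFunction.sigma 1 r : ℕ) : ℝ) * ((ArithmeticFunction.sigma 1 r' : ℕ) : ℝ)) :=
          mul_le_mul_of_nonneg_left h4 (by positivity)
      _ = _ := by ring
  refine (Finset.sum_le_sum h3).trans ?_
  have h5 : ∑ r ∈ S, ∑ r' ∈ S', 2 * ((((ArithmeticFunction.sigma 1 r : ℕ) : ℝ) / Nat.totient r) *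
        (((ArithmeticFunction.sigma 1 r' : ℕ) : ℝ) / Nat.totient r')) =
      2 * ((∑ r ∈ S, ((ArithmeticFunction.sigma 1 r : ℕ) : ℝ) / Nat.totient r) *
        ∑ r ∈ S', ((ArithmeticFunction.sigma 1 r : ℕ) : ℝ) / Nat.totient r) := by
    rw [Finset.sum_mul_sum, Finset.mul_sum]
    refine Finset.sum_congr rfl fun r _ => ?_
    rw [Finset.mul_sum]
  rw [h5]
  refine mul_le_mul_of_nonneg_left (mul_le_mul_of_nonneg_right ?_ (Finset.sum_nonneg fun _ _ => by positivity)) (by norm_num)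
  refine Finset.sum_le_sum_of_subset_of_nonneg ?_ (fun _ _ _ => by positivity)
  rw [hS]
  exact Finset.filter_subset _ _

end K0cAux
end Pool.Agent.AP

namespace Pool.Agent.AP
namespace K0cAux

open K0bAux

/-- product of `3 c_I` -/
noncomputable def P3 (v T : ℝ) (es : List ℝ) : ℝ := (es.map fun y => 3 * cI (IP y v T)).prod

lemma P3_nonneg (v T : ℝ) (es : List ℝ) : 0 ≤ P3 v T es := by
  refine List.prod_nonneg fun z hz => ?_
  rw [List.mem_map] at hz
  obtain ⟨y, hy, rfl⟩ := hz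
  have := cI_nonneg (I := IP y v T) (fun q hq => (mem_IP hq).1)
  positivity

lemma cop_of_lt {p r : ℕ} (hp : p.Prime) (hr : 1 ≤ r) (h : r < p) : Nat.Coprime r p := by
  refine (hp.coprime_iff_not_dvd.2 fun hd => ?_).symm
  have := Nat.le_of_dvd (by omega) hd
  omega

/-- one step of the recursion for the errors -/
lemma step (hSD : Stmt_Sm_dvd) {W : ℝ → ℝ} {R : ℝ} (hW : PF W R) {B : ℕ} {v T V : ℝ} (hT : 1 ≤ T) (x : ℝ) (es : List ℝ)
    (hx : ∀ y ∈ es, x + v < y) (hB : (B : ℝ) < T ^ x) (q Z : ℕ) (hq : ∀ p ∈ IP x v T, Nat.Coprime p q) (c E : ℝ)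
    (h1 : |Ph W R B v T es q Z c - Mod V B v T es Z| ≤ P3 v T es * E)
    (h2 : ∀ p ∈ IP x v T, |Ph W R B v T es (q * p) Z (c - Real.log p) - Mod V B v T es Z| ≤ P3 v T es * E)
    (h3 : ∀ p ∈ IP x v T, |Ph W R B v T es (q * p) (Z / p) (c - Real.log p) - Mod V B v T es (Z / p)| ≤ P3 v T es * E) :
    |Ph W R B v T (x :: es) q Z c - Mod V B v T (x :: es) Z| ≤ P3 v T (x :: es) * E := by
  rw [Ph_cons hSD hW hT x es hx hB q Z hq c]
  simp only [Mod]
  rw [← Finset.sum_sub_distrib]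
  refine (Finset.abs_sum_le_sum_abs _ _).trans ?_
  have h4 : ∀ p ∈ IP x v T, |1 / ((p : ℝ) - 1) * (Ph W R B v T es q Z c -
      (Ph W R B v T es (q * p) Z (c - Real.log p) - Ph W R B v T es (q * p) (Z / p) (c - Real.log p))) -
      1 / ((p : ℝ) - 1) * Mod V B v T es (Z / p)| ≤ 1 / ((p : ℝ) - 1) * (3 * (P3 v T es * E)) := by
    intro p hp
    have hp1 : (1 : ℝ) < p := by exact_mod_cast (mem_IP hp).1.one_lt
    have hp2 : 0 < (p : ℝ) - 1 := by linarith
    have hp3 : 0 ≤ 1 / ((p : ℝ) - 1) := by positivity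
    rw [← mul_sub, abs_mul, abs_of_nonneg hp3]
    refine mul_le_mul_of_nonneg_left ?_ hp3
    have a1 := abs_le.1 h1
    have a2 := abs_le.1 (h2 p hp)
    have a3 := abs_le.1 (h3 p hp)
    rw [abs_le]
    constructor <;> linarith
  refine (Finset.sum_le_sum h4).trans (le_of_eq ?_)
  rw [← Finset.sum_mul]
  unfold P3
  rw [List.map_cons, List.prod_cons]
  show cI (IP x v T) * _ = _
  ring

/-- complete sums -/
lemma complete (hSD : Stmt_Sm_dvd) {W : ℝ → ℝ} {R : ℝ} (hW : PF W R) {B Z1 : ℕ} {v T V c0 E X : ℝ} (hT : 1 < T) (hv : 0 ≤ v)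
    (hbase : ∀ (q Z : ℕ) (c : ℝ), Z ≤ Z1 → (∀ r, 1 ≤ r → r ≤ B → Nat.Coprime r q) → c0 ≤ c → (Z : ℝ) * B * Real.exp (-c) ≤ X →
      |Ph W R B v T [] q Z c - Mod V B v T [] Z| ≤ E) :
    ∀ es : List ℝ, (∀ x ∈ es, 0 ≤ x ∧ (B : ℝ) < T ^ x) → es.Pairwise (fun x y => x + v < y) → ∀ (q Z : ℕ) (c : ℝ), Z ≤ Z1 →
      (∀ r, 1 ≤ r → r ≤ B → Nat.Coprime r q) → (∀ x ∈ es, ∀ p ∈ IP x v T, Nat.Coprime p q) →
      c0 + (es.sum + es.length * v) * Real.log T ≤ c → (Z : ℝ) * B * Real.exp (-c) * T ^ (es.sum + es.length * v) ≤ X →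
      |Ph W R B v T es q Z c - Mod V B v T es Z| ≤ P3 v T es * E := by
  have hT0 : 0 < T := by linarith
  have hlT : 0 ≤ Real.log T := Real.log_nonneg hT.le
  intro es
  induction es with
  | nil =>
    intro _ _ q Z c hZ h1 _ h3 h4
    have e1 : P3 v T [] = 1 := by simp [P3]
    rw [e1, one_mul]
    refine hbase q Z c hZ h1 (by simpa using h3) (by simpa using h4)
  | cons x es ih =>
    intro hes hp q Z c hZ h1 h2 h3 h4
    rw [List.pairwise_cons] at hp
    have hx := hes x List.mem_cons_self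
    have hes' : ∀ y ∈ es, 0 ≤ y ∧ (B : ℝ) < T ^ y := fun y hy => hes y (List.mem_cons_of_mem x hy)
    have h2' : ∀ y ∈ es, ∀ p ∈ IP y v T, Nat.Coprime p q := fun y hy => h2 y (List.mem_cons_of_mem x hy)
    rw [List.sum_cons, List.length_cons] at h3 h4
    push_cast at h3 h4
    set Sg := es.sum + es.length * v with hSg
    have e1 : x + es.sum + ((es.length : ℝ) + 1) * v = (x + v) + Sg := by rw [hSg]; ring
    rw [e1] at h3 h4
    rw [add_mul] at h3
    rw [Real.rpow_add hT0] at h4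
    have hxv : 0 ≤ (x + v) * Real.log T := mul_nonneg (by linarith [hx.1]) hlT
    have hTxv : 1 ≤ T ^ (x + v) := Real.one_le_rpow hT.le (by linarith [hx.1])
    have hTS : 0 < T ^ Sg := Real.rpow_pos_of_pos hT0 _
    have hZ0 : 0 ≤ (Z : ℝ) * B * Real.exp (-c) := by positivity
    have hskip : (Z : ℝ) * B * Real.exp (-c) * T ^ Sg ≤ X := by
      refine le_trans ?_ h4
      calc (Z : ℝ) * B * Real.exp (-c) * T ^ Sg = (Z : ℝ) * B * Real.exp (-c) * (1 * T ^ Sg) := by rw [one_mul]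
        _ ≤ _ := by gcongr
    have hdata : ∀ p ∈ IP x v T, p.Prime ∧ (0 : ℝ) < p ∧ (p : ℝ) ≤ T ^ (x + v) ∧ Real.log p ≤ (x + v) * Real.log T ∧
        (∀ r, 1 ≤ r → r ≤ B → Nat.Coprime r (q * p)) ∧ (∀ y ∈ es, ∀ p' ∈ IP y v T, Nat.Coprime p' (q * p)) ∧
        Real.exp (-(c - Real.log p)) = Real.exp (-c) * p := by
      intro p hpI
      obtain ⟨hp1, hp2, hp3⟩ := mem_IP hpI
      have hp0 : (0 : ℝ) < p := by exact_mod_cast hp1.pos
      refine ⟨hp1, hp0, hp3, ?_, ?_, ?_, ?_⟩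
      · rw [← Real.log_rpow hT0]
        exact Real.log_le_log hp0 hp3
      · intro r hr hrB
        refine (h1 r hr hrB).mul_right (cop_of_lt hp1 hr ?_)
        have : (r : ℝ) < p := by
          calc (r : ℝ) ≤ B := by exact_mod_cast hrB
            _ < T ^ x := hx.2
            _ < p := hp2
        exact_mod_cast this
      · intro y hy p' hp'
        refine (h2' y hy p' hp').mul_right ?_
        obtain ⟨hq1, hq2, hq3⟩ := mem_IP hp'
        rw [Nat.coprime_primes hq1 hp1]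
        rintro rfl
        have h5 : T ^ (x + v) ≤ T ^ y := Real.rpow_le_rpow_of_exponent_le hT.le (hp.1 y hy).le
        linarith
      · rw [neg_sub, sub_eq_add_neg, Real.exp_add, Real.exp_log hp0, mul_comm]
    refine step hSD hW hT.le x es hp.1 hx.2 q Z (h2 x List.mem_cons_self) c E ?_ ?_ ?_
    · exact ih hes' hp.2 q Z c hZ h1 h2' (by linarith) hskip
    · intro p hpI
      obtain ⟨hp1, hp0, hp3, hp4, hp5, hp6, hp7⟩ := hdata p hpI
      refine ih hes' hp.2 (q * p) Z (c - Real.log p) hZ hp5 hp6 (by linarith) ?_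
      rw [hp7]
      refine le_trans ?_ h4
      calc (Z : ℝ) * B * (Real.exp (-c) * p) * T ^ Sg = (Z : ℝ) * B * Real.exp (-c) * (p * T ^ Sg) := by ring
        _ ≤ _ := by gcongr
    · intro p hpI
      obtain ⟨hp1, hp0, hp3, hp4, hp5, hp6, hp7⟩ := hdata p hpI
      refine ih hes' hp.2 (q * p) (Z / p) (c - Real.log p) ((Nat.div_le_self _ _).trans hZ) hp5 hp6 (by linarith) ?_
      rw [hp7]
      refine le_trans ?_ hskip
      have h6 : ((Z / p : ℕ) : ℝ) ≤ Z / p := Nat.cast_div_le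
      calc ((Z / p : ℕ) : ℝ) * B * (Real.exp (-c) * p) * T ^ Sg ≤ ((Z : ℝ) / p) * B * (Real.exp (-c) * p) * T ^ Sg := by
            gcongr
        _ = _ := by field_simp

/-- the sums with all primes in the modulus and full length -/
lemma flagged (hSD : Stmt_Sm_dvd) {W : ℝ → ℝ} {R : ℝ} (hW : PF W R) {B R1 : ℕ} {v T V D c0 cl cu E E1 X : ℝ} (hT : 1 < T) (hv : 0 ≤ v)
    (hEE : E ≤ E1) (hB1 : (B : ℝ) < T ^ D) (hcl : c0 ≤ cl)
    (hX : (R1 : ℝ) * B * Real.exp (-cl) * T ^ (-D) ≤ X)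
    (hbase : ∀ (q Z : ℕ) (c : ℝ), Z ≤ R1 → (∀ r, 1 ≤ r → r ≤ B → Nat.Coprime r q) → c0 ≤ c → (Z : ℝ) * B * Real.exp (-c) ≤ X →
      |Ph W R B v T [] q Z c - Mod V B v T [] Z| ≤ E)
    (hfull : ∀ (q : ℕ) (c : ℝ), Squarefree q → (∀ p, p.Prime → p ∣ q → T ^ D < (p : ℝ)) → (q : ℝ) ≤ T ^ 2 → cl ≤ c → c ≤ cu →
      |Ph W R B v T [] q R1 c - Mod V B v T [] R1| ≤ E1) :
    ∀ es : List ℝ, (∀ x ∈ es, 0 ≤ x ∧ D ≤ x) → es.Pairwise (fun x y => x + v < y) → ∀ (q : ℕ) (c : ℝ),
      Squarefree q → (∀ p, p.Prime → p ∣ q → T ^ D < (p : ℝ)) →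
      (q : ℝ) * T ^ (es.sum + es.length * v) ≤ T ^ 2 → (∀ x ∈ es, ∀ p ∈ IP x v T, Nat.Coprime p q) →
      cl + (es.sum + es.length * v) * Real.log T ≤ c → c ≤ cu + es.sum * Real.log T →
      |Ph W R B v T es q R1 c - Mod V B v T es R1| ≤ P3 v T es * E1 := by
  have hT0 : 0 < T := by linarith
  have hlT : 0 ≤ Real.log T := Real.log_nonneg hT.le
  intro es
  induction es with
  | nil =>
    intro _ _ q c h1 h2 h3 _ h5 h6
    have e1 : P3 v T [] = 1 := by simp [P3]
    rw [e1, one_mul]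
    exact hfull q c h1 h2 (by simpa using h3) (by simpa using h5) (by simpa using h6)
  | cons x es ih =>
    intro hes hp q c h1 h2 h3 h4 h5 h6
    rw [List.pairwise_cons] at hp
    have hx := hes x List.mem_cons_self
    have hes' : ∀ y ∈ es, 0 ≤ y ∧ D ≤ y := fun y hy => hes y (List.mem_cons_of_mem x hy)
    have hesB : ∀ y ∈ es, 0 ≤ y ∧ (B : ℝ) < T ^ y := fun y hy =>
      ⟨(hes' y hy).1, hB1.trans_le (Real.rpow_le_rpow_of_exponent_le hT.le (hes' y hy).2)⟩
    have hxB : (B : ℝ) < T ^ x := hB1.trans_le (Real.rpow_le_rpow_of_exponent_le hT.le hx.2)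
    have h4' : ∀ y ∈ es, ∀ p ∈ IP y v T, Nat.Coprime p q := fun y hy => h4 y (List.mem_cons_of_mem x hy)
    rw [List.sum_cons, List.length_cons] at h3 h5
    rw [List.sum_cons] at h6
    push_cast at h3 h5
    set Sg := es.sum + es.length * v with hSg
    have e1 : x + es.sum + ((es.length : ℝ) + 1) * v = (x + v) + Sg := by rw [hSg]; ring
    rw [e1] at h3 h5
    rw [add_mul] at h5 h6
    rw [Real.rpow_add hT0] at h3
    have hxv : 0 ≤ (x + v) * Real.log T := mul_nonneg (by linarith [hx.1]) hlT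
    have hTS : 0 < T ^ Sg := Real.rpow_pos_of_pos hT0 _
    have hrq : ∀ r, 1 ≤ r → r ≤ B → Nat.Coprime r q := by
      intro r hr hrB
      rw [Nat.coprime_comm]
      refine Nat.Coprime.symm (Nat.coprime_of_dvd fun p hp1 hpr hpq => ?_)
      have a1 := h2 p hp1 hpq
      have a2 := Nat.le_of_dvd (by omega) hpr
      have a3 : (p : ℝ) ≤ B := by exact_mod_cast a2.trans hrB
      linarith
    have hskip : (R1 : ℝ) * B * Real.exp (-c) * T ^ Sg ≤ X := by
      refine le_trans ?_ hX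
      have a1 : Real.exp (-c) ≤ Real.exp (-cl) * (T ^ (-(x + v)) * T ^ (-Sg)) := by
        rw [Real.rpow_def_of_pos hT0, Real.rpow_def_of_pos hT0, ← Real.exp_add, ← Real.exp_add]
        refine Real.exp_le_exp.2 ?_
        linarith
      have a2 : T ^ (-(x + v)) ≤ T ^ (-D) := Real.rpow_le_rpow_of_exponent_le hT.le (by linarith [hx.2])
      have a3 : T ^ (-Sg) * T ^ Sg = 1 := by
        rw [← Real.rpow_add hT0]
        simp
      calc (R1 : ℝ) * B * Real.exp (-c) * T ^ Sg ≤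
            (R1 : ℝ) * B * (Real.exp (-cl) * (T ^ (-(x + v)) * T ^ (-Sg))) * T ^ Sg := by gcongr
        _ = (R1 : ℝ) * B * Real.exp (-cl) * T ^ (-(x + v)) * (T ^ (-Sg) * T ^ Sg) := by ring
        _ = (R1 : ℝ) * B * Real.exp (-cl) * T ^ (-(x + v)) := by rw [a3, mul_one]
        _ ≤ _ := by gcongr
    have hdata : ∀ p ∈ IP x v T, p.Prime ∧ (0 : ℝ) < p ∧ T ^ x < p ∧ (p : ℝ) ≤ T ^ (x + v) ∧ Real.log p ≤ (x + v) * Real.log T ∧
        x * Real.log T ≤ Real.log p ∧
        (∀ r, 1 ≤ r → r ≤ B → Nat.Coprime r (q * p)) ∧ (∀ y ∈ es, ∀ p' ∈ IP y v T, Nat.Coprime p' (q * p)) ∧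
        Real.exp (-(c - Real.log p)) = Real.exp (-c) * p := by
      intro p hpI
      obtain ⟨hp1, hp2, hp3⟩ := mem_IP hpI
      have hp0 : (0 : ℝ) < p := by exact_mod_cast hp1.pos
      refine ⟨hp1, hp0, hp2, hp3, ?_, ?_, ?_, ?_, ?_⟩
      · rw [← Real.log_rpow hT0]
        exact Real.log_le_log hp0 hp3
      · rw [← Real.log_rpow hT0]
        exact Real.log_le_log (Real.rpow_pos_of_pos hT0 _) hp2.le
      · intro r hr hrB
        refine (hrq r hr hrB).mul_right (cop_of_lt hp1 hr ?_)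
        have : (r : ℝ) < p := by
          calc (r : ℝ) ≤ B := by exact_mod_cast hrB
            _ < T ^ x := hxB
            _ < p := hp2
        exact_mod_cast this
      · intro y hy p' hp'
        refine (h4' y hy p' hp').mul_right ?_
        obtain ⟨hq1, hq2, hq3⟩ := mem_IP hp'
        rw [Nat.coprime_primes hq1 hp1]
        rintro rfl
        have h5 : T ^ (x + v) ≤ T ^ y := Real.rpow_le_rpow_of_exponent_le hT.le (hp.1 y hy).le
        linarith
      · rw [neg_sub, sub_eq_add_neg, Real.exp_add, Real.exp_log hp0, mul_comm]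
    have hP3 : P3 v T es * E ≤ P3 v T es * E1 := mul_le_mul_of_nonneg_left hEE (P3_nonneg v T es)
    have hcomp := complete hSD hW (V := V) hT hv hbase es hesB hp.2
    refine step hSD hW hT.le x es hp.1 hxB q R1 (h4 x List.mem_cons_self) c E1 ?_ ?_ ?_
    · exact (hcomp q R1 c le_rfl hrq h4' (by linarith) hskip).trans hP3
    · intro p hpI
      obtain ⟨hp1, hp0, hp2, hp3, hp4, hp4', hp5, hp6, hp7⟩ := hdata p hpI
      refine ih hes' hp.2 (q * p) (c - Real.log p) ?_ ?_ ?_ hp6 (by linarith) (by linarith)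
      · rw [Nat.squarefree_mul (h4 x List.mem_cons_self p hpI).symm]
        exact ⟨h1, hp1.prime.squarefree⟩
      · intro p' hp' hd
        rcases (Nat.Prime.dvd_mul hp').1 hd with h | h
        · exact h2 p' hp' h
        · rw [(Nat.prime_dvd_prime_iff_eq hp' hp1).1 h]
          exact (Real.rpow_le_rpow_of_exponent_le hT.le hx.2).trans_lt hp2
      · refine le_trans ?_ h3
        push_cast
        calc (q : ℝ) * p * T ^ Sg = (q : ℝ) * (p * T ^ Sg) := by ring
          _ ≤ _ := by gcongr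
    · intro p hpI
      obtain ⟨hp1, hp0, hp2, hp3, hp4, hp4', hp5, hp6, hp7⟩ := hdata p hpI
      refine (hcomp (q * p) (R1 / p) (c - Real.log p) (Nat.div_le_self _ _) hp5 hp6 (by linarith) ?_).trans hP3
      rw [hp7]
      refine le_trans ?_ hskip
      have h6 : ((R1 / p : ℕ) : ℝ) ≤ R1 / p := Nat.cast_div_le
      calc ((R1 / p : ℕ) : ℝ) * B * (Real.exp (-c) * p) * T ^ Sg ≤ ((R1 : ℝ) / p) * B * (Real.exp (-c) * p) * T ^ Sg := by
            gcongr
        _ = _ := by field_simp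

end K0cAux
end Pool.Agent.AP
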