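import Pool.Agent.Helper8.AP.K0c1
import Pool.Agent.Helper7.AP.LL

/-!
# Project A' (MP_8958e8): `⟨b₁, b₂⟩` at shift zero: the full moduli
-/

open MeasureTheory Set Filter Topology
open Pool.Agent.Helper57.Zeta Pool.Agent.Helper57.PC Pool.Agent.Helper57.LH Pool.Agent.Helper78.SG
open Pool.Agent.Helper4.SH (om)
open Pool.Agent.Helper69.FF Pool.Agent.Helper57.KP
open scoped ContDiff

set_option autoImplicit false

namespace Pool.Agent.AP
namespace K0cAux

open K0bAux

/-- majorant on the support -/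
lemma Sm_abs_le {W : ℝ → ℝ} {R : ℝ} (hW : PF W R) {c : ℝ} {f g : ℕ → ℝ}
    (h : ∀ n : ℕ, 1 ≤ n → Real.exp (c - R) ≤ n → (n : ℝ) ≤ Real.exp (c + R) → |f n| ≤ g n) :
    |Sm W R c f| ≤ Sm W R c g := by
  unfold Sm
  refine (Finset.abs_sum_le_sum_abs _ _).trans (Finset.sum_le_sum fun n hn => ?_)
  rw [Finset.mem_Icc] at hn
  have hn0 : (0 : ℝ) < n := by exact_mod_cast hn.1
  rw [abs_mul, abs_of_nonneg (a := W (Real.log n - c) ^ 2 / n) (by positivity)]
  by_cases h0 : W (Real.log n - c) = 0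
  · rw [h0]
    simp
  · have h1 := abs_le.1 (hW.supp _ h0)
    refine mul_le_mul_of_nonneg_right (h n hn.1 ?_ ?_) (by positivity)
    · rw [← Real.le_log_iff_exp_le hn0]
      linarith
    · rw [← Real.log_le_iff_le_exp hn0]
      linarith

lemma Sm_one_le {W : ℝ → ℝ} {R : ℝ} (hW : PF W R) (c : ℝ) : Sm W R c (fun _ => 1) ≤ 1 + |c + R| := by
  unfold Sm
  calc ∑ n ∈ Finset.Icc 1 ⌊Real.exp (c + R)⌋₊, 1 * (W (Real.log n - c) ^ 2 / n)
      ≤ ∑ n ∈ Finset.Icc 1 ⌊Real.exp (c + R)⌋₊, ((n : ℝ))⁻¹ := by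
        refine Finset.sum_le_sum fun n _ => ?_
        rw [one_mul, div_eq_mul_inv]
        have h1 : W (Real.log n - c) ^ 2 ≤ 1 := pow_le_one₀ (hW.nonneg _) (hW.le_one _)
        have h2 : (0 : ℝ) ≤ (n : ℝ)⁻¹ := by positivity
        calc W (Real.log n - c) ^ 2 * (n : ℝ)⁻¹ ≤ 1 * (n : ℝ)⁻¹ := mul_le_mul_of_nonneg_right h1 h2
          _ = _ := one_mul _
    _ ≤ 1 + |c + R| := by
        rcases Nat.eq_zero_or_pos ⌊Real.exp (c + R)⌋₊ with h | h
        · rw [h]
          simp
          positivity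
        · have h1 := harmonic_le_one_add_log ⌊Real.exp (c + R)⌋₊
          rw [harmonic_eq_sum_Icc] at h1
          push_cast at h1
          refine h1.trans ?_
          have h2 : Real.log ⌊Real.exp (c + R)⌋₊ ≤ c + R := by
            rw [Real.log_le_iff_le_exp (by exact_mod_cast h)]
            exact Nat.floor_le (Real.exp_pos _).le
          have h3 := le_abs_self (c + R)
          linarith

lemma Sm_nonneg {W : ℝ → ℝ} {R c : ℝ} {f : ℕ → ℝ} (h : ∀ n, 0 ≤ f n) : 0 ≤ Sm W R c f :=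
  Finset.sum_nonneg fun n _ => mul_nonneg (h n) (by positivity)

lemma lamQ_strip {q Z p : ℕ} (hp : p ∣ q) (n : ℤ) : lamQ q Z (p * n) = lamQ q Z n := by
  unfold lamQ
  refine Finset.sum_congr rfl fun r hr => ?_
  rw [Finset.mem_filter] at hr
  rw [cr_mul_cop (hr.2.coprime_dvd_right hp)]

/-- stripping the primes of `q` -/
lemma lamQ_le {q Z : ℕ} {M X : ℝ} (h : ∀ n : ℕ, 1 ≤ n → (n : ℝ) ≤ X → Nat.Coprime n q → |lamQ q Z n| ≤ M) :
    ∀ n : ℕ, 1 ≤ n → (n : ℝ) ≤ X → |lamQ q Z n| ≤ M := by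
  intro n
  induction n using Nat.strong_induction_on with
  | _ n ih =>
    intro hn hX
    by_cases hc : Nat.Coprime n q
    · exact h n hn hX hc
    · obtain ⟨p, hp, hpn, hpq⟩ := Nat.Prime.not_coprime_iff_dvd.1 hc
      obtain ⟨m, rfl⟩ := hpn
      have hm : 1 ≤ m := by
        rcases Nat.eq_zero_or_pos m with h0 | h0
        · subst h0; omega
        · exact h0
      have hmn : m < p * m := by
        have := hp.one_lt
        nlinarith
      have h1 := ih m hmn hm (le_trans (by exact_mod_cast hmn.le) hX)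
      have h2 : lamQ q Z ((p * m : ℕ) : ℤ) = lamQ q Z (m : ℤ) := by
        push_cast
        exact lamQ_strip hpq m
      rw [h2]
      exact h1

lemma lamQ_one_le (q Z : ℕ) : |lamQ q Z 1| ≤ GG 1 Z := by
  unfold lamQ GG
  refine (Finset.abs_sum_le_sum_abs _ _).trans ?_
  have h1 : ∀ r ∈ (Finset.Icc 1 Z).filter (fun r => Nat.Coprime r q), |mf r * cr r 1| ≤
      if Squarefree r then 1 / (Nat.totient r : ℝ) else 0 := by
    intro r hr
    rw [Finset.mem_filter, Finset.mem_Icc] at hr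
    split_ifs with h
    · rw [abs_mul, abs_mf h]
      have h2 : |cr r 1| ≤ 1 := by
        have h3 : cr r 1 = (ArithmeticFunction.moebius r : ℝ) := by
          unfold cr
          rw [Finset.sum_eq_single_of_mem 1 (Nat.one_mem_divisors.2 (by omega))]
          · simp
          · intro d hd hd1
            rw [if_neg]
            intro h4
            have h5 : (d : ℤ) ∣ (1 : ℕ) := by exact_mod_cast h4
            exact hd1 (Nat.dvd_one.1 (by exact_mod_cast h5))
        rw [h3]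
        have := ArithmeticFunction.abs_moebius_le_one (n := r)
        exact_mod_cast this
      calc 1 / (Nat.totient r : ℝ) * |cr r 1| ≤ 1 / (Nat.totient r : ℝ) * 1 :=
            mul_le_mul_of_nonneg_left h2 (by positivity)
        _ = _ := mul_one _
    · rw [mf_not_sqf h]
      simp
  refine (Finset.sum_le_sum h1).trans ?_
  rw [← Finset.sum_filter]
  refine Finset.sum_le_sum_of_subset_of_nonneg ?_ (fun _ _ _ => by positivity)
  intro r hr
  simp only [Finset.mem_filter] at hr ⊢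
  exact ⟨hr.1.1, hr.2, Nat.coprime_one_right r⟩

/-- value at a large prime -/
lemma lamR_prime {B p : ℕ} (hp : p.Prime) (h : B < p) : lamR B (p : ℤ) = GG 1 B := by
  rw [lamR_eq_sqf]
  unfold GG
  have e : (Finset.Icc 1 B).filter (fun r => Squarefree r ∧ Nat.Coprime r 1) = (Finset.Icc 1 B).filter Squarefree := by
    ext r
    simp
  rw [e]
  refine Finset.sum_congr rfl fun r hr => ?_
  rw [Finset.mem_filter, Finset.mem_Icc] at hr
  rw [cr_at_prime hr.1.1 hp (by omega)]
  have h1 := mf_sq hr.2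
  have h4 : (0 : ℝ) < Nat.totient r := by exact_mod_cast Nat.totient_pos.2 hr.1.1
  have h5 : (ArithmeticFunction.moebius r : ℝ) = mf r * Nat.totient r := by
    unfold mf
    field_simp
  rw [h5, show mf r * (mf r * Nat.totient r) = mf r ^ 2 * Nat.totient r by ring, h1]
  field_simp

/-- the number of prime factors -/
lemma omega_le {q : ℕ} (hq : 1 ≤ q) {L : ℝ} (h : Real.log q ≤ L) : (q.primeFactors.card : ℝ) ≤ 2 * L := by
  have h1 : ∏ p ∈ q.primeFactors, p ≤ q := Nat.le_of_dvd hq (Nat.prod_primeFactors_dvd q)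
  have h2 : (2 : ℝ) ^ q.primeFactors.card ≤ q := by
    have h3 : 2 ^ q.primeFactors.card ≤ ∏ p ∈ q.primeFactors, p := by
      rw [← Finset.prod_const]
      exact Finset.prod_le_prod' fun p hp => (Nat.prime_of_mem_primeFactors hp).two_le
    exact_mod_cast h3.trans h1
  have h3 := Real.log_le_log (by positivity) h2
  rw [Real.log_pow] at h3
  have h4 := Real.log_two_gt_d9
  have h5 : (0 : ℝ) ≤ q.primeFactors.card := by positivity
  nlinarith

/-- `φ(q)/q` -/
lemma phi_div {q : ℕ} (hq : Squarefree q) {Y : ℝ} (hY : 0 < Y) (h : ∀ p, p.Prime → p ∣ q → Y < (p : ℝ)) :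
    (Nat.totient q : ℝ) / q ≤ 1 ∧ 1 - (q.primeFactors.card : ℝ) / Y ≤ (Nat.totient q : ℝ) / q := by
  have hq0 : (0 : ℝ) < q := by exact_mod_cast Nat.pos_of_ne_zero hq.ne_zero
  constructor
  · rw [div_le_one hq0]
    exact_mod_cast Nat.totient_le q
  · have h1 : (Nat.totient q : ℝ) / q = ∏ p ∈ q.primeFactors, (1 - (p : ℝ)⁻¹) := by
      have := Nat.totient_eq_mul_prod_factors q
      have h2 : (Nat.totient q : ℝ) = q * ∏ p ∈ q.primeFactors, (1 - (p : ℝ)⁻¹) := by
        have h3 := congrArg (fun x : ℚ => (x : ℝ)) this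
        push_cast at h3
        exact h3
      rw [h2]
      field_simp
    rw [h1]
    have h2 : ∀ s : Finset ℕ, s ⊆ q.primeFactors → 1 - (s.card : ℝ) / Y ≤ ∏ p ∈ s, (1 - (p : ℝ)⁻¹) ∧
        0 ≤ ∏ p ∈ s, (1 - (p : ℝ)⁻¹) ∧ ∏ p ∈ s, (1 - (p : ℝ)⁻¹) ≤ 1 := by
      intro s
      induction s using Finset.induction_on with
      | empty => intro _; simp
      | insert a s ha ih =>
        intro hs
        obtain ⟨i1, i2, i3⟩ := ih ((Finset.subset_insert a s).trans hs)
        have ha' := hs (Finset.mem_insert_self a s)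
        have hap := Nat.prime_of_mem_primeFactors ha'
        have haY := h a hap (Nat.dvd_of_mem_primeFactors ha')
        have ha1 : (1 : ℝ) < a := by exact_mod_cast hap.one_lt
        have h3 : (a : ℝ)⁻¹ ≤ 1 / Y := by
          rw [one_div]
          exact inv_anti₀ hY haY.le
        have h4 : (a : ℝ)⁻¹ ≤ 1 := inv_le_one_of_one_le₀ ha1.le
        have h5 : (0 : ℝ) < (a : ℝ)⁻¹ := by positivity
        rw [Finset.prod_insert ha, Finset.card_insert_of_notMem ha]
        push_cast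
        refine ⟨?_, mul_nonneg (by linarith) i2, ?_⟩
        · rw [add_div]
          nlinarith
        · nlinarith
    exact (h2 _ subset_rfl).1

lemma small_power2 {K ζ ε : ℝ} (hζ : 0 < ζ) (hε : 0 < ε) (m : ℕ) :
    ∀ᶠ T : ℝ in atTop, K * ((1 + Real.log T) ^ m * T ^ (-ζ)) ≤ ε := by
  set θ : ℝ := ζ / (2 * (m + 1)) with hθ
  have hm : (0 : ℝ) < m + 1 := by positivity
  have hθ0 : 0 < θ := by positivity
  have h1 : ∀ᶠ T : ℝ in atTop, |K| * (1 + 1 / θ) ^ m * T ^ (-(ζ / 2)) ≤ ε := by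
    have h2 : Tendsto (fun T : ℝ => |K| * (1 + 1 / θ) ^ m * T ^ (-(ζ / 2))) atTop
        (𝓝 (|K| * (1 + 1 / θ) ^ m * 0)) := (tendsto_rpow_neg_atTop (by positivity)).const_mul _
    rw [mul_zero] at h2
    exact (h2.eventually (gt_mem_nhds hε)).mono fun T h => h.le
  filter_upwards [h1, eventually_ge_atTop (1 : ℝ)] with T hT hT1
  have hT0 : (0 : ℝ) ≤ T := by linarith
  have hl : 0 ≤ Real.log T := Real.log_nonneg hT1
  have h3 : 1 + Real.log T ≤ (1 + 1 / θ) * T ^ θ := by
    have h4 := Real.log_le_rpow_div hT0 hθ0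
    have h5 : 1 ≤ T ^ θ := Real.one_le_rpow hT1 hθ0.le
    calc 1 + Real.log T ≤ T ^ θ + T ^ θ / θ := add_le_add h5 h4
      _ = _ := by ring
  have h6 : (1 + Real.log T) ^ m ≤ (1 + 1 / θ) ^ m * T ^ (ζ / 2) := by
    calc (1 + Real.log T) ^ m ≤ ((1 + 1 / θ) * T ^ θ) ^ m := pow_le_pow_left₀ (by linarith) h3 m
      _ = (1 + 1 / θ) ^ m * (T ^ θ) ^ m := mul_pow _ _ _
      _ ≤ (1 + 1 / θ) ^ m * T ^ (ζ / 2) := by
          refine mul_le_mul_of_nonneg_left ?_ (by positivity)
          rw [← Real.rpow_natCast (T ^ θ) m, ← Real.rpow_mul hT0]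
          refine Real.rpow_le_rpow_of_exponent_le hT1 ?_
          rw [hθ, div_mul_eq_mul_div, div_le_div_iff₀ (by positivity) (by norm_num)]
          have : ζ * (m : ℝ) ≤ ζ * (m + 1) := mul_le_mul_of_nonneg_left (by linarith) hζ.le
          linarith
  calc K * ((1 + Real.log T) ^ m * T ^ (-ζ)) ≤ |K| * ((1 + Real.log T) ^ m * T ^ (-ζ)) :=
        mul_le_mul_of_nonneg_right (le_abs_self K) (by positivity)
    _ ≤ |K| * (((1 + 1 / θ) ^ m * T ^ (ζ / 2)) * T ^ (-ζ)) := by
        refine mul_le_mul_of_nonneg_left (mul_le_mul_of_nonneg_right h6 (by positivity)) (abs_nonneg _)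
    _ = |K| * (1 + 1 / θ) ^ m * (T ^ (ζ / 2) * T ^ (-ζ)) := by ring
    _ = |K| * (1 + 1 / θ) ^ m * T ^ (-(ζ / 2)) := by
        rw [← Real.rpow_add (by linarith)]
        congr 2
        ring
    _ ≤ ε := hT

/-- `log p / p` on the prime powers -/
noncomputable def kp (n : ℕ) : ℝ := if IsPrimePow n then Real.log n.minFac / n.minFac else 0

lemma kp_nonneg (n : ℕ) : 0 ≤ kp n := by
  unfold kp
  split_ifs
  · exact div_nonneg (Real.log_natCast_nonneg _) (by positivity)
  · exact le_rfl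

lemma kp_le (n : ℕ) : kp n ≤ ArithmeticFunction.vonMangoldt n := by
  unfold kp
  rw [ArithmeticFunction.vonMangoldt_apply]
  split_ifs with h
  · have h1 : (1 : ℝ) ≤ n.minFac := by
      have := n.minFac_pos
      exact_mod_cast this
    exact div_le_self (Real.log_natCast_nonneg _) h1
  · exact le_rfl

lemma kp_prime {n : ℕ} (h : n.Prime) : kp n = ArithmeticFunction.vonMangoldt n / n := by
  unfold kp
  rw [if_pos h.isPrimePow, ArithmeticFunction.vonMangoldt_apply_prime h, h.minFac_eq]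

/-- the pointwise bound -/
lemma pointwise {q Z B : ℕ} {c R τ T F G M L Y : ℝ} (hYD : 0 < Y) (hq : Squarefree q)
    (hqp : ∀ p, p.Prime → p ∣ q → Y < (p : ℝ)) (hF : 0 ≤ F) (hM : 0 ≤ M) (hL : 0 ≤ L) (hTτ : 0 ≤ T ^ (-τ))
    (hG : G = GG 1 B) (n : ℕ) (hn1 : 1 < n) (hnc : Real.exp (c - R) ≤ n) (hnB : B < n) (hnL : Real.log n ≤ L)
    (hlam : |lamR B n| ≤ F) (hM' : |lamQ q Z n| ≤ M)
    (hLL : Nat.Coprime n q → |lamQ q Z n - (Nat.totient q : ℝ) / q * (ArithmeticFunction.vonMangoldt n - kp n)| ≤ T ^ (-τ)) :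
    |lamQ q Z n * lamR B n - G * (if n.Prime then ArithmeticFunction.vonMangoldt n else 0)| ≤
      (F + G) * T ^ (-τ) * 1 + (M * F + G * L) * (∑ p ∈ q.primeFactors, if p ∣ n then (1 : ℝ) else 0) +
      F * (if n.Prime then 0 else ArithmeticFunction.vonMangoldt n * 1) +
      G * ((q.primeFactors.card : ℝ) / Y + Real.exp (R - c)) * ArithmeticFunction.vonMangoldt n := by
  have hG0 : 0 ≤ G := by rw [hG]; exact GG_nonneg 1 B
  have hn0 : (0 : ℝ) < n := by
    have : 0 < n := by omega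
    exact_mod_cast this
  have hΛ0 : 0 ≤ ArithmeticFunction.vonMangoldt n := ArithmeticFunction.vonMangoldt_nonneg
  have hΛL : ArithmeticFunction.vonMangoldt n ≤ L := ArithmeticFunction.vonMangoldt_le_log.trans hnL
  have hk0 := kp_nonneg n
  have hk1 := kp_le n
  obtain ⟨hφ1, hφ2⟩ := phi_div hq hYD hqp
  have hφ0 : 0 ≤ (Nat.totient q : ℝ) / q := by positivity
  set φ := (Nat.totient q : ℝ) / q with hφ
  set Λ := ArithmeticFunction.vonMangoldt n with hΛ
  have hω0 : 0 ≤ (q.primeFactors.card : ℝ) / Y := by positivity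
  have hinv : 1 / (n : ℝ) ≤ Real.exp (R - c) := by
    rw [show R - c = -(c - R) by ring, Real.exp_neg, one_div]
    exact inv_anti₀ (Real.exp_pos _) hnc
  have hS0 : 0 ≤ ∑ p ∈ q.primeFactors, (if p ∣ n then (1 : ℝ) else 0) :=
    Finset.sum_nonneg fun p _ => by split_ifs <;> norm_num
  have hex : 0 ≤ Real.exp (R - c) := (Real.exp_pos _).le
  by_cases hc : Nat.Coprime n q
  · have h1 := hLL hc
    have t2 : 0 ≤ (M * F + G * L) * (∑ p ∈ q.primeFactors, if p ∣ n then (1 : ℝ) else 0) := by positivity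
    by_cases hp : n.Prime
    · rw [if_pos hp, if_pos hp]
      have h2 : lamR B (n : ℤ) = G := by rw [hG]; exact lamR_prime hp hnB
      rw [h2, kp_prime hp] at *
      have h3 : lamQ q Z n * G - G * Λ = G * (lamQ q Z n - Λ) := by ring
      rw [h3, abs_mul, abs_of_nonneg hG0]
      have h4 : |lamQ q Z n - Λ| ≤ T ^ (-τ) + ((q.primeFactors.card : ℝ) / Y * Λ + Λ * (1 / n)) := by
        have e1 : lamQ q Z n - Λ = (lamQ q Z n - φ * (Λ - Λ / n)) + (-((1 - φ) * Λ + φ * (Λ / n))) := by ring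
        rw [e1]
        refine (abs_add_le _ _).trans (add_le_add h1 ?_)
        have e2 : 0 ≤ (1 - φ) * Λ + φ * (Λ / n) := by
          have := mul_nonneg (sub_nonneg.2 hφ1) hΛ0
          have := mul_nonneg hφ0 (div_nonneg hΛ0 hn0.le)
          linarith
        rw [abs_neg, abs_of_nonneg e2]
        have e3 : (1 - φ) * Λ ≤ (q.primeFactors.card : ℝ) / Y * Λ := mul_le_mul_of_nonneg_right (by linarith) hΛ0
        have e4 : φ * (Λ / n) ≤ 1 * (Λ / n) := mul_le_mul_of_nonneg_right hφ1 (div_nonneg hΛ0 hn0.le)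
        have e5 : Λ / n = Λ * (1 / n) := by ring
        linarith
      have h5 : Λ * (1 / n) ≤ Λ * Real.exp (R - c) := mul_le_mul_of_nonneg_left hinv hΛ0
      have h6 : G * |lamQ q Z n - Λ| ≤ G * (T ^ (-τ) + ((q.primeFactors.card : ℝ) / Y * Λ + Λ * Real.exp (R - c))) :=
        mul_le_mul_of_nonneg_left (by linarith) hG0
      have h7 : 0 ≤ F * T ^ (-τ) := mul_nonneg hF hTτ
      calc G * |lamQ q Z n - Λ| ≤ G * (T ^ (-τ) + ((q.primeFactors.card : ℝ) / Y * Λ + Λ * Real.exp (R - c))) := h6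
        _ ≤ _ := by
          rw [mul_zero, add_zero, mul_one]
          have : G * (T ^ (-τ) + ((q.primeFactors.card : ℝ) / Y * Λ + Λ * Real.exp (R - c))) =
            G * T ^ (-τ) + G * ((q.primeFactors.card : ℝ) / Y + Real.exp (R - c)) * Λ := by ring
          rw [this]
          linarith
    · rw [if_neg hp, if_neg hp, mul_zero, sub_zero, mul_one, mul_one, abs_mul]
      have h4 : |lamQ q Z n| ≤ T ^ (-τ) + Λ := by
        have e1 : lamQ q Z n = (lamQ q Z n - φ * (Λ - kp n)) + φ * (Λ - kp n) := by ring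
        rw [e1]
        refine (abs_add_le _ _).trans (add_le_add h1 ?_)
        rw [abs_of_nonneg (mul_nonneg hφ0 (by linarith))]
        calc φ * (Λ - kp n) ≤ 1 * (Λ - kp n) := mul_le_mul_of_nonneg_right hφ1 (by linarith)
          _ ≤ Λ := by linarith
      have h5 : |lamQ q Z n| * |lamR B n| ≤ (T ^ (-τ) + Λ) * F :=
        mul_le_mul h4 hlam (abs_nonneg _) (by linarith)
      have h7 : 0 ≤ G * T ^ (-τ) := mul_nonneg hG0 hTτ
      have h8 : 0 ≤ G * ((q.primeFactors.card : ℝ) / Y + Real.exp (R - c)) * Λ := by positivity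
      calc |lamQ q Z n| * |lamR B n| ≤ (T ^ (-τ) + Λ) * F := h5
        _ = F * T ^ (-τ) + F * Λ := by ring
        _ ≤ _ := by
          have e2 : (F + G) * T ^ (-τ) = F * T ^ (-τ) + G * T ^ (-τ) := by ring
          rw [e2]
          linarith
  · obtain ⟨p, hp, hpn, hpq⟩ := Nat.Prime.not_coprime_iff_dvd.1 hc
    have h1 : 1 ≤ ∑ p ∈ q.primeFactors, (if p ∣ n then (1 : ℝ) else 0) := by
      have h2 : p ∈ q.primeFactors := Nat.mem_primeFactors.2 ⟨hp, hpq, hq.ne_zero⟩
      calc (1 : ℝ) = if p ∣ n then (1 : ℝ) else 0 := by rw [if_pos hpn]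
        _ ≤ _ := Finset.single_le_sum (f := fun p => if p ∣ n then (1 : ℝ) else 0)
            (fun p _ => by split_ifs <;> norm_num) h2
    have h3 : |lamQ q Z n * lamR B n - G * (if n.Prime then Λ else 0)| ≤ M * F + G * L := by
      refine (abs_sub _ _).trans (add_le_add ?_ ?_)
      · rw [abs_mul]
        exact mul_le_mul hM' hlam (abs_nonneg _) hM
      · have e1 : 0 ≤ G * (if n.Prime then Λ else 0) := mul_nonneg hG0 (by split_ifs <;> linarith)
        rw [abs_of_nonneg e1]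
        refine mul_le_mul_of_nonneg_left ?_ hG0
        split_ifs <;> linarith
    have h4 : M * F + G * L ≤ (M * F + G * L) * (∑ p ∈ q.primeFactors, if p ∣ n then (1 : ℝ) else 0) :=
      le_mul_of_one_le_right (by positivity) h1
    have h5 : 0 ≤ (F + G) * T ^ (-τ) * 1 := by positivity
    have h6 : 0 ≤ F * (if n.Prime then 0 else Λ * 1) := mul_nonneg hF (by split_ifs <;> linarith)
    have h8 : 0 ≤ G * ((q.primeFactors.card : ℝ) / Y + Real.exp (R - c)) * Λ := by positivity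
    linarith

end K0cAux
end Pool.Agent.AP
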