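import Pool.Agent.Helper8.AP.K0c2

/-!
# Project A' (MP_8958e8): `⟨b₁, b₂⟩` at shift zero: the full moduli, asymptotics
-/

open MeasureTheory Set Filter Topology
open Pool.Agent.Helper57.Zeta Pool.Agent.Helper57.PC Pool.Agent.Helper57.LH Pool.Agent.Helper78.SG
open Pool.Agent.Helper4.SH (om)
open Pool.Agent.Helper69.FF Pool.Agent.Helper57.KP
open scoped ContDiff

set_option autoImplicit false

namespace Pool.Agent.AP
namespace K0cAux

open K0bAux

lemma sm_major (hSD : Stmt_Sm_dvd) {W : ℝ → ℝ} {R : ℝ} (hW : PF W R) {q : ℕ} {c a b d1 d2 Y S1 S2 S3 S4 : ℝ}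
    (ha : 0 ≤ a) (hb : 0 ≤ b) (hd1 : 0 ≤ d1) (hd2 : 0 ≤ d2) (hY : 0 < Y) (hqp : ∀ p, p.Prime → p ∣ q → Y < (p : ℝ))
    (h1 : Sm W R c (fun _ => 1) ≤ S1) (h2 : ∀ p ∈ q.primeFactors, Sm W R (c - Real.log p) (fun _ => 1) ≤ S2) (h20 : 0 ≤ S2)
    (h3 : |Sm W R c (fun n => if n.Prime then 0 else ArithmeticFunction.vonMangoldt n * 1)| ≤ S3)
    (h4 : Sm W R c (fun n => ArithmeticFunction.vonMangoldt n) ≤ S4) :
    Sm W R c (fun n => a * 1 + b * (∑ p ∈ q.primeFactors, if p ∣ n then (1 : ℝ) else 0) +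
      d1 * (if n.Prime then 0 else ArithmeticFunction.vonMangoldt n * 1) + d2 * ArithmeticFunction.vonMangoldt n) ≤
      a * S1 + b * ((q.primeFactors.card : ℝ) / Y * S2) + d1 * S3 + d2 * S4 := by
  rw [Sm_add (fun n => a * 1 + b * (∑ p ∈ q.primeFactors, if p ∣ n then (1 : ℝ) else 0) +
      d1 * (if n.Prime then 0 else ArithmeticFunction.vonMangoldt n * 1)) (fun n => d2 * ArithmeticFunction.vonMangoldt n),
    Sm_add (fun n => a * 1 + b * (∑ p ∈ q.primeFactors, if p ∣ n then (1 : ℝ) else 0))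
      (fun n => d1 * (if n.Prime then 0 else ArithmeticFunction.vonMangoldt n * 1)),
    Sm_add (fun _ => a * 1) (fun n => b * (∑ p ∈ q.primeFactors, if p ∣ n then (1 : ℝ) else 0)),
    Sm_mul a (fun _ => 1), Sm_mul b, Sm_mul d1, Sm_mul d2, Sm_sum]
  have e1 : ∑ p ∈ q.primeFactors, Sm W R c (fun n => if p ∣ n then (1 : ℝ) else 0) ≤ (q.primeFactors.card : ℝ) / Y * S2 := by
    have e2 : ∀ p ∈ q.primeFactors, Sm W R c (fun n => if p ∣ n then (1 : ℝ) else 0) ≤ 1 / Y * S2 := by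
      intro p hp
      have hp1 := Nat.prime_of_mem_primeFactors hp
      have hp2 := hqp p hp1 (Nat.dvd_of_mem_primeFactors hp)
      have e3 := hSD hW c (fun _ => (1 : ℝ)) hp1.one_lt.le
      beta_reduce at e3
      rw [e3]
      have e4 : (1 : ℝ) / p ≤ 1 / Y := one_div_le_one_div_of_le hY hp2.le
      have e5 := h2 p hp
      calc 1 / (p : ℝ) * Sm W R (c - Real.log p) (fun _ => 1) ≤ 1 / (p : ℝ) * S2 :=
            mul_le_mul_of_nonneg_left e5 (by positivity)
        _ ≤ 1 / Y * S2 := mul_le_mul_of_nonneg_right e4 h20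
    refine (Finset.sum_le_sum e2).trans (le_of_eq ?_)
    rw [Finset.sum_const, nsmul_eq_mul]
    ring
  have e3 := le_trans (le_abs_self _) h3
  gcongr

lemma full_est {P t F G M L τ Y R0 C2 V1 S1 S2 S3 w e1 : ℝ} (hP : 1 ≤ P) (hP2 : P = 1 + L) (ht : 0 ≤ t) (hL : 0 ≤ L)
    (hF0 : 0 ≤ F) (hw0 : 0 ≤ w) (hτ0 : 0 ≤ τ) (hY : 0 < Y) (hC2 : 0 ≤ C2) (hV1 : 0 ≤ V1) (hR0 : 0 ≤ R0)
    (hF1 : 1 ≤ F) (hFτ : F * τ ≤ t) (hFD : F * (1 / Y) ≤ t) (hτ : τ ≤ t) (hY' : 1 / Y ≤ t) (hG : G ≤ 2 * P) (hM : M ≤ 2 * P)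
    (hS1 : S1 ≤ 2 * P) (hS2 : S2 ≤ 4 * P) (hS10 : 0 ≤ S1) (hS20 : 0 ≤ S2) (hw : w ≤ 4 * P) (hS3 : F * S3 ≤ C2 * P * t)
    (he1 : e1 ≤ R0 * t) (he10 : 0 ≤ e1) :
    (F + G) * τ * S1 + (M * F + G * L) * (w / Y * S2) + F * S3 + G * (w / Y + e1) * V1 ≤
      (70 + C2 + 2 * (4 + R0) * V1) * (P ^ 4 * t) := by
  have hP2' : L ≤ P := by linarith
  have hPP : 1 ≤ P ^ 2 := one_le_pow₀ hP
  have a1 : (F + G) * τ * S1 ≤ 6 * (P ^ 4 * t) := by
    have b1 : (F + G) * τ ≤ (1 + 2 * P) * t := by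
      calc (F + G) * τ = F * τ + G * τ := by ring
        _ ≤ t + (2 * P) * t := add_le_add hFτ (mul_le_mul hG hτ hτ0 (by positivity))
        _ = _ := by ring
    calc (F + G) * τ * S1 ≤ ((1 + 2 * P) * t) * (2 * P) := mul_le_mul b1 hS1 hS10 (by positivity)
      _ ≤ ((3 * P) * t) * (2 * P) := by gcongr; linarith
      _ = 6 * (P ^ 2 * t) * 1 := by ring
      _ ≤ 6 * (P ^ 2 * t) * P ^ 2 := by gcongr
      _ = _ := by ring
  have a2 : (M * F + G * L) * (w / Y * S2) ≤ 64 * (P ^ 4 * t) := by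
    have b0 : M * F + G * L ≤ (4 * P ^ 2) * F := by
      have c1 : M * F ≤ (2 * P) * F := mul_le_mul_of_nonneg_right hM hF0
      have c2 : G * L ≤ (2 * P) * P := mul_le_mul hG hP2' hL (by positivity)
      have c3 : (2 * P) * P * 1 ≤ (2 * P) * P * F := mul_le_mul_of_nonneg_left hF1 (by positivity)
      have c4 : (2 * P) * 1 * F ≤ (2 * P) * P * F := by gcongr
      nlinarith
    have b1 : w / Y * S2 ≤ (4 * P) * (1 / Y) * (4 * P) := by
      rw [div_eq_mul_one_div]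
      gcongr
    calc (M * F + G * L) * (w / Y * S2) ≤ ((4 * P ^ 2) * F) * ((4 * P) * (1 / Y) * (4 * P)) := by
          refine mul_le_mul b0 b1 (by positivity) (by positivity)
      _ = 64 * P ^ 4 * (F * (1 / Y)) := by ring
      _ ≤ 64 * P ^ 4 * t := by gcongr
      _ = _ := by ring
  have a3 : F * S3 ≤ C2 * (P ^ 4 * t) := by
    refine hS3.trans ?_
    have : P ≤ P ^ 4 := by
      calc P = P * 1 := by ring
        _ ≤ P * P ^ 3 := by gcongr; exact one_le_pow₀ hP
        _ = _ := by ring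
    calc C2 * P * t ≤ C2 * P ^ 4 * t := by gcongr
      _ = _ := by ring
  have a4 : G * (w / Y + e1) * V1 ≤ 2 * (4 + R0) * V1 * (P ^ 4 * t) := by
    have b1 : w / Y + e1 ≤ (4 + R0) * P * t := by
      have c1 : w / Y ≤ (4 * P) * t := by
        rw [div_eq_mul_one_div]
        exact mul_le_mul hw hY' (by positivity) (by positivity)
      have c2 : R0 * t * 1 ≤ R0 * t * P := by gcongr
      nlinarith
    calc G * (w / Y + e1) * V1 ≤ (2 * P) * ((4 + R0) * P * t) * V1 := by gcongr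
      _ = 2 * (4 + R0) * V1 * (P ^ 2 * t) * 1 := by ring
      _ ≤ 2 * (4 + R0) * V1 * (P ^ 2 * t) * P ^ 2 := by gcongr
      _ = _ := by ring
  nlinarith

lemma full (hSD : Stmt_Sm_dvd) (hSL : Stmt_Sm_Lam) (hPP : Stmt_Sm_pp) (hGB : Stmt_GG_bd) (hlb : Stmt_lamR_bd)
    {e c3 D s ε : ℝ} (he0 : 0 < e) (hes : e ≤ s / 4) (hs : 0 < s) (hs1 : s ≤ 1 / 2) (hc3 : 0 < c3) (hc31 : c3 ≤ 1 / 8) (hD : 0 < D)
    (hε : 0 < ε) {W : ℝ → ℝ} {R : ℝ} (hW : PF W R) (hR : 0 < R) :
    ∀ᶠ T : ℝ in atTop, ∀ (q : ℕ) (c : ℝ), Squarefree q → (∀ p, p.Prime → p ∣ q → T ^ D < (p : ℝ)) → (q : ℝ) ≤ T ^ 2 →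
      1 / 4 * Real.log T ≤ c → c ≤ (1 / 2 - 3 * s / 4) * Real.log T →
      |Sm W R c (fun n : ℕ => lamQ q ⌊T ^ (1 / 2 - e)⌋₊ n * lamR ⌊T ^ c3⌋₊ n) - (∫ y, W y ^ 2) * GG 1 ⌊T ^ c3⌋₊| ≤
        ε * Real.log T := by
  obtain ⟨τ, hτ, hLL⟩ := LL (θ := s / 8) (by positivity)
  obtain ⟨C2, hC2, hpp⟩ := hPP hW hR
  obtain ⟨CG, hCG, hGG⟩ := hGB
  set V := ∫ y, W y ^ 2 with hV
  have hV0 : 0 ≤ V := integral_nonneg fun y => sq_nonneg _
  set ζ : ℝ := min (min τ D) (1 / 8) / 2 with hζ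
  have hm0 : 0 < min (min τ D) (1 / 8 : ℝ) := lt_min (lt_min hτ hD) (by norm_num)
  have hζ0 : 0 < ζ := by rw [hζ]; positivity
  have hζτ : 2 * ζ ≤ τ := by
    rw [hζ]
    have := (min_le_left (min τ D) (1 / 8 : ℝ)).trans (min_le_left τ D)
    linarith
  have hζD : 2 * ζ ≤ D := by
    rw [hζ]
    have := (min_le_left (min τ D) (1 / 8 : ℝ)).trans (min_le_right τ D)
    linarith
  have hζ8 : 2 * ζ ≤ 1 / 8 := by
    rw [hζ]
    have := min_le_right (min τ D) (1 / 8 : ℝ)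
    linarith
  obtain ⟨c1, hc1⟩ := eventually_atTop.1 ((hSL hW hR (ε := 1) one_pos).and (hSL hW hR (ε := ε / 8) (by positivity)))
  have hlog : ∀ A : ℝ, ∀ᶠ T : ℝ in atTop, A ≤ Real.log T := fun A => Real.tendsto_log_atTop.eventually_ge_atTop A
  set R0 := Real.exp R with hR0
  set K : ℝ := 70 + C2 + 2 * (4 + R0) * (V + 1) with hK
  have hR00 : 0 < R0 := Real.exp_pos _
  filter_upwards [eventually_gt_atTop (1 : ℝ), hLL, hlb hζ0, hlog (4 + 4 * |c1|), hlog CG, hlog (4 * R / s), hlog (8 * R + 1),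
    small_power2 (K := K) hζ0 (by positivity : 0 < ε / 8) 4,
    (tendsto_rpow_atTop (by positivity : 0 < s / 8)).eventually_ge_atTop 2] with T hT1 hTLL hTlb hL1 hL2 hL3 hL4 hsp hT2
  intro q c hqs hqp hqT hcl hcu
  set L := Real.log T with hL
  have hT0 : 0 < T := by linarith
  have hLc : 0 ≤ |c1| := abs_nonneg _
  have hL4' : 4 ≤ L := by linarith
  have hL0 : 0 ≤ L := by linarith
  have hT2' : T ^ (2 : ℕ) = T ^ (2 : ℝ) := by norm_cast
  set Z := ⌊T ^ (1 / 2 - e)⌋₊ with hZ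
  set B := ⌊T ^ c3⌋₊ with hB
  set G := GG 1 B with hG
  set P := 1 + L with hP
  set t := T ^ (-ζ) with ht
  have ht0 : 0 ≤ t := Real.rpow_nonneg hT0.le _
  have hRs : R ≤ s / 4 * L := by
    rw [div_le_iff₀ hs] at hL3
    linarith
  have hc0 : c1 ≤ c := by
    have := le_abs_self c1
    linarith
  have hc1' : 1 ≤ c := by linarith
  have hBle : (B : ℝ) ≤ T ^ c3 := Nat.floor_le (Real.rpow_nonneg hT0.le _)
  have hB1 : 1 ≤ B := by
    rw [hB, Nat.one_le_floor_iff]
    exact Real.one_le_rpow hT1.le hc3.le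
  have hZle : (Z : ℝ) ≤ T ^ (1 / 2 - e) := Nat.floor_le (Real.rpow_nonneg hT0.le _)
  have hZ1 : 1 ≤ Z := by
    rw [hZ, Nat.one_le_floor_iff]
    exact Real.one_le_rpow hT1.le (by linarith)
  have hGle : G ≤ 2 * L := by
    have h1 := (hGG B hB1).2
    have h2 : Real.log B ≤ c3 * L := by
      rw [hL, ← Real.log_rpow hT0]
      exact Real.log_le_log (by exact_mod_cast hB1) hBle
    have h3 : c3 * L ≤ 1 / 8 * L := mul_le_mul_of_nonneg_right hc31 hL0
    linarith
  have hG0 : 0 ≤ G := GG_nonneg 1 B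
  have hGZ : GG 1 Z ≤ 2 * P := by
    have h1 := (hGG Z hZ1).2
    have h2 : Real.log Z ≤ (1 / 2 - e) * L := by
      rw [hL, ← Real.log_rpow hT0]
      exact Real.log_le_log (by exact_mod_cast hZ1) hZle
    have h3 : (1 / 2 - e) * L ≤ 1 * L := mul_le_mul_of_nonneg_right (by linarith) hL0
    linarith
  have hcRL : c + R ≤ (1 / 2 - s / 2) * L := by
    have : (1 / 2 - s / 2) * L = (1 / 2 - 3 * s / 4) * L + s / 4 * L := by ring
    linarith
  have hcRL1 : c + R ≤ L := by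
    have : (1 / 2 - s / 2) * L ≤ 1 * L := mul_le_mul_of_nonneg_right (by linarith) hL0
    linarith
  have hexp : Real.exp (c + R) ≤ T ^ (1 / 2 - s / 2) := by
    rw [Real.rpow_def_of_pos hT0, ← hL, mul_comm]
    exact Real.exp_le_exp.2 hcRL
  have hZlow : ∀ n : ℕ, (n : ℝ) ≤ Real.exp (c + R) → (n : ℝ) * T ^ (s / 8) ≤ Z := by
    intro n hn
    have h1 : (n : ℝ) * T ^ (s / 8) ≤ T ^ (1 / 2 - s / 2) * T ^ (s / 8) :=
      mul_le_mul_of_nonneg_right (hn.trans hexp) (Real.rpow_nonneg hT0.le _)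
    have h2 : T ^ (1 / 2 - s / 2) * T ^ (s / 8) = T ^ (1 / 2 - 3 * s / 8) := by
      rw [← Real.rpow_add hT0]
      congr 1
      ring
    have h3 : T ^ (1 / 2 - s / 4) ≤ T ^ (1 / 2 - e) := Real.rpow_le_rpow_of_exponent_le hT1.le (by linarith)
    have h4 : T ^ (1 / 2 - s / 4) = T ^ (1 / 2 - 3 * s / 8) * T ^ (s / 8) := by
      rw [← Real.rpow_add hT0]
      congr 1
      ring
    have h5 : 1 ≤ T ^ (1 / 2 - 3 * s / 8) := Real.one_le_rpow hT1.le (by linarith)
    have h6 : T ^ (1 / 2 - e) < Z + 1 := Nat.lt_floor_add_one _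
    have h7 : T ^ (1 / 2 - 3 * s / 8) * 2 ≤ T ^ (1 / 2 - 3 * s / 8) * T ^ (s / 8) := mul_le_mul_of_nonneg_left hT2 (by linarith)
    linarith
  have hexpL : ∀ n : ℕ, 1 ≤ n → (n : ℝ) ≤ Real.exp (c + R) → Real.log n ≤ L := by
    intro n hn hn'
    have : Real.log n ≤ c + R := by
      rw [Real.log_le_iff_le_exp (by exact_mod_cast hn)]
      exact hn'
    linarith
  have hTexp : Real.exp (c + R) ≤ T := by
    calc Real.exp (c + R) ≤ Real.exp L := Real.exp_le_exp.2 hcRL1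
      _ = T := Real.exp_log hT0
  have hTsq : T ≤ T ^ (2 : ℕ) := by
    rw [pow_two]
    exact le_mul_of_one_le_left hT0.le hT1.le
  have hTτ0 : 0 ≤ T ^ (-τ) := Real.rpow_nonneg hT0.le _
  have hTτ1 : T ^ (-τ) ≤ 1 := Real.rpow_le_one_of_one_le_of_nonpos hT1.le (by linarith)
  have hLLn : ∀ n : ℕ, 1 < n → (n : ℝ) ≤ Real.exp (c + R) → Nat.Coprime n q →
      |lamQ q Z n - (Nat.totient q : ℝ) / q * (ArithmeticFunction.vonMangoldt n - kp n)| ≤ T ^ (-τ) := by
    intro n h1 h2 h3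
    refine hTLL q Z n hqs hqT ?_ h1 (hZlow n h2) h3
    refine hZle.trans ?_
    rw [hT2']
    exact Real.rpow_le_rpow_of_exponent_le hT1.le (by linarith)
  have hMn : ∀ n : ℕ, 1 ≤ n → (n : ℝ) ≤ Real.exp (c + R) → |lamQ q Z n| ≤ 2 * P := by
    refine lamQ_le fun n hn hn' hcop => ?_
    rcases Nat.lt_or_ge 1 n with h1 | h1
    · have h2 := hLLn n h1 hn' hcop
      have hφ1 := (phi_div hqs (Real.rpow_pos_of_pos hT0 D) hqp).1
      have hφ0 : 0 ≤ (Nat.totient q : ℝ) / q := by positivity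
      have hk0 := kp_nonneg n
      have hk1 := kp_le n
      have hΛ : ArithmeticFunction.vonMangoldt n ≤ L := ArithmeticFunction.vonMangoldt_le_log.trans (hexpL n hn hn')
      have h3 : (Nat.totient q : ℝ) / q * (ArithmeticFunction.vonMangoldt n - kp n) ≤
          1 * (ArithmeticFunction.vonMangoldt n - kp n) := mul_le_mul_of_nonneg_right hφ1 (by linarith)
      have h4 : 0 ≤ (Nat.totient q : ℝ) / q * (ArithmeticFunction.vonMangoldt n - kp n) := mul_nonneg hφ0 (by linarith)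
      have h5 := abs_le.1 h2
      rw [abs_le]
      constructor <;> linarith
    · have h2 : n = 1 := by omega
      subst h2
      have := lamQ_one_le q Z
      exact_mod_cast this.trans hGZ
  have hpt : ∀ n : ℕ, 1 ≤ n → Real.exp (c - R) ≤ n → (n : ℝ) ≤ Real.exp (c + R) →
      |lamQ q Z n * lamR B n - G * (if n.Prime then ArithmeticFunction.vonMangoldt n else 0)| ≤
      (T ^ ζ + G) * T ^ (-τ) * 1 + (2 * P * T ^ ζ + G * L) * (∑ p ∈ q.primeFactors, if p ∣ n then (1 : ℝ) else 0) +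
      T ^ ζ * (if n.Prime then 0 else ArithmeticFunction.vonMangoldt n * 1) +
      G * ((q.primeFactors.card : ℝ) / T ^ D + Real.exp (R - c)) * ArithmeticFunction.vonMangoldt n := by
    intro n hn hn1 hn2
    have hBn : (B : ℝ) < n := by
      calc (B : ℝ) ≤ T ^ c3 := hBle
        _ = Real.exp (c3 * L) := by rw [Real.rpow_def_of_pos hT0, ← hL, mul_comm]
        _ < Real.exp (c - R) := by
            refine Real.exp_lt_exp.2 ?_
            have h3 : c3 * L ≤ 1 / 8 * L := mul_le_mul_of_nonneg_right hc31 hL0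
            linarith
        _ ≤ n := hn1
    have hBn' : B < n := by exact_mod_cast hBn
    refine pointwise (Real.rpow_pos_of_pos hT0 D) hqs hqp (Real.rpow_nonneg hT0.le _) (by positivity) hL0 hTτ0 hG n (by omega) hn1 hBn'
      (hexpL n hn hn2) ?_ (hMn n hn hn2) (hLLn n (by omega) hn2)
    refine hTlb n (by exact_mod_cast (by omega : n ≠ 0)) ?_ B ?_
    · have : |((n : ℤ) : ℝ)| = n := by
        rw [Int.cast_natCast, abs_of_nonneg (by positivity)]
      rw [this]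
      linarith
    · refine hBle.trans ?_
      rw [hT2']
      exact Real.rpow_le_rpow_of_exponent_le hT1.le (by linarith)
  have hmaj := (Sm_abs_le hW hpt)
  have hS3 := hpp c hc1' (fun _ => 1) 1 (fun n _ _ => by simp)
  have hSL1 := (hc1 c hc0).1
  have hSL2 := (hc1 c hc0).2
  have hcard : (q.primeFactors.card : ℝ) ≤ 4 * P := by
    have h1 := omega_le (q := q) (Nat.pos_of_ne_zero hqs.ne_zero) (L := 2 * L) (by
      have h2 := Real.log_le_log (by exact_mod_cast Nat.pos_of_ne_zero hqs.ne_zero) hqT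
      rw [Real.log_pow] at h2
      push_cast at h2
      exact h2)
    linarith
  have hlogp : ∀ p ∈ q.primeFactors, 0 ≤ Real.log p ∧ Real.log p ≤ 2 * L := by
    intro p hp
    have hp1 := Nat.prime_of_mem_primeFactors hp
    have hp0 : (0 : ℝ) < p := by exact_mod_cast hp1.pos
    refine ⟨Real.log_natCast_nonneg p, ?_⟩
    have h1 : (p : ℝ) ≤ T ^ 2 := by
      refine le_trans ?_ hqT
      exact_mod_cast Nat.le_of_dvd (Nat.pos_of_ne_zero hqs.ne_zero) (Nat.dvd_of_mem_primeFactors hp)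
    have h2 := Real.log_le_log hp0 h1
    rw [Real.log_pow] at h2
    push_cast at h2
    exact h2
  have hS1 : Sm W R c (fun _ => 1) ≤ 2 * P := by
    have h1 := Sm_one_le hW c
    rw [abs_of_nonneg (by linarith)] at h1
    linarith
  have hS2 : ∀ p ∈ q.primeFactors, Sm W R (c - Real.log p) (fun _ => 1) ≤ 4 * P := by
    intro p hp
    obtain ⟨h2, h3⟩ := hlogp p hp
    have h1 := Sm_one_le hW (c - Real.log p)
    have h4 : |c - Real.log p + R| ≤ 3 * L := by
      rw [abs_le]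
      constructor <;> linarith
    linarith
  have hS4 : Sm W R c (fun n => ArithmeticFunction.vonMangoldt n) ≤ V + 1 := by
    have := (abs_le.1 hSL1).2
    linarith
  have hmaj2 := sm_major hSD hW (q := q) (c := c) (a := (T ^ ζ + G) * T ^ (-τ)) (b := 2 * P * T ^ ζ + G * L) (d1 := T ^ ζ)
    (d2 := G * ((q.primeFactors.card : ℝ) / T ^ D + Real.exp (R - c))) (Y := T ^ D) (by positivity) (by positivity) (by positivity)
    (by positivity) (Real.rpow_pos_of_pos hT0 D) hqp hS1 hS2 (by positivity) hS3 hS4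
  have hc2 : Real.exp (-(c / 2)) ≤ T ^ (-(1 / 8 : ℝ)) := by
    rw [Real.rpow_def_of_pos hT0, ← hL]
    exact Real.exp_le_exp.2 (by linarith)
  have hpow : ∀ {x y : ℝ}, x ≤ y → T ^ x ≤ T ^ y := fun h => Real.rpow_le_rpow_of_exponent_le hT1.le h
  have hFS3 : T ^ ζ * (C2 * 1 * c * Real.exp (-(c / 2))) ≤ C2 * P * t := by
    have h1 : T ^ ζ * T ^ (-(1 / 8 : ℝ)) ≤ t := by
      rw [← Real.rpow_add hT0, ht]
      exact hpow (by linarith)
    have h2 : 0 ≤ T ^ ζ := Real.rpow_nonneg hT0.le _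
    calc T ^ ζ * (C2 * 1 * c * Real.exp (-(c / 2))) ≤ T ^ ζ * (C2 * 1 * P * T ^ (-(1 / 8 : ℝ))) := by
          gcongr
          linarith
      _ = C2 * P * (T ^ ζ * T ^ (-(1 / 8 : ℝ))) := by ring
      _ ≤ C2 * P * t := by gcongr
  have hest := full_est (P := P) (t := t) (F := T ^ ζ) (G := G) (M := 2 * P) (L := L) (τ := T ^ (-τ)) (Y := T ^ D) (R0 := R0) (C2 := C2)
    (V1 := V + 1) (S1 := 2 * P) (S2 := 4 * P) (S3 := C2 * 1 * c * Real.exp (-(c / 2))) (w := (q.primeFactors.card : ℝ))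
    (e1 := Real.exp (R - c)) (by linarith) hP ht0 hL0 (Real.rpow_nonneg hT0.le _) (by positivity) hTτ0
    (Real.rpow_pos_of_pos hT0 D) hC2.le (by linarith) hR00.le (Real.one_le_rpow hT1.le hζ0.le)
    (by rw [← Real.rpow_add hT0, ht]; exact hpow (by linarith))
    (by rw [one_div, ← Real.rpow_neg hT0.le, ← Real.rpow_add hT0, ht]; exact hpow (by linarith))
    (by rw [ht]; exact hpow (by linarith))
    (by rw [one_div, ← Real.rpow_neg hT0.le, ht]; exact hpow (by linarith))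
    (by linarith) le_rfl le_rfl le_rfl (by positivity) (by positivity) hcard hFS3
    (by
      have h1 : Real.exp (R - c) ≤ R0 * T ^ (-(1 / 4 : ℝ)) := by
        rw [hR0, Real.rpow_def_of_pos hT0, ← hL, ← Real.exp_add]
        exact Real.exp_le_exp.2 (by linarith)
      refine h1.trans ?_
      refine mul_le_mul_of_nonneg_left ?_ hR00.le
      rw [ht]
      exact hpow (by linarith)) (Real.exp_pos _).le
  have hD1 : |Sm W R c (fun n : ℕ => lamQ q Z n * lamR B n - G * (if n.Prime then ArithmeticFunction.vonMangoldt n else 0))| ≤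
      ε / 8 := hmaj.trans (hmaj2.trans (hest.trans hsp))
  have hsplit : Sm W R c (fun n : ℕ => lamQ q Z n * lamR B n - G * (if n.Prime then ArithmeticFunction.vonMangoldt n else 0)) =
      Sm W R c (fun n : ℕ => lamQ q Z n * lamR B n) - G * Sm W R c (fun n => if n.Prime then ArithmeticFunction.vonMangoldt n else 0) := by
    have h1 : (fun n : ℕ => lamQ q Z n * lamR B n - G * (if n.Prime then ArithmeticFunction.vonMangoldt n else 0)) =
        (fun n : ℕ => lamQ q Z n * lamR B n + (-G) * (if n.Prime then ArithmeticFunction.vonMangoldt n else 0)) := by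
      funext n
      ring
    rw [h1, Sm_add, Sm_mul]
    ring
  have hpr : Sm W R c (fun n => if n.Prime then ArithmeticFunction.vonMangoldt n else 0) =
      Sm W R c (fun n => ArithmeticFunction.vonMangoldt n) -
      Sm W R c (fun n => if n.Prime then 0 else ArithmeticFunction.vonMangoldt n * 1) := by
    have h1 : Sm W R c (fun n => ArithmeticFunction.vonMangoldt n) =
        Sm W R c (fun n => (if n.Prime then ArithmeticFunction.vonMangoldt n else 0) +
          (if n.Prime then 0 else ArithmeticFunction.vonMangoldt n * 1)) := by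
      congr 1
      funext n
      split_ifs <;> ring
    rw [h1, Sm_add]
    ring
  have hS3' : |Sm W R c (fun n => if n.Prime then 0 else ArithmeticFunction.vonMangoldt n * 1)| ≤ ε / 8 := by
    refine hS3.trans ?_
    have h1 : 1 ≤ T ^ ζ := Real.one_le_rpow hT1.le hζ0.le
    have h2 : 0 ≤ C2 * 1 * c * Real.exp (-(c / 2)) := by positivity
    have h3 : C2 * P * t ≤ K * (P ^ 4 * t) := by
      have hP1 : 1 ≤ P := by linarith
      have h4 : P ≤ P ^ 4 := by
        calc P = P * 1 := by ring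
          _ ≤ P * P ^ 3 := by gcongr; exact one_le_pow₀ hP1
          _ = _ := by ring
      have h5 : C2 ≤ K := by
        rw [hK]
        have : 0 ≤ 2 * (4 + R0) * (V + 1) := by positivity
        linarith
      calc C2 * P * t ≤ K * P ^ 4 * t := by gcongr
        _ = _ := by ring
    have h6 := le_mul_of_one_le_left h2 h1
    linarith
  have hfin : |G * Sm W R c (fun n => if n.Prime then ArithmeticFunction.vonMangoldt n else 0) - V * G| ≤ 2 * L * (ε / 4) := by
    have h1 : G * Sm W R c (fun n => if n.Prime then ArithmeticFunction.vonMangoldt n else 0) - V * G =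
        G * (Sm W R c (fun n => if n.Prime then ArithmeticFunction.vonMangoldt n else 0) - V) := by ring
    rw [h1, abs_mul, abs_of_nonneg hG0]
    refine mul_le_mul hGle ?_ (abs_nonneg _) (by positivity)
    rw [hpr]
    have h2 := abs_le.1 hSL2
    have h3 := abs_le.1 hS3'
    rw [abs_le]
    constructor <;> linarith
  rw [hsplit] at hD1
  have h1 := abs_le.1 hD1
  have h2 := abs_le.1 hfin
  have h3 : ε ≤ ε * L := le_mul_of_one_le_right hε.le (by linarith)
  rw [abs_le]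
  constructor <;> linarith

end K0cAux
end Pool.Agent.AP
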